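import Pool.Agent.H27.FrameExt
import Pool.Agent.H27.HC.FrameExists

/-!
# The virtual point over an arbitrary extension of the field with `p` elements
-/

open CategoryTheory Limits
open scoped TensorProduct

namespace Pool.Agent.H27.HC

open H1 (IC)

namespace FrobFrame

variable {p : ℕ} {k K W : Type} [Field k] [Field K] [Field W] [Algebra K W]
  (S : FrobFrame p k K W)

/-- The integral elements `IC K {x}`, etc. -/
abbrev ICt (t : WalkingCospan) : Subalgebra K W := IC K (chartSet S.x t)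

/-- `IC ⊗_K Ω` is perfect. -/
theorem exists_pow_eq [hp : Fact p.Prime] [IsAlgClosed W] [CharP W p] (Ω : Type) [Field Ω]
    [IsAlgClosed Ω] [Algebra K Ω] (t : WalkingCospan) (a : (S.ICt t) ⊗[K] Ω) : ∃ b, b ^ p = a := by
  have hnt : Nontrivial ((S.ICt t) ⊗[K] Ω) := inferInstance
  have h1 : CharP ((S.ICt t) ⊗[K] Ω) p := by
    have h2 : CharP K p := (algebraMap K W).charP (algebraMap K W).injective p
    exact charP_of_injective_algebraMap
      (algebraMap K ((S.ICt t) ⊗[K] Ω)).injective p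
  have hpos := hp.out.pos
  induction a with
  | zero => exact ⟨0, zero_pow hpos.ne'⟩
  | tmul x c =>
    obtain ⟨y, hy⟩ := IsAlgClosed.exists_pow_nat_eq (x : W) hpos
    obtain ⟨d, hd⟩ := IsAlgClosed.exists_pow_nat_eq c hpos
    have hyI : y ∈ S.ICt t := by
      have h1 : IsIntegral (Algebra.adjoin K (chartSet S.x t)) (y ^ p) := by
        rw [hy]
        exact x.2
      exact IsIntegral.of_pow hpos h1
    refine ⟨⟨y, hyI⟩ ⊗ₜ d, ?_⟩
    rw [Algebra.TensorProduct.tmul_pow, hd]
    congr 1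
    exact Subtype.ext hy
  | add x y hx hy =>
    obtain ⟨a, ha⟩ := hx
    obtain ⟨b, hb⟩ := hy
    exact ⟨a + b, by rw [add_pow_char, ha, hb]⟩

variable [Algebra k K] [Algebra k W] [IsScalarTower k K W]

/-- The virtual point over `κ`. -/
noncomputable def Yext (κ : Type) [Field κ] [Algebra k κ] : WalkingCospan ⥤ Alg κ :=
  extY κ S.A (fun τ ↦ S.A_mono τ)

lemma Yext_obj (κ : Type) [Field κ] [Algebra k κ] (t : WalkingCospan) :
    (S.Yext κ).obj t = CommAlgCat.of κ (κ ⊗[k] (S.A t)) := rfl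

lemma Yext_map (κ : Type) [Field κ] [Algebra k κ] {t t' : WalkingCospan} (τ : t ⟶ t') :
    (S.Yext κ).map τ = CommAlgCat.ofHom (Algebra.TensorProduct.map (AlgHom.id κ κ)
      (Subalgebra.inclusion (S.A_mono τ))) := rfl

theorem isConnectedDiagram_Yext [hp : Fact p.Prime] [CharP K p] [IsAlgClosed K] (κ : Type) [Field κ] [Algebra k κ] :
    IsConnectedDiagram (S.Yext κ) :=
  isConnectedDiagram_extY κ S.A (fun τ ↦ S.A_mono τ) S.A_inter

/-- Let `Ω` be an algebraic closure of `κ`, containing `K`.  The base change of `Yext` to `Ω` is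
`IC ⊗_K Ω`, which is a diagram of domains and embeds in an algebraically closed field `M`. -/
theorem exists_fieldPoint [hp : Fact p.Prime] [IsAlgClosed K] [Algebra.IsAlgebraic k K] [CharP K p] (κ : Type)
    [Field κ] [Algebra k κ] (Ω : Type) [Field Ω] [Algebra κ Ω] [IsAlgClosed Ω] [Algebra k Ω]
    [IsScalarTower k κ Ω] [Algebra K Ω] [IsScalarTower k K Ω] :
    ∃ (M : Type) (_ : Field M) (_ : IsAlgClosed M) (_ : Algebra κ M)
      (P : FieldPoint (S.Yext κ) Ω M)
      (e : ∀ t, P.Y'.obj t ≃+* (S.ICt t) ⊗[K] Ω),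
      (∀ t (c : Ω), e t ((P.e t).hom c) = 1 ⊗ₜ c) ∧
      ∀ (t t' : WalkingCospan) (τ : t ⟶ t') (a : P.Y'.obj t),
        e t' ((P.Y'.map τ).hom a) = Algebra.TensorProduct.map
          (Subalgebra.inclusion (IC_le (chartSet_mono S.x τ))) (AlgHom.id K Ω) (e t a) :=
  exists_fieldPoint_gen κ Ω S.A (fun τ ↦ S.A_mono τ) S.ICt
    (fun τ ↦ IC_le (chartSet_mono S.x τ)) (fun t _ ha ↦ S.A_le_O t ha)
    (fun t c ↦ S.algebraMap_mem_O t c) (fun t ↦ S.bijective_mulMap t)

end FrobFrame

end Pool.Agent.H27.HC
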