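import Pool.Agent.H27.HC.Map

/-!
# Hyperelliptic curves: the conditions on the equation
-/

open Polynomial QuadraticAlgebra

namespace Pool.Agent.H27.HC

section generic

variable {K : Type*} [Field K]

theorem eq_zero_of_norm_eq_zero {π a b : K[X]} (hπ : Prime π) (ha : π ∣ a) (hb : π ∣ b)
    (ha2 : ¬ π ^ 2 ∣ a) (z : QuadraticAlgebra K[X] a b) (hz : z.norm = 0) : z = 0 := by
  obtain ⟨a', rfl⟩ := ha
  obtain ⟨b', rfl⟩ := hb
  have h0 : π ≠ 0 := hπ.ne_zero
  have ha' : ¬ π ∣ a' := by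
    rintro ⟨c, rfl⟩
    exact ha2 ⟨c, by ring⟩
  have key : ∀ n : ℕ, π ^ n ∣ z.re ∧ π ^ n ∣ z.im := by
    intro n
    induction n with
    | zero => simp
    | succ n ih =>
      obtain ⟨⟨p, hp⟩, ⟨q, hq⟩⟩ := ih
      rw [norm_def, hp, hq] at hz
      have h1 : (π ^ n) ^ 2 * (p ^ 2 + π * b' * p * q - π * a' * q ^ 2) = 0 := by
        linear_combination hz
      have h2 : p ^ 2 + π * b' * p * q - π * a' * q ^ 2 = 0 := by
        rcases mul_eq_zero.1 h1 with h3 | h3
        · exact absurd h3 (pow_ne_zero _ (pow_ne_zero _ h0))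
        · exact h3
      have h4 : π ∣ p := by
        apply hπ.dvd_of_dvd_pow (n := 2)
        exact ⟨a' * q ^ 2 - b' * p * q, by linear_combination h2⟩
      obtain ⟨p', hp'⟩ := h4
      have h5 : π * (π * p' ^ 2 + π * b' * p' * q - a' * q ^ 2) = 0 := by
        rw [hp'] at h2
        linear_combination h2
      have h6 : π * p' ^ 2 + π * b' * p' * q - a' * q ^ 2 = 0 := by
        rcases mul_eq_zero.1 h5 with h3 | h3
        · exact absurd h3 h0
        · exact h3
      have h7 : π ∣ q := by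
        have h8 : π ∣ a' * q ^ 2 := ⟨p' ^ 2 + b' * p' * q, by linear_combination -h6⟩
        rcases hπ.dvd_or_dvd h8 with h9 | h9
        · exact absurd h9 ha'
        · exact hπ.dvd_of_dvd_pow h9
      obtain ⟨q', hq'⟩ := h7
      exact ⟨⟨p', by rw [hp, hp']; ring⟩, ⟨q', by rw [hq, hq']; ring⟩⟩
  have fin : ∀ p : K[X], (∀ n : ℕ, π ^ n ∣ p) → p = 0 := by
    intro p hp
    by_contra hne
    obtain ⟨n, hn⟩ := FiniteMultiplicity.of_not_isUnit hπ.not_isUnit hne
    exact hn (hp _)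
  exact QuadraticAlgebra.ext (fin _ fun n ↦ (key n).1) (fin _ fun n ↦ (key n).2)

/-- Eisenstein criterion. -/
theorem isDomain_quad {π a b : K[X]} (hπ : Prime π) (ha : π ∣ a) (hb : π ∣ b)
    (ha2 : ¬ π ^ 2 ∣ a) : IsDomain (QuadraticAlgebra K[X] a b) := by
  have : NoZeroDivisors (QuadraticAlgebra K[X] a b) := by
    refine ⟨fun {z w} hzw ↦ ?_⟩
    have h1 : z.norm * w.norm = 0 := by rw [← map_mul, hzw, QuadraticAlgebra.norm_zero]
    rcases mul_eq_zero.1 h1 with h2 | h2
    · exact Or.inl (eq_zero_of_norm_eq_zero hπ ha hb ha2 z h2)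
    · exact Or.inr (eq_zero_of_norm_eq_zero hπ ha hb ha2 w h2)
  exact NoZeroDivisors.to_isDomain _

end generic

/-- The conditions on the equation in characteristic `p`: the curve is smooth and geometrically
irreducible and has no points over the field with `p` elements. -/
structure Good (D : Dat) (p : ℕ) : Prop where
  pos : 0 < D.m
  lead : ((D.a.coeff (2 * D.m) : ℤ) : ZMod p) ≠ 0
  const : ((D.a.coeff 0 : ℤ) : ZMod p) ≠ 0
  eis : ∀ (K : Type) [Field K] [CharP K p],
    ∃ π : K[X], Prime π ∧ π ∣ a0 D K ∧ π ∣ b0 D K ∧ ¬ π ^ 2 ∣ a0 D K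
  sm0 : ∀ (K : Type) [Field K] [CharP K p], IsCoprime (⟨-b0 D K, 2⟩ : R0 D K)
    ⟨derivative (a0 D K), derivative (b0 D K)⟩
  sm1 : ∀ (K : Type) [Field K] [CharP K p], IsCoprime (⟨-b1 D K, 2⟩ : R1 D K)
    ⟨derivative (a1 D K), derivative (b1 D K)⟩
  np0 : ∀ x y : ZMod p, y * y ≠ (a0 D (ZMod p)).eval x + (b0 D (ZMod p)).eval x * y
  np1 : ∀ x y : ZMod p, y * y ≠ (a1 D (ZMod p)).eval x + (b1 D (ZMod p)).eval x * y

section

variable {D : Dat} {p : ℕ} (hD : Good D p) (K : Type) [Field K] [CharP K p]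

include hD

theorem isDomain_R0 : IsDomain (R0 D K) := by
  obtain ⟨π, hπ, ha, hb, ha2⟩ := hD.eis K
  exact isDomain_quad hπ ha hb ha2

theorem isDomain_R01 : IsDomain (R01 D K) := by
  have := isDomain_R0 hD K
  exact isDomain_R01_of D K

theorem isDomain_R1 : IsDomain (R1 D K) := by
  have := isDomain_R0 hD K
  exact isDomain_R1_of D K

omit hD in
theorem intCast_ne_zero_of {n : ℤ} (hn : (n : ZMod p) ≠ 0) : (n : K) ≠ 0 := by
  intro h
  apply hn
  rw [ZMod.intCast_zmod_eq_zero_iff_dvd]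
  exact (CharP.intCast_eq_zero_iff K p n).1 h

theorem natDegree_a0 : (a0 D K).natDegree = 2 * D.m := by
  apply le_antisymm (natDegree_map_le.trans D.ha)
  apply le_natDegree_of_ne_zero
  change ((D.a.map (Int.castRingHom K)).coeff (2 * D.m)) ≠ 0
  rw [coeff_map]
  exact intCast_ne_zero_of K hD.lead

theorem natDegree_a1 : (a1 D K).natDegree = 2 * D.m := by
  have h : (a1 D K).natDegree ≤ 2 * D.m := by
    refine natDegree_map_le.trans ?_
    rw [natDegree_le_iff_coeff_eq_zero]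
    intro n hn
    rw [coeff_reflect, revAt_eq_self_of_lt hn]
    exact coeff_eq_zero_of_natDegree_lt (D.ha.trans_lt hn)
  apply le_antisymm h
  apply le_natDegree_of_ne_zero
  change (((D.a.reflect (2 * D.m)).map (Int.castRingHom K)).coeff (2 * D.m)) ≠ 0
  rw [coeff_map, coeff_reflect, revAt_le le_rfl, Nat.sub_self]
  exact intCast_ne_zero_of K hD.const

omit hD in
theorem natDegree_b0_le (K : Type) [CommRing K] : (b0 D K).natDegree ≤ D.m :=
  natDegree_map_le.trans D.hb

omit hD in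
theorem natDegree_b1_le (K : Type) [CommRing K] : (b1 D K).natDegree ≤ D.m := by
  refine natDegree_map_le.trans ?_
  rw [natDegree_le_iff_coeff_eq_zero]
  intro n hn
  rw [coeff_reflect, revAt_eq_self_of_lt hn]
  exact coeff_eq_zero_of_natDegree_lt (D.hb.trans_lt hn)

end

end Pool.Agent.H27.HC
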