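import Pool.Agent.H27.HC.CFrame
import Pool.Agent.H27.BaseHom

/-!
# The virtual point lies on the curve
-/

open CategoryTheory Limits Polynomial LaurentPolynomial
open scoped TensorProduct

namespace Pool.Agent.H27.HC

open H1 (IC)

section

variable {D : Dat} {p : ℕ} {k K W : Type} [Field k] [Field K] [Field W] [Algebra K W]
  (S : FrobFrame p k K W) (i : R01 D K →ₐ[K] W) (hx : i (x01 D K) = S.x)

include hx in
lemma i_u01 : i (u01 D K) = S.x⁻¹ := by
  apply eq_inv_of_mul_eq_one_left
  rw [← hx, ← map_mul, mul_comm (u01 D K), x01_mul_u01, map_one]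

lemma mem_IC_of_quad {a b : K[X]} (g : QuadraticAlgebra K[X] a b →ₐ[K] W) {s : W}
    (hs : g ⟨X, 0⟩ = s) (z : QuadraticAlgebra K[X] a b) : g z ∈ IC K {s} := by
  have h₁ : ∀ p : K[X], g (algebraMap K[X] _ p) = aeval s p := by
    intro p
    have h₂ : g.comp ((Algebra.ofId K[X] (QuadraticAlgebra K[X] a b)).restrictScalars K) =
        aeval s := by
      apply Polynomial.algHom_ext
      rw [aeval_X]
      exact hs
    exact congr($h₂ p)
  let φ : K[X] →+* Algebra.adjoin K {s} :=
    (aeval s : K[X] →ₐ[K] W).toRingHom.codRestrict (Algebra.adjoin K {s}) (fun p ↦ by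
      rw [Algebra.adjoin_singleton_eq_range_aeval]
      exact ⟨p, rfl⟩)
  have h₃ : IsIntegral K[X] z := Algebra.IsIntegral.isIntegral z
  refine h₃.map_of_comp_eq φ g.toRingHom ?_
  ext p
  · exact (h₁ _).symm
  · exact (h₁ _).symm

include hx in
lemma mem_IC_left (z : R0 D K) : i (i0 D K z) ∈ IC K (chartSet S.x .left) := by
  have : (i.comp (i0 D K)) ⟨X, 0⟩ = S.x := by
    rw [← hx, ← i0_x0]
    rfl
  exact mem_IC_of_quad (i.comp (i0 D K)) this z

include hx in
lemma mem_IC_right (z : R1 D K) : i (i1 D K z) ∈ IC K (chartSet S.x .right) := by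
  have : (i.comp (i1 D K)) ⟨X, 0⟩ = S.x⁻¹ := by
    rw [← i_u01 S i hx, ← i1_u1]
    rfl
  exact mem_IC_of_quad (i.comp (i1 D K)) this z

include hx in
lemma mem_IC_one (z : R01 D K) : i z ∈ IC K (chartSet S.x .one) := by
  have h₁ : Algebra.adjoin K {x01 D K, u01 D K, y01 D K} ≤ (IC K (chartSet S.x .one)).comap i := by
    apply Algebra.adjoin_le
    rintro b (rfl | rfl | rfl)
    · change i (x01 D K) ∈ IC K (chartSet S.x .one)
      rw [hx]
      exact H1.mem_IC K (Or.inl rfl)
    · change i (u01 D K) ∈ IC K (chartSet S.x .one)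
      rw [i_u01 S i hx]
      exact H1.mem_IC K (Or.inr rfl)
    · change i (y01 D K) ∈ IC K (chartSet S.x .one)
      rw [← i0_y0]
      exact IC_le (chartSet_mono S.x WalkingCospan.Hom.inl) (mem_IC_left S i hx _)
  rw [adjoin_eq_top] at h₁
  exact h₁ (x := z) trivial

variable [hp : Fact p.Prime] [Algebra k K] [CharP K p]

include S in
lemma frob_comp : (frobenius K p).comp (algebraMap k K) = algebraMap k K := by
  ext r
  rw [RingHom.comp_apply, frobenius_def, ← map_pow, S.hk]

variable (hF : ∀ z, S.F (i z) = i (R01map D (frobenius K p) z)) [Algebra k W] [IsScalarTower k K W]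

include hF in
lemma F_fixed (z : R01 D k) : S.F (i (R01map D (algebraMap k K) z)) =
    i (R01map D (algebraMap k K) z) := by
  rw [hF, ← R01map_comp, frob_comp S]

/-- The map from the coordinate ring of the first chart to the virtual point. -/
noncomputable def β₀ : R0 D k →ₐ[k] S.A .left :=
  (((i.comp (i0 D K)).restrictScalars k).comp (map0 D k K)).codRestrict (S.A .left) (fun z ↦ by
    rw [S.mem_A]
    refine ⟨mem_IC_left S i hx _, ?_⟩
    change S.F (i (i0 D K (R0map D (algebraMap k K) z))) = i (i0 D K (R0map D (algebraMap k K) z))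
    rw [← R01map_i0]
    exact F_fixed S i hF _)

/-- The map from the coordinate ring of the second chart to the virtual point. -/
noncomputable def β₁ : R1 D k →ₐ[k] S.A .right :=
  (((i.comp (i1 D K)).restrictScalars k).comp (map1 D k K)).codRestrict (S.A .right) (fun z ↦ by
    rw [S.mem_A]
    refine ⟨mem_IC_right S i hx _, ?_⟩
    change S.F (i (i1 D K (R1map D (algebraMap k K) z))) = i (i1 D K (R1map D (algebraMap k K) z))
    rw [← R01map_i1]
    exact F_fixed S i hF _)

/-- The map from the coordinate ring of the intersection of the charts to the virtual point. -/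
noncomputable def β₂ : R01 D k →ₐ[k] S.A .one :=
  ((i.restrictScalars k).comp (map01 D k K)).codRestrict (S.A .one) (fun z ↦ by
    rw [S.mem_A]
    exact ⟨mem_IC_one S i hx _, F_fixed S i hF _⟩)

lemma β₀_coe (z : R0 D k) : (β₀ S i hx hF z : W) = i (i0 D K (map0 D k K z)) := rfl
lemma β₁_coe (z : R1 D k) : (β₁ S i hx hF z : W) = i (i1 D K (map1 D k K z)) := rfl
lemma β₂_coe (z : R01 D k) : (β₂ S i hx hF z : W) = i (map01 D k K z) := rfl

lemma β₀_injective (hi : Function.Injective i) : Function.Injective (β₀ S i hx hF) := by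
  intro a b hab
  exact R0map_injective D (algebraMap k K) (algebraMap k K).injective
    (i0_injective D K (hi (congrArg Subtype.val hab)))

lemma β₁_injective (hi : Function.Injective i) : Function.Injective (β₁ S i hx hF) := by
  intro a b hab
  exact R1map_injective D (algebraMap k K) (algebraMap k K).injective
    (i1_injective D K (hi (congrArg Subtype.val hab)))

lemma β₂_injective (hi : Function.Injective i) : Function.Injective (β₂ S i hx hF) := by
  intro a b hab
  exact R01map_injective D (algebraMap k K) (algebraMap k K).injective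
    (hi (congrArg Subtype.val hab))

lemma β₂_i0 (z : R0 D k) : β₂ S i hx hF (i0 D k z) =
    Subalgebra.inclusion (S.A_mono WalkingCospan.Hom.inl) (β₀ S i hx hF z) := by
  apply Subtype.ext
  rw [β₂_coe, Subalgebra.coe_inclusion, β₀_coe, map01_i0]

lemma β₂_i1 (z : R1 D k) : β₂ S i hx hF (i1 D k z) =
    Subalgebra.inclusion (S.A_mono WalkingCospan.Hom.inr) (β₁ S i hx hF z) := by
  apply Subtype.ext
  rw [β₂_coe, Subalgebra.coe_inclusion, β₁_coe, map01_i1]

end

end Pool.Agent.H27.HC
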