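import Mathlib

/-!
# General facts, for every characteristic

A coprimality statement for quadratic extensions of polynomial rings in characteristic two,
algebraically independent elements of uncountable fields, places of the field of fractions of a
valuation ring.
-/

open Polynomial QuadraticAlgebra

namespace Pool.Agent.H27.HC

section

variable {K : Type} [CommRing K] (h g : K[X])

theorem isCoprime_quad [CharP K 2] (hh : h.Separable) (hg : IsCoprime h g) :
    IsCoprime (⟨-h, 2⟩ : QuadraticAlgebra K[X] (h * g) h) ⟨derivative (h * g), derivative h⟩ := by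
  have h2 : (2 : K[X]) = 0 := CharTwo.two_eq_zero
  have e1 : (⟨-h, 2⟩ : QuadraticAlgebra K[X] (h * g) h) = -algebraMap K[X] _ h := by
    rw [h2]
    apply QuadraticAlgebra.ext <;> simp
  rw [e1, IsCoprime.neg_left_iff]
  have h3 : IsCoprime h (derivative h ^ 2 * g ^ 2) :=
    IsCoprime.mul_right (IsCoprime.pow_right hh) hg.pow_right
  have h4 := h3.map (algebraMap K[X] (QuadraticAlgebra K[X] (h * g) h))
  have e2 : (⟨derivative (h * g), derivative h⟩ : QuadraticAlgebra K[X] (h * g) h) ^ 2 =
      algebraMap K[X] _ (derivative h ^ 2 * g ^ 2) +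
        algebraMap K[X] _ h * ⟨h * derivative g ^ 2 + g * derivative h ^ 2, derivative h ^ 2⟩ := by
    rw [pow_two]
    apply QuadraticAlgebra.ext
    · simp only [re_mul, re_add, algebraMap_re, algebraMap_im, derivative_mul]
      linear_combination (derivative h * g * h * derivative g) * h2
    · simp only [im_mul, im_add, algebraMap_re, algebraMap_im, derivative_mul]
      linear_combination ((derivative h * g + h * derivative g) * derivative h) * h2
  have h5 : IsCoprime (algebraMap K[X] (QuadraticAlgebra K[X] (h * g) h) h)
      ((⟨derivative (h * g), derivative h⟩ : QuadraticAlgebra K[X] (h * g) h) ^ 2) := by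
    rw [e2]
    exact h4.add_mul_left_right _
  exact (IsCoprime.pow_right_iff two_pos).1 h5

end

/-- Uncountable fields have infinite transcendence degree over countable ones. -/
lemma exists_algebraicIndependent (k L : Type) [Field k] [Field L] [Algebra k L] [Countable k]
    [Uncountable L] (n : ℕ) : ∃ g : Fin n → L, AlgebraicIndependent k g := by
  obtain ⟨s, hs⟩ := exists_isTranscendenceBasis k L
  have hinf : Infinite s := by
    by_contra hfin
    rw [not_infinite_iff_finite] at hfin
    have h₀ : Cardinal.mk (MvPolynomial s k) ≤ Cardinal.aleph0 := by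
      refine MvPolynomial.cardinalMk_le_max.trans ?_
      simp
    have h₁ : Cardinal.mk (Algebra.adjoin k (Set.range ((↑) : s → L))) ≤ Cardinal.aleph0 := by
      rw [← Cardinal.mk_congr hs.1.aevalEquiv.toEquiv]
      exact h₀
    have h₂ : Algebra.IsAlgebraic (Algebra.adjoin k (Set.range ((↑) : s → L))) L := hs.isAlgebraic
    have h₃ := Algebra.IsAlgebraic.cardinalMk_le_max (Algebra.adjoin k (Set.range ((↑) : s → L))) L
    have h₄ : Countable L := Cardinal.mk_le_aleph0_iff.1 (h₃.trans (max_le h₁ le_rfl))
    exact not_countable (α := L) h₄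
  let e : Fin n ↪ s := (Fin.valEmbedding.trans (Infinite.natEmbedding s))
  exact ⟨_, hs.1.comp e e.injective⟩

/-- A place of the field of fractions of a valuation ring. -/
lemma exists_place (A L B : Type) [CommRing A] [IsDomain A] [ValuationRing A] [Field L]
    [Algebra A L] [IsFractionRing A L] [CommRing B] (c : A →+* B) :
    ∃ V : ValuationSubring L, Nonempty (V →+* B) := by
  refine ⟨(ValuationRing.valuation A L).valuationSubring, ⟨c.comp
    ((ValuationRing.equivInteger A L).symm.toRingHom.comp ?_)⟩⟩
  exact
    { toFun := fun x ↦ ⟨x.1, x.2⟩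
      map_one' := rfl
      map_mul' := fun _ _ ↦ rfl
      map_zero' := rfl
      map_add' := fun _ _ ↦ rfl }

end Pool.Agent.H27.HC
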