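import Pool.Agent.H27.HC.Good
import Pool.Agent.H27.HC.GenA

/-!
# Hyperelliptic curves without points over the prime field, in every positive characteristic
-/

open Polynomial

namespace Pool.Agent.H27.HC

lemma exists_prime_factor {K : Type} [Field K] {f : K[X]} (hf : Squarefree f) (hu : ¬ IsUnit f) :
    ∃ π : K[X], Prime π ∧ π ∣ f ∧ ¬ π ^ 2 ∣ f := by
  obtain ⟨π, hπ, h⟩ := WfDvdMonoid.exists_irreducible_factor hu hf.ne_zero
  refine ⟨π, hπ.prime, h, fun h2 ↦ ?_⟩
  rw [pow_two] at h2
  exact hπ.not_isUnit (hf π h2)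

lemma coprime_X {K : Type} [CommRing K] {f : K[X]} (hf : f.coeff 0 = 1) : IsCoprime f X := by
  have h : X ∣ f - 1 := by
    rw [X_dvd_iff, coeff_sub, hf, coeff_one_zero, sub_self]
  obtain ⟨q, hq⟩ := h
  exact ⟨1, -q, by linear_combination hq⟩

lemma coprime_X_sub_one {K : Type} [CommRing K] {f : K[X]} (hf : f.eval 1 = 1) :
    IsCoprime f (X - 1) := by
  have h : X - C 1 ∣ f - C (f.eval 1) := X_sub_C_dvd_sub_C_eval
  rw [hf, C_1] at h
  obtain ⟨q, hq⟩ := h
  exact ⟨1, -q, by linear_combination hq⟩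

/-! ## Odd characteristic -/

section odd

/-- `y² = ν (x^(2m) - x^e + 1)` -/
noncomputable def datOdd (m e : ℕ) (he : e ≤ 2 * m) (ν : ℤ) : Dat where
  m := m
  a := C ν * (X ^ (2 * m) - X ^ e + 1)
  b := 0
  ha := by
    compute_degree
    omega
  hb := by simp

variable {m e : ℕ} (he : e ≤ 2 * m) (ν : ℤ)

theorem a0_odd (K : Type) [CommRing K] :
    a0 (datOdd m e he ν) K = C (ν : K) * (X ^ (2 * m) - X ^ e + 1) := by
  change (C ν * (X ^ (2 * m) - X ^ e + 1) : ℤ[X]).map (Int.castRingHom K) = _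
  simp

theorem b0_odd (K : Type) [CommRing K] : b0 (datOdd m e he ν) K = 0 := by
  change (0 : ℤ[X]).map (Int.castRingHom K) = _
  simp

theorem a1_odd (K : Type) [CommRing K] :
    a1 (datOdd m e he ν) K = C (ν : K) * (1 - X ^ (2 * m - e) + X ^ (2 * m)) := by
  change ((C ν * (X ^ (2 * m) - X ^ e + 1) : ℤ[X]).reflect (2 * m)).map
    (Int.castRingHom K) = _
  rw [reflect_C_mul, reflect_add, Polynomial.reflect_sub, reflect_monomial, reflect_monomial,
    reflect_one, revAt_le le_rfl, revAt_le he, Nat.sub_self, pow_zero]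
  simp

theorem b1_odd (K : Type) [CommRing K] : b1 (datOdd m e he ν) K = 0 := by
  change ((0 : ℤ[X]).reflect m).map (Int.castRingHom K) = _
  simp

lemma coprime_quad_zero {K : Type} [Field K] (h2 : (2 : K) ≠ 0) {a b : K[X]} (hb : b = 0)
    (ha : a.Separable) :
    IsCoprime (⟨-b, 2⟩ : QuadraticAlgebra K[X] a b) ⟨derivative a, derivative b⟩ := by
  subst hb
  have h1 : IsCoprime (algebraMap K[X] (QuadraticAlgebra K[X] a 0) a)
      (algebraMap K[X] (QuadraticAlgebra K[X] a 0) (derivative a)) :=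
    IsCoprime.map ha (algebraMap K[X] (QuadraticAlgebra K[X] a 0))
  have h3 : (2 : K[X]) * C (2 : K)⁻¹ = 1 := by
    rw [show (2 : K[X]) = C (2 : K) from (map_ofNat C 2).symm, ← C_mul, mul_inv_cancel₀ h2, C_1]
  have e1 : algebraMap K[X] (QuadraticAlgebra K[X] a 0) a = ⟨-0, 2⟩ * ⟨0, C (2 : K)⁻¹⟩ := by
    apply QuadraticAlgebra.ext
    · simp only [QuadraticAlgebra.algebraMap_re, QuadraticAlgebra.re_mul, neg_zero, zero_mul,
        zero_add]
      linear_combination -a * h3
    · simp
  have e2 : algebraMap K[X] (QuadraticAlgebra K[X] a 0) (derivative a) =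
      ⟨derivative a, derivative (0 : K[X])⟩ := by
    apply QuadraticAlgebra.ext <;> simp
  rw [e1, e2] at h1
  exact h1.of_mul_left_left

variable {p : ℕ} [hp : Fact p.Prime] {ν} (hp2 : p ≠ 2) (hν : ¬ IsSquare (ν : ZMod p))
  (he0 : 0 < e) (hem : e < 2 * m) (hdvd : p - 1 ∣ 2 * m - e)
  (hpm : (p ∣ m ∧ ¬ p ∣ e) ∨ (¬ p ∣ m ∧ p ∣ e))

section

variable (K : Type) [Field K] [CharP K p]

include hν in
lemma nu_ne_zero : (ν : K) ≠ 0 := by
  apply intCast_ne_zero_of (p := p) K
  intro h
  apply hν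
  rw [h]
  exact ⟨0, by simp⟩

include hp2 in
omit hp in
lemma two_ne_zero_of : (2 : K) ≠ 0 := by
  intro h
  have h1 : ((2 : ℕ) : K) = 0 := by exact_mod_cast h
  rw [CharP.cast_eq_zero_iff K p] at h1
  have h3 : p = 1 ∨ p = 2 := (Nat.dvd_prime Nat.prime_two).1 h1
  rcases h3 with rfl | h3
  · have h4 : ((1 : ℕ) : K) = 0 := (CharP.cast_eq_zero_iff K 1 1).2 dvd_rfl
    rw [Nat.cast_one] at h4
    exact one_ne_zero h4
  · exact hp2 h3

include hν hpm he0 hem hp2 in
lemma sep_a0 : (a0 (datOdd m e he ν) K).Separable := by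
  rw [a0_odd]
  refine Separable.unit_mul ((IsUnit.mk0 _ (nu_ne_zero hν K)).map C) ?_
  have h2 := two_ne_zero_of hp2 K
  have hc : IsCoprime (X ^ (2 * m) - X ^ e + 1 : K[X]) X := by
    apply coprime_X
    rw [coeff_add, coeff_sub, coeff_X_pow, coeff_X_pow, if_neg (by omega), if_neg (by omega),
      coeff_one_zero]
    ring
  rw [separable_def, derivative_add, derivative_sub, derivative_X_pow, derivative_X_pow,
    derivative_one, add_zero]
  rcases hpm with ⟨hm, hpe⟩ | ⟨hm, hpe⟩
  · have h3 : ((2 * m : ℕ) : K) = 0 := by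
      rw [Nat.cast_mul, (CharP.cast_eq_zero_iff K p m).2 hm, mul_zero]
    have h4 : (e : K) ≠ 0 := fun h ↦ hpe ((CharP.cast_eq_zero_iff K p e).1 h)
    rw [h3, C_0, zero_mul, zero_sub, IsCoprime.neg_right_iff]
    exact (isCoprime_mul_unit_left_right ((IsUnit.mk0 _ h4).map C) _ _).2 hc.pow_right
  · have h3 : (e : K) = 0 := (CharP.cast_eq_zero_iff K p e).2 hpe
    have h4 : ((2 * m : ℕ) : K) ≠ 0 := by
      rw [Nat.cast_mul, Nat.cast_ofNat]
      exact mul_ne_zero h2 fun h ↦ hm ((CharP.cast_eq_zero_iff K p m).1 h)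
    rw [h3, C_0, zero_mul, sub_zero]
    exact (isCoprime_mul_unit_left_right ((IsUnit.mk0 _ h4).map C) _ _).2 hc.pow_right

include hν hpm he0 hem hp2 in
lemma sep_a1 : (a1 (datOdd m e he ν) K).Separable := by
  rw [a1_odd]
  refine Separable.unit_mul ((IsUnit.mk0 _ (nu_ne_zero hν K)).map C) ?_
  have h2 := two_ne_zero_of hp2 K
  have hc : IsCoprime (1 - X ^ (2 * m - e) + X ^ (2 * m) : K[X]) X := by
    apply coprime_X
    rw [coeff_add, coeff_sub, coeff_X_pow, coeff_X_pow, if_neg (by omega), if_neg (by omega),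
      coeff_one_zero]
    ring
  have h5 : ((2 * m - e : ℕ) : K) = ((2 * m : ℕ) : K) - (e : K) := Nat.cast_sub he
  rcases hpm with ⟨hm, hpe⟩ | ⟨hm, hpe⟩
  · rw [separable_def, derivative_add, derivative_sub, derivative_X_pow, derivative_X_pow,
      derivative_one, h5]
    have h3 : ((2 * m : ℕ) : K) = 0 := by
      rw [Nat.cast_mul, (CharP.cast_eq_zero_iff K p m).2 hm, mul_zero]
    have h4 : (e : K) ≠ 0 := fun h ↦ hpe ((CharP.cast_eq_zero_iff K p e).1 h)
    rw [h3, C_0, zero_mul, add_zero, zero_sub, zero_sub, C_neg, neg_mul, neg_neg]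
    exact (isCoprime_mul_unit_left_right ((IsUnit.mk0 _ h4).map C) _ _).2 hc.pow_right
  · have h3 : (e : K) = 0 := (CharP.cast_eq_zero_iff K p e).2 hpe
    have h4 : ((2 * m : ℕ) : K) ≠ 0 := by
      rw [Nat.cast_mul, Nat.cast_ofNat]
      exact mul_ne_zero h2 fun h ↦ hm ((CharP.cast_eq_zero_iff K p m).1 h)
    have h6 : (C ((2 * m : ℕ) : K)⁻¹ : K[X]) * C ((2 * m : ℕ) : K) = 1 := by
      rw [← C_mul, inv_mul_cancel₀ h4, C_1]
    have e1 : (X : K[X]) ^ (2 * m) = X * X ^ (2 * m - 1) := by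
      rw [← pow_succ']
      congr 1
      omega
    have e2 : (X : K[X]) ^ (2 * m - e) = X * X ^ (2 * m - e - 1) := by
      rw [← pow_succ']
      congr 1
      omega
    rw [separable_def']
    refine ⟨1, -(C ((2 * m : ℕ) : K)⁻¹ * X), ?_⟩
    rw [derivative_add, derivative_sub, derivative_X_pow, derivative_X_pow,
      derivative_one, h5, h3, sub_zero, e1, e2]
    linear_combination (-(X * X ^ (2 * m - 1)) + X * X ^ (2 * m - e - 1)) * h6

end

include hp2 hν he0 hem hdvd hpm in
theorem good_odd : Good (datOdd m e he ν) p where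
  pos := by
    change 0 < m
    omega
  lead := by
    have h1 : (C ν * (X ^ (2 * m) - X ^ e + 1) : ℤ[X]).coeff (2 * m) = ν := by
      rw [coeff_C_mul, coeff_add, coeff_sub, coeff_X_pow, coeff_X_pow, if_pos rfl,
        if_neg (by omega), coeff_one, if_neg (by omega)]
      ring
    change (((C ν * (X ^ (2 * m) - X ^ e + 1) : ℤ[X]).coeff (2 * m) : ℤ) : ZMod p) ≠ 0
    rw [h1]
    exact nu_ne_zero hν (ZMod p)
  const := by
    have h1 : (C ν * (X ^ (2 * m) - X ^ e + 1) : ℤ[X]).coeff 0 = ν := by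
      rw [coeff_C_mul, coeff_add, coeff_sub, coeff_X_pow, coeff_X_pow, if_neg (by omega),
        if_neg (by omega), coeff_one, if_pos rfl]
      ring
    change (((C ν * (X ^ (2 * m) - X ^ e + 1) : ℤ[X]).coeff 0 : ℤ) : ZMod p) ≠ 0
    rw [h1]
    exact nu_ne_zero hν (ZMod p)
  eis K _ _ := by
    obtain ⟨π, hπ, h1, h2⟩ := exists_prime_factor
      (sep_a0 he hp2 hν he0 hem hpm K).squarefree (by
      intro h
      have h3 : (a0 (datOdd m e he ν) K).coeff (2 * m) = ν := by
        rw [a0_odd, coeff_C_mul, coeff_add, coeff_sub, coeff_X_pow, coeff_X_pow, if_pos rfl,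
          if_neg (by omega), coeff_one, if_neg (by omega)]
        ring
      have h4 := natDegree_eq_zero_of_isUnit h
      rw [coeff_eq_zero_of_natDegree_lt (by rw [h4]; omega)] at h3
      exact nu_ne_zero hν K h3.symm)
    exact ⟨π, hπ, h1, by rw [b0_odd]; exact dvd_zero _, h2⟩
  sm0 K _ _ := coprime_quad_zero (two_ne_zero_of hp2 K) (b0_odd he ν K)
    (sep_a0 he hp2 hν he0 hem hpm K)
  sm1 K _ _ := coprime_quad_zero (two_ne_zero_of hp2 K) (b1_odd he ν K)
    (sep_a1 he hp2 hν he0 hem hpm K)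
  np0 x y := by
    rw [a0_odd, b0_odd, eval_zero, zero_mul, add_zero, eval_mul, eval_add, eval_sub, eval_pow,
      eval_pow, eval_X, eval_one, eval_C]
    have h1 : x ^ (2 * m) = x ^ e := by
      rcases eq_or_ne x 0 with rfl | hx
      · rw [zero_pow (by omega), zero_pow (by omega)]
      · obtain ⟨c, hc⟩ := hdvd
        have h2 : 2 * m = e + (p - 1) * c := by omega
        rw [h2, pow_add, pow_mul, ZMod.pow_card_sub_one_eq_one hx, one_pow, mul_one]
    rw [h1, sub_self, zero_add, mul_one]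
    intro h
    exact hν ⟨y, h.symm⟩
  np1 x y := by
    rw [a1_odd, b1_odd, eval_zero, zero_mul, add_zero, eval_mul, eval_add, eval_sub, eval_pow,
      eval_pow, eval_X, eval_one, eval_C]
    intro h
    rcases eq_or_ne x 0 with rfl | hx
    · rw [zero_pow (by omega), zero_pow (by omega), sub_zero, add_zero, mul_one] at h
      exact hν ⟨y, h.symm⟩
    · obtain ⟨c, hc⟩ := hdvd
      have h1 : x ^ (2 * m - e) = 1 := by
        rw [hc, pow_mul, ZMod.pow_card_sub_one_eq_one hx, one_pow]
      rw [h1, sub_self, zero_add, mul_comm 2 m, pow_mul] at h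
      apply hν
      have hx' : x ^ m ≠ 0 := pow_ne_zero m hx
      refine ⟨y * (x ^ m)⁻¹, ?_⟩
      field_simp
      rw [pow_two y, h]

end odd

/-! ## Characteristic 2 -/

section two

/-- `y² = (x^m + x + 1) y + (x^m + x + 1) (x^m + x² + 1)` -/
noncomputable def datTwo (m : ℕ) (hm : 3 ≤ m) : Dat where
  m := m
  a := (X ^ m + X + 1) * (X ^ m + X ^ 2 + 1)
  b := X ^ m + X + 1
  ha := by
    compute_degree
    omega
  hb := by
    compute_degree
    omega

variable {m : ℕ} (hm : 3 ≤ m)

include hm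

lemma reflect_h : (X ^ m + X + 1 : ℤ[X]).reflect m = X ^ m + X ^ (m - 1) + 1 := by
  have h : (X : ℤ[X]).reflect m = X ^ (m - 1) := by
    have := reflect_monomial (R := ℤ) m 1
    rwa [pow_one, revAt_le (by omega)] at this
  rw [reflect_add, reflect_add, reflect_monomial, h, reflect_one, revAt_le le_rfl, Nat.sub_self,
    pow_zero]
  ring

lemma reflect_g : (X ^ m + X ^ 2 + 1 : ℤ[X]).reflect m = X ^ m + X ^ (m - 2) + 1 := by
  rw [reflect_add, reflect_add, reflect_monomial, reflect_monomial, reflect_one,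
    revAt_le le_rfl, revAt_le (by omega), Nat.sub_self, pow_zero]
  ring

section

variable (K : Type) [CommRing K]

omit hm in
theorem a0_two (hm : 3 ≤ m) : a0 (datTwo m hm) K = (X ^ m + X + 1) * (X ^ m + X ^ 2 + 1) := by
  change ((X ^ m + X + 1) * (X ^ m + X ^ 2 + 1) : ℤ[X]).map (Int.castRingHom K) = _
  simp

omit hm in
theorem b0_two (hm : 3 ≤ m) : b0 (datTwo m hm) K = X ^ m + X + 1 := by
  change (X ^ m + X + 1 : ℤ[X]).map (Int.castRingHom K) = _
  simp

omit hm in
theorem a1_two (hm : 3 ≤ m) : a1 (datTwo m hm) K =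
    (X ^ m + X ^ (m - 1) + 1) * (X ^ m + X ^ (m - 2) + 1) := by
  change (((X ^ m + X + 1) * (X ^ m + X ^ 2 + 1) : ℤ[X]).reflect (2 * m)).map
    (Int.castRingHom K) = _
  rw [two_mul, reflect_mul (F := m) (G := m) _ _ (by compute_degree; omega)
    (by compute_degree; omega), reflect_h hm, reflect_g hm]
  simp

omit hm in
theorem b1_two (hm : 3 ≤ m) : b1 (datTwo m hm) K = X ^ m + X ^ (m - 1) + 1 := by
  change ((X ^ m + X + 1 : ℤ[X]).reflect m).map (Int.castRingHom K) = _
  rw [reflect_h hm]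
  simp

end

section

variable (K : Type) [Field K] [CharP K 2]

lemma two_poly : (2 : K[X]) = 0 := CharTwo.two_eq_zero

lemma sep_h : (X ^ m + X + 1 : K[X]).Separable := by
  have h2 := two_poly hm K
  have e1 : (X : K[X]) ^ m = X * X ^ (m - 1) := by
    rw [← pow_succ']
    congr 1
    omega
  rw [separable_def', derivative_add, derivative_add, derivative_X_pow, derivative_X,
    derivative_one]
  rcases Nat.even_or_odd m with h | h
  · have h3 : (m : K) = 0 := (CharP.cast_eq_zero_iff K 2 m).2 h.two_dvd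
    refine ⟨0, 1, ?_⟩
    rw [h3, C_0]
    ring
  · have h3 : (m : K) = 1 := by
      obtain ⟨c, rfl⟩ := h
      have : (2 : K) = 0 := CharTwo.two_eq_zero
      push_cast
      rw [this]
      ring
    refine ⟨1, -X, ?_⟩
    rw [h3, C_1, e1]
    ring

lemma sep_h1 : (X ^ m + X ^ (m - 1) + 1 : K[X]).Separable := by
  have hc : IsCoprime (X ^ m + X ^ (m - 1) + 1 : K[X]) X := by
    apply coprime_X
    rw [coeff_add, coeff_add, coeff_X_pow, coeff_X_pow, if_neg (by omega), if_neg (by omega),
      coeff_one_zero]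
    ring
  have h2 : (2 : K) = 0 := CharTwo.two_eq_zero
  rw [separable_def, derivative_add, derivative_add, derivative_X_pow, derivative_X_pow,
    derivative_one, add_zero, Nat.cast_sub (by omega : 1 ≤ m)]
  rcases Nat.even_or_odd m with h | h
  · have h3 : (m : K) = 0 := (CharP.cast_eq_zero_iff K 2 m).2 h.two_dvd
    have h4 : (0 : K) - 1 = 1 := by linear_combination -h2
    rw [h3, C_0, zero_mul, zero_add, Nat.cast_one, h4, C_1, one_mul]
    exact hc.pow_right
  · have h3 : (m : K) = 1 := by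
      obtain ⟨c, rfl⟩ := h
      push_cast
      rw [h2]
      ring
    rw [h3, Nat.cast_one, sub_self, C_0, zero_mul, add_zero, C_1, one_mul]
    exact hc.pow_right

lemma coprime_hg : IsCoprime (X ^ m + X + 1 : K[X]) (X ^ m + X ^ 2 + 1) := by
  have h2 := two_poly hm K
  have h2' : (2 : K) = 0 := CharTwo.two_eq_zero
  have hc : IsCoprime (X ^ m + X + 1 : K[X]) X := by
    apply coprime_X
    rw [coeff_add, coeff_add, coeff_X_pow, coeff_X_zero, if_neg (by omega), coeff_one_zero]
    ring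
  have hc' : IsCoprime (X ^ m + X + 1 : K[X]) (X - 1) := by
    apply coprime_X_sub_one
    simp only [eval_add, eval_pow, eval_X, eval_one, one_pow]
    linear_combination h2'
  have h3 := (hc.mul_right hc').add_mul_left_right 1
  have e1 : (X * (X - 1) + (X ^ m + X + 1) * 1 : K[X]) = X ^ m + X ^ 2 + 1 := by ring
  rwa [e1] at h3

lemma coprime_hg1 : IsCoprime (X ^ m + X ^ (m - 1) + 1 : K[X]) (X ^ m + X ^ (m - 2) + 1) := by
  have h2 := two_poly hm K
  have h2' : (2 : K) = 0 := CharTwo.two_eq_zero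
  have hc : IsCoprime (X ^ m + X ^ (m - 1) + 1 : K[X]) X := by
    apply coprime_X
    rw [coeff_add, coeff_add, coeff_X_pow, coeff_X_pow, if_neg (by omega), if_neg (by omega),
      coeff_one_zero]
    ring
  have hc' : IsCoprime (X ^ m + X ^ (m - 1) + 1 : K[X]) (X - 1) := by
    apply coprime_X_sub_one
    simp only [eval_add, eval_pow, eval_X, eval_one, one_pow]
    linear_combination h2'
  have h3 := ((hc.pow_right (n := m - 2)).mul_right hc').add_mul_left_right 1
  have e2 : (X : K[X]) ^ (m - 1) = X ^ (m - 2) * X := by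
    rw [← pow_succ]
    congr 1
    omega
  have e1 : (X ^ (m - 2) * (X - 1) + (X ^ m + X ^ (m - 1) + 1) * 1 : K[X]) =
      X ^ m + X ^ (m - 2) + 1 := by
    rw [e2]
    linear_combination (X ^ (m - 2) * X - X ^ (m - 2)) * h2
  rwa [e1] at h3

end

omit hm in
lemma coprime_quad_two {K : Type} [Field K] [CharP K 2] {a b : K[X]} (h g : K[X]) (ha : a = h * g)
    (hb : b = h) (hh : h.Separable) (hg : IsCoprime h g) :
    IsCoprime (⟨-b, 2⟩ : QuadraticAlgebra K[X] a b) ⟨derivative a, derivative b⟩ := by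
  subst ha hb
  exact isCoprime_quad _ _ hh hg

theorem good_two : Good (datTwo m hm) 2 where
  pos := by
    change 0 < m
    omega
  lead := by
    change ((((X ^ m + X + 1) * (X ^ m + X ^ 2 + 1) : ℤ[X]).coeff (2 * m) : ℤ) : ZMod 2) ≠ 0
    have e1 : (X ^ m + X + 1 : ℤ[X]).coeff m = 1 := by
      rw [coeff_add, coeff_add, coeff_X_pow, if_pos rfl, coeff_X, if_neg (by omega), coeff_one,
        if_neg (by omega)]
      ring
    have e2 : (X ^ m + X ^ 2 + 1 : ℤ[X]).coeff m = 1 := by
      rw [coeff_add, coeff_add, coeff_X_pow, if_pos rfl, coeff_X_pow, if_neg (by omega), coeff_one,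
        if_neg (by omega)]
      ring
    have h1 : ((X ^ m + X + 1) * (X ^ m + X ^ 2 + 1) : ℤ[X]).coeff (m + m) = 1 := by
      rw [coeff_mul_add_eq_of_natDegree_le (by compute_degree; omega) (by compute_degree; omega),
        e1, e2, one_mul]
    rw [two_mul, h1]
    simp
  const := by
    change ((((X ^ m + X + 1) * (X ^ m + X ^ 2 + 1) : ℤ[X]).coeff 0 : ℤ) : ZMod 2) ≠ 0
    have e0 : m ≠ 0 := by omega
    rw [mul_coeff_zero, coeff_add, coeff_add, coeff_add, coeff_add, coeff_X_pow,
      if_neg (by omega), coeff_X_zero, coeff_X_pow, if_neg (by omega), coeff_one_zero]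
    simp
  eis K _ _ := by
    obtain ⟨π, hπ, h1, h2⟩ := exists_prime_factor (sep_h hm K).squarefree (by
      intro h
      have h3 : (X ^ m + X + 1 : K[X]).coeff m = 1 := by
        rw [coeff_add, coeff_add, coeff_X_pow, if_pos rfl, coeff_X, if_neg (by omega), coeff_one,
          if_neg (by omega)]
        ring
      have h4 := natDegree_eq_zero_of_isUnit h
      rw [coeff_eq_zero_of_natDegree_lt (by rw [h4]; omega)] at h3
      exact zero_ne_one h3)
    refine ⟨π, hπ, ?_, ?_, ?_⟩
    · rw [a0_two]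
      exact h1.mul_right _
    · rw [b0_two]
      exact h1
    · rw [a0_two]
      intro h
      have h3 : IsCoprime (π ^ 2) (X ^ m + X ^ 2 + 1 : K[X]) :=
        (IsCoprime.pow_left (IsCoprime.of_isCoprime_of_dvd_left (coprime_hg hm K) h1))
      exact h2 (h3.dvd_of_dvd_mul_right h)
  sm0 K _ _ := coprime_quad_two _ _ (a0_two K hm) (b0_two K hm) (sep_h hm K) (coprime_hg hm K)
  sm1 K _ _ := coprime_quad_two _ _ (a1_two K hm) (b1_two K hm) (sep_h1 hm K) (coprime_hg1 hm K)
  np0 x y := by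
    rw [a0_two, b0_two]
    simp only [eval_mul, eval_add, eval_pow, eval_X, eval_one]
    have h1 : x ^ m = x := by
      rcases (by revert x; decide : x = 0 ∨ x = 1) with rfl | rfl
      · exact zero_pow (by omega)
      · exact one_pow _
    rw [h1]
    clear h1
    revert x y
    decide
  np1 x y := by
    rw [a1_two, b1_two]
    simp only [eval_mul, eval_add, eval_pow, eval_X, eval_one]
    have h1 : ∀ n : ℕ, n ≠ 0 → x ^ n = x := by
      intro n hn
      rcases (by revert x; decide : x = 0 ∨ x = 1) with rfl | rfl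
      · exact zero_pow hn
      · exact one_pow _
    rw [h1 m (by omega), h1 (m - 1) (by omega), h1 (m - 2) (by omega)]
    clear h1
    revert x y
    decide

end two

/-- In every positive characteristic there are good equations. -/
theorem exists_good (p : ℕ) [hp : Fact p.Prime] (g : ℕ) (hg : 2 ≤ g)
    (hgp : p * (p - 1) ≤ 2 * g ∨ p ∣ g + 1) : ∃ D : Dat, Good D p ∧ D.m = g + 1 := by
  rcases eq_or_ne p 2 with rfl | hp2
  · exact ⟨datTwo (g + 1) (by omega), good_two (by omega), rfl⟩
  · have hp3 : 3 ≤ p := by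
      have := hp.out.two_le
      omega
    obtain ⟨ν, hν⟩ := FiniteField.exists_nonsquare (F := ZMod p) (by
      rw [ZMod.ringChar_zmod_n]
      exact hp2)
    have hν' : ¬ IsSquare (((ν.val : ℤ)) : ZMod p) := by
      rw [Int.cast_natCast, ZMod.natCast_val, ZMod.cast_id', id_eq]
      exact hν
    by_cases hpm : p ∣ g + 1
    · have h1 : p ≤ g + 1 := Nat.le_of_dvd (by omega) hpm
      let e := 2 * (g + 1) - (p - 1)
      have he : e ≤ 2 * (g + 1) := by omega
      refine ⟨datOdd (g + 1) e he (ν.val : ℤ), good_odd he hp2 hν' (by omega) (by omega) ?_ ?_, rfl⟩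
      · have : 2 * (g + 1) - e = p - 1 := by omega
        rw [this]
      · refine Or.inl ⟨hpm, fun h ↦ ?_⟩
        have h2 : p ∣ e + (p - 1) := by
          have : e + (p - 1) = 2 * (g + 1) := by omega
          rw [this]
          exact hpm.mul_left 2
        have h3 : p ∣ p - 1 := (Nat.dvd_add_right h).1 h2
        have h4 := Nat.le_of_dvd (by omega) h3
        omega
    · have h1 : p * (p - 1) ≤ 2 * g := by
        rcases hgp with h | h
        · exact h
        · exact absurd h hpm
      let t := (2 * (g + 1) - 1) % (p - 1) + 1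
      have ht : t ≤ p - 1 := Nat.mod_lt _ (by omega)
      have ht' : 2 * (g + 1) - 1 = (p - 1) * ((2 * (g + 1) - 1) / (p - 1)) + (t - 1) :=
        (Nat.div_add_mod _ _).symm
      let e := p * t
      have he' : e ≤ p * (p - 1) := Nat.mul_le_mul_left p ht
      have he : e ≤ 2 * (g + 1) := by omega
      have ht0 : 0 < t := Nat.succ_pos _
      have he0 : 0 < e := Nat.mul_pos (by omega) ht0
      refine ⟨datOdd (g + 1) e he (ν.val : ℤ), good_odd he hp2 hν' he0 (by omega) ?_
        (Or.inr ⟨hpm, dvd_mul_right p t⟩), rfl⟩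
      have h5 : e = (p - 1) * t + t := by
        change p * t = _
        obtain ⟨q, rfl⟩ := Nat.exists_eq_add_of_le' (show 1 ≤ p by omega)
        rw [Nat.add_sub_cancel]
        ring
      have h6 : 2 * (g + 1) = (p - 1) * ((2 * (g + 1) - 1) / (p - 1)) + t := by omega
      have h7 : 2 * (g + 1) - e = (p - 1) * ((2 * (g + 1) - 1) / (p - 1)) - (p - 1) * t := by
        rw [h5]
        conv_lhs => rw [h6]
        omega
      rw [h7, ← Nat.mul_sub]
      exact dvd_mul_right _ _

end Pool.Agent.H27.HC
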