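import Pool.Agent.H27.HC.CPt

/-!
# The relative Frobenius endomorphism of the curve
-/

open CategoryTheory Limits AlgebraicGeometry Polynomial
open scoped TensorProduct

namespace Pool.Agent.H27.HC

section ring

variable (p : ℕ) [hp : Fact p.Prime]

lemma aeval_int {K B : Type} [CommRing K] [CommRing B] [Algebra K B] (x : B) (q : ℤ[X]) :
    aeval x (q.map (Int.castRingHom K)) = eval₂ (Int.castRingHom B) x q := by
  rw [aeval_def, eval₂_map]
  congr 1
  exact RingHom.ext_int _ _

lemma eval₂_int_pow {B : Type} [CommRing B] [CharP B p] (x : B) (q : ℤ[X]) :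
    (eval₂ (Int.castRingHom B) x q) ^ p = eval₂ (Int.castRingHom B) (x ^ p) q := by
  have h := hom_eval₂ q (Int.castRingHom B) (frobenius B p) x
  rw [frobenius_def, frobenius_def] at h
  rw [h]
  congr 1
  exact RingHom.ext_int _ _

lemma quad_pow {K B : Type} [CommRing K] [CommRing B] [Algebra K B] [CharP B p] {x y : B}
    (a b : ℤ[X])
    (h : y * y = aeval x (a.map (Int.castRingHom K)) + aeval x (b.map (Int.castRingHom K)) * y) :
    y ^ p * y ^ p = aeval (x ^ p) (a.map (Int.castRingHom K)) +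
      aeval (x ^ p) (b.map (Int.castRingHom K)) * y ^ p := by
  rw [← mul_pow, h, add_pow_char, mul_pow]
  simp only [aeval_int, eval₂_int_pow]

variable (D : Dat) (K : Type) [Field K] [CharP K p]

instance charP_R0 : CharP (R0 D K) p := by
  have : Nontrivial (R0 D K) := inferInstance
  exact charP_of_injective_algebraMap (algebraMap K (R0 D K)).injective p

instance charP_R1 : CharP (R1 D K) p := by
  have : Nontrivial (R1 D K) := inferInstance
  exact charP_of_injective_algebraMap (algebraMap K (R1 D K)).injective p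

instance charP_R01 : CharP (R01 D K) p := by
  have : Nontrivial (R01 D K) := inferInstance
  exact charP_of_injective_algebraMap (algebraMap K (R01 D K)).injective p

/-- `x ↦ x^p, y ↦ y^p` -/
noncomputable def fr0 : R0 D K →ₐ[K] R0 D K :=
  lift0 D (x0 D K ^ p) (y0 D K ^ p) (quad_pow p D.a D.b (y0_mul_y0 D K))

/-- `u ↦ u^p, v ↦ v^p` -/
noncomputable def fr1 : R1 D K →ₐ[K] R1 D K :=
  lift1 D (u1 D K ^ p) (v1 D K ^ p) (quad_pow p (D.a.reflect (2 * D.m)) (D.b.reflect D.m)
    (v1_mul_v1 D K))

@[simp] lemma fr0_x0 : fr0 p D K (x0 D K) = x0 D K ^ p := lift0_x0 D _ _ _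
@[simp] lemma fr0_y0 : fr0 p D K (y0 D K) = y0 D K ^ p := lift0_y0 D _ _ _
@[simp] lemma fr1_u1 : fr1 p D K (u1 D K) = u1 D K ^ p := lift1_u1 D _ _ _
@[simp] lemma fr1_v1 : fr1 p D K (v1 D K) = v1 D K ^ p := lift1_v1 D _ _ _

lemma exists_fr01 : ∃ φ : R01 D K →ₐ[K] R01 D K,
    φ (x01 D K) = x01 D K ^ p ∧ φ (y01 D K) = y01 D K ^ p := by
  have h : y01 D K * y01 D K = aeval (x01 D K) (a0 D K) + aeval (x01 D K) (b0 D K) * y01 D K := by
    have h₃ : ∀ p : K[X], i0 D K (aeval (x0 D K) p) = aeval (x01 D K) p := fun p ↦ by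
      rw [← i0_x0]
      exact (aeval_algHom_apply (i0 D K) (x0 D K) p).symm
    have h₂ := congrArg (i0 D K) (y0_mul_y0 D K)
    rw [_root_.map_mul (i0 D K), _root_.map_add (i0 D K), _root_.map_mul (i0 D K), h₃, h₃,
      i0_y0] at h₂
    exact h₂
  obtain ⟨φ, h₁, h₂, -⟩ := exists_lift01 D (x01 D K ^ p) (y01 D K ^ p)
    ((IsUnit.of_mul_eq_one _ (x01_mul_u01 D K)).pow p) (quad_pow p D.a D.b h)
  exact ⟨φ, h₁, h₂⟩

/-- `x ↦ x^p, y ↦ y^p` -/
noncomputable def fr01 : R01 D K →ₐ[K] R01 D K := (exists_fr01 p D K).choose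

@[simp] lemma fr01_x01 : fr01 p D K (x01 D K) = x01 D K ^ p := (exists_fr01 p D K).choose_spec.1
@[simp] lemma fr01_y01 : fr01 p D K (y01 D K) = y01 D K ^ p := (exists_fr01 p D K).choose_spec.2

@[simp] lemma fr01_u01 : fr01 p D K (u01 D K) = u01 D K ^ p := by
  have h₁ : x01 D K ^ p * fr01 p D K (u01 D K) = 1 := by
    rw [← fr01_x01, ← map_mul, x01_mul_u01, map_one]
  have h₂ : x01 D K ^ p * u01 D K ^ p = 1 := by
    rw [← mul_pow, x01_mul_u01, one_pow]
  exact (IsUnit.of_mul_eq_one _ h₂).mul_left_cancel (h₁.trans h₂.symm)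

lemma fr01_i0 (z : R0 D K) : fr01 p D K (i0 D K z) = i0 D K (fr0 p D K z) := by
  have : (fr01 p D K).comp (i0 D K) = (i0 D K).comp (fr0 p D K) := by
    apply algHom_ext0 D
    · rw [AlgHom.comp_apply, AlgHom.comp_apply, i0_x0, fr01_x01, fr0_x0, map_pow, i0_x0]
    · rw [AlgHom.comp_apply, AlgHom.comp_apply, i0_y0, fr01_y01, fr0_y0, map_pow, i0_y0]
  exact congr($this z)

lemma fr01_i1 (z : R1 D K) : fr01 p D K (i1 D K z) = i1 D K (fr1 p D K z) := by
  have : (fr01 p D K).comp (i1 D K) = (i1 D K).comp (fr1 p D K) := by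
    apply algHom_ext1 D
    · rw [AlgHom.comp_apply, AlgHom.comp_apply, i1_u1, fr01_u01, fr1_u1, map_pow, i1_u1]
    · rw [AlgHom.comp_apply, AlgHom.comp_apply, i1_v1, map_mul, map_pow, fr01_u01, fr01_y01,
        fr1_v1, map_pow, i1_v1, mul_pow, ← pow_mul, ← pow_mul, mul_comm D.m]
  exact congr($this z)

end ring

section base

variable {p : ℕ} [hp : Fact p.Prime] {k : Type} [Field k] (hk : ∀ r : k, r ^ p = r)

/-- The Frobenius of an algebra over the prime field. -/
def frobAlg (B : Type) [CommRing B] [Algebra k B] [CharP B p] : B →ₐ[k] B :=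
  { frobenius B p with
    commutes' := fun r ↦ by
      change (algebraMap k B r) ^ p = _
      rw [← map_pow, hk] }

lemma frobAlg_apply (B : Type) [CommRing B] [Algebra k B] [CharP B p] (b : B) :
    frobAlg hk B b = b ^ p := rfl

variable (D : Dat) (κ : Type) [Field κ] [Algebra k κ] [CharP κ p]

include hk

lemma fr0_map0 (z : R0 D k) : fr0 p D κ (map0 D k κ z) = map0 D k κ z ^ p := by
  have : ((fr0 p D κ).restrictScalars k).comp (map0 D k κ) =
      (frobAlg hk (R0 D κ)).comp (map0 D k κ) := by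
    apply algHom_ext0 D
    · change fr0 p D κ (map0 D k κ (x0 D k)) = (map0 D k κ (x0 D k)) ^ p
      rw [map0_x0, fr0_x0]
    · change fr0 p D κ (map0 D k κ (y0 D k)) = (map0 D k κ (y0 D k)) ^ p
      rw [map0_y0, fr0_y0]
  exact congr($this z)

lemma fr1_map1 (z : R1 D k) : fr1 p D κ (map1 D k κ z) = map1 D k κ z ^ p := by
  have : ((fr1 p D κ).restrictScalars k).comp (map1 D k κ) =
      (frobAlg hk (R1 D κ)).comp (map1 D k κ) := by
    apply algHom_ext1 D
    · change fr1 p D κ (map1 D k κ (u1 D k)) = (map1 D k κ (u1 D k)) ^ p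
      rw [map1_u1, fr1_u1]
    · change fr1 p D κ (map1 D k κ (v1 D k)) = (map1 D k κ (v1 D k)) ^ p
      rw [map1_v1, fr1_v1]
  exact congr($this z)

lemma fr01_map01 (z : R01 D k) : fr01 p D κ (map01 D k κ z) = map01 D k κ z ^ p := by
  have : ((fr01 p D κ).restrictScalars k).comp (map01 D k κ) =
      (frobAlg hk (R01 D κ)).comp (map01 D k κ) := by
    apply algHom_ext01 D
    · change fr01 p D κ (map01 D k κ (x01 D k)) = (map01 D k κ (x01 D k)) ^ p
      rw [← i0_x0, map01_i0, map0_x0, i0_x0, fr01_x01]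
    · change fr01 p D κ (map01 D k κ (y01 D k)) = (map01 D k κ (y01 D k)) ^ p
      rw [← i0_y0, map01_i0, map0_y0, i0_y0, fr01_y01]
  exact congr($this z)

end base

section scheme

variable (p : ℕ) [hp : Fact p.Prime] (D : Dat) (K : Type) [Field K] [CharP K p]

/-- The relative Frobenius, as a morphism of schemes. -/
noncomputable def frS : CS D K ⟶ CS D K :=
  pushout.desc (Spec.map (CommRingCat.ofHom (fr0 p D K).toRingHom) ≫ j0 D K)
    (Spec.map (CommRingCat.ofHom (fr1 p D K).toRingHom) ≫ j1 D K) (by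
      have h0 : s0 D K ≫ Spec.map (CommRingCat.ofHom (fr0 p D K).toRingHom) =
          Spec.map (CommRingCat.ofHom (fr01 p D K).toRingHom) ≫ s0 D K := by
        unfold s0
        rw [← Spec.map_comp, ← Spec.map_comp]
        congr 1
        apply CommRingCat.hom_ext
        apply RingHom.ext
        intro z
        exact (fr01_i0 p D K z).symm
      have h1 : s1 D K ≫ Spec.map (CommRingCat.ofHom (fr1 p D K).toRingHom) =
          Spec.map (CommRingCat.ofHom (fr01 p D K).toRingHom) ≫ s1 D K := by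
        unfold s1
        rw [← Spec.map_comp, ← Spec.map_comp]
        congr 1
        apply CommRingCat.hom_ext
        apply RingHom.ext
        intro z
        exact (fr01_i1 p D K z).symm
      rw [← Category.assoc, ← Category.assoc, h0, h1, Category.assoc, Category.assoc, s0_j0])

@[reassoc]
theorem j0_frS : j0 D K ≫ frS p D K =
    Spec.map (CommRingCat.ofHom (fr0 p D K).toRingHom) ≫ j0 D K := pushout.inl_desc _ _ _

@[reassoc]
theorem j1_frS : j1 D K ≫ frS p D K =
    Spec.map (CommRingCat.ofHom (fr1 p D K).toRingHom) ≫ j1 D K := pushout.inr_desc _ _ _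

@[reassoc]
theorem j01_frS : j01 D K ≫ frS p D K =
    Spec.map (CommRingCat.ofHom (fr01 p D K).toRingHom) ≫ j01 D K := by
  have h0 : s0 D K ≫ Spec.map (CommRingCat.ofHom (fr0 p D K).toRingHom) =
      Spec.map (CommRingCat.ofHom (fr01 p D K).toRingHom) ≫ s0 D K := by
    unfold s0
    rw [← Spec.map_comp, ← Spec.map_comp]
    congr 1
    apply CommRingCat.hom_ext
    apply RingHom.ext
    intro z
    exact (fr01_i0 p D K z).symm
  unfold j01
  rw [Category.assoc, j0_frS, ← Category.assoc, h0, Category.assoc]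

theorem frS_str : frS p D K ≫ str D K = str D K := by
  apply hom_ext_CS
  · rw [j0_frS_assoc, j0_str, ← Spec.map_comp, ← CommRingCat.ofHom_comp]
    congr 2
    exact (fr0 p D K).comp_algebraMap
  · rw [j1_frS_assoc, j1_str, ← Spec.map_comp, ← CommRingCat.ofHom_comp]
    congr 2
    exact (fr1 p D K).comp_algebraMap

/-- The relative Frobenius endomorphism of the curve. -/
noncomputable def frC : C D K ⟶ C D K := Over.homMk (frS p D K) (frS_str p D K)

/-- The relative Frobenius on the coordinate rings of the charts. -/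
noncomputable def frR : ∀ t, (RR D K).obj t ⟶ (RR D K).obj t
  | .left => CommAlgCat.ofHom (fr0 p D K)
  | .right => CommAlgCat.ofHom (fr1 p D K)
  | .one => CommAlgCat.ofHom (fr01 p D K)

theorem ρ_frC (t : WalkingCospan) : ρ D K t ≫ frC p D K = specOverMap (frR p D K t) ≫ ρ D K t := by
  rcases t with _ | _ | _
  · ext : 1
    exact j01_frS p D K
  · ext : 1
    exact j0_frS p D K
  · ext : 1
    exact j1_frS p D K

end scheme

section virtual

variable {D : Dat} {p : ℕ} [hp : Fact p.Prime] {k K W : Type} [Field k] [Field K] [Field W]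
  [Algebra K W] (S : FrobFrame p k K W)
  (i : R01 D K →ₐ[K] W) (hx : i (x01 D K) = S.x) [Algebra k K] [CharP K p]
  (hF : ∀ z, S.F (i z) = i (R01map D (frobenius K p) z)) [Algebra k W] [IsScalarTower k K W]
  (κ : Type) [Field κ] [Algebra k κ] [CharP κ p]

omit [Field K] in
lemma charP_W (p : ℕ) (K W : Type) [Field K] [Field W] [Algebra K W] [CharP K p] : CharP W p :=
  charP_of_injective_algebraMap (algebraMap K W).injective p

/-- The Frobenius of the virtual point over the prime field. -/
noncomputable def frA (t : WalkingCospan) : S.A t →ₐ[k] S.A t :=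
  have : CharP W p := charP_W p K W
  have : CharP (S.A t) p := (S.A t).val.toRingHom.charP Subtype.val_injective p
  frobAlg S.hk (S.A t)

lemma frA_apply (t : WalkingCospan) (a : S.A t) : frA S t a = a ^ p := rfl

lemma frY_aux {t t' : WalkingCospan} (τ : t ⟶ t') :
    (Algebra.TensorProduct.map (AlgHom.id κ κ) (frA S t')).comp
      (Algebra.TensorProduct.map (AlgHom.id κ κ) (Subalgebra.inclusion (S.A_mono τ))) =
    (Algebra.TensorProduct.map (AlgHom.id κ κ) (Subalgebra.inclusion (S.A_mono τ))).comp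
      (Algebra.TensorProduct.map (AlgHom.id κ κ) (frA S t)) := by
  apply Algebra.TensorProduct.ext'
  intro a b
  rw [AlgHom.comp_apply, AlgHom.comp_apply, Algebra.TensorProduct.map_tmul,
    Algebra.TensorProduct.map_tmul, Algebra.TensorProduct.map_tmul,
    Algebra.TensorProduct.map_tmul, frA_apply, frA_apply, map_pow]

/-- The relative Frobenius of the virtual point. -/
noncomputable def frY : S.Yext κ ⟶ S.Yext κ where
  app t := CommAlgCat.ofHom (Algebra.TensorProduct.map (AlgHom.id κ κ) (frA S t))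
  naturality := fun t t' τ ↦ CommAlgCat.hom_ext (frY_aux S κ τ)

theorem frR_vpt (t : WalkingCospan) : frR p D κ t ≫ (vpt S i hx hF κ).app t =
    (vpt S i hx hF κ).app t ≫ (frY S κ).app t := by
  rcases t with _ | _ | _
  · apply CommAlgCat.hom_ext
    apply baseHom_ext (map01 D k κ) (isBaseChange_map01 D k κ)
    intro z
    change baseHom (map01 D k κ) (isBaseChange_map01 D k κ) (β₂ S i hx hF)
        (fr01 p D κ (map01 D k κ z)) =
      Algebra.TensorProduct.map (AlgHom.id κ κ) (frA S .one)
        (baseHom (map01 D k κ) (isBaseChange_map01 D k κ) (β₂ S i hx hF) (map01 D k κ z))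
    rw [fr01_map01 S.hk, map_pow, baseHom_apply, Algebra.TensorProduct.map_tmul,
      Algebra.TensorProduct.tmul_pow, one_pow, map_one, frA_apply]
  · apply CommAlgCat.hom_ext
    apply baseHom_ext (map0 D k κ) (isBaseChange_map0 D k κ)
    intro z
    change baseHom (map0 D k κ) (isBaseChange_map0 D k κ) (β₀ S i hx hF)
        (fr0 p D κ (map0 D k κ z)) =
      Algebra.TensorProduct.map (AlgHom.id κ κ) (frA S .left)
        (baseHom (map0 D k κ) (isBaseChange_map0 D k κ) (β₀ S i hx hF) (map0 D k κ z))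
    rw [fr0_map0 S.hk, map_pow, baseHom_apply, Algebra.TensorProduct.map_tmul,
      Algebra.TensorProduct.tmul_pow, one_pow, map_one, frA_apply]
  · apply CommAlgCat.hom_ext
    apply baseHom_ext (map1 D k κ) (isBaseChange_map1 D k κ)
    intro z
    change baseHom (map1 D k κ) (isBaseChange_map1 D k κ) (β₁ S i hx hF)
        (fr1 p D κ (map1 D k κ z)) =
      Algebra.TensorProduct.map (AlgHom.id κ κ) (frA S .right)
        (baseHom (map1 D k κ) (isBaseChange_map1 D k κ) (β₁ S i hx hF) (map1 D k κ z))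
    rw [fr1_map1 S.hk, map_pow, baseHom_apply, Algebra.TensorProduct.map_tmul,
      Algebra.TensorProduct.tmul_pow, one_pow, map_one, frA_apply]

end virtual

end Pool.Agent.H27.HC
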