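import Pool.Agent.H27.SchemeCharts
import Pool.Agent.H27.NoriPts
import Pool.Agent.H27.Rational

/-!
# Rational points of profinite gerbes from virtual points
-/

open CategoryTheory Limits AlgebraicGeometry
open scoped TensorProduct

namespace Pool.Agent.H27.HC

variable {κ : Type} [Field κ] {T : Type} [Category.{0} T]

/-- A profinite gerbe with a morphism from `X` has a rational point if `X` has a virtual point. -/
theorem nonempty_of_virtual {X : Over (Spec (CommRingCat.of κ))}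
    {G : BasedCategory.{0, 1} (Alg κ)} (p : schemeStack X ⟶ G) (hG : IsProfiniteGerbe G)
    (R Y : T ⥤ Alg κ) (a : R ⟶ Y) (ρ : ∀ t, specOver (R.obj t) ⟶ X)
    (hρ : ∀ (t t' : T) (τ : t ⟶ t'), specOverMap (R.map τ) ≫ ρ t = ρ t')
    (hY : IsConnectedDiagram Y)
    (hfc : ∀ Γ : BasedCategory.{0, 1} (Alg κ), IsFiniteStack Γ → HasFiniteCoprods Γ)
    (hY' : ∀ Γ : BasedCategory.{0, 1} (Alg κ), IsFiniteGerbe Γ → IsConstOn Y Γ) :
    Nonempty (IsoClasses G) := by
  let e := pointFunctorIso Y (fun t ↦ specOverMap (a.app t) ≫ ρ t) (push_compat R Y a ρ hρ)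
  let v := pointFunctor Y (fun t ↦ specOverMap (a.app t) ≫ ρ t) (push_compat R Y a ρ hρ)
  have hvp : (v ⋙ p.toFunctor) ⋙ G.p = v ⋙ (schemeStack X).p := by
    rw [Functor.assoc, p.w]
  obtain ⟨o, ho⟩ := hG.exists_obj (v ⋙ p.toFunctor) (by rw [hvp]; exact hY.of_iso e.symm) hfc
    (fun Γ hΓ ↦ by rw [hvp]; exact (hY' Γ hΓ).of_iso e.symm)
  exact nonempty_isoClasses ho

end Pool.Agent.H27.HC
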