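import Pool.Agent.H27.HC.CPt
import Pool.Agent.H27.HC.GenV
import Pool.Agent.H27.ExistsNori

/-!
# Existence of the Nori fundamental gerbe of the curve, and of a rational point of it
-/

open CategoryTheory Limits AlgebraicGeometry
open scoped TensorProduct

namespace Pool.Agent.H27.HC

variable {D : Dat} {p : ℕ} [hp : Fact p.Prime] (hD : Good D p) (κ : Type) [Field κ] [CharP κ p]

include hD

theorem exists_gerbe :
    ∃ (G : BasedCategory.{0, 1} (Alg κ)) (q : schemeStack (C D κ) ⟶ G),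
      IsNoriFundamentalGerbe (C D κ) G q := by
  let k := ZMod p
  let _ : Algebra k κ := ZMod.algebra κ p
  have hk : ∀ r : k, r ^ p = r := ZMod.pow_card
  let K := AlgebraicClosure k
  have : CharP K p := charP_of_injective_algebraMap (algebraMap k K).injective p
  obtain ⟨W, _, _, _, S, i, hi, hF, hx⟩ := exists_curveFrame K hD k hk
  let _ : Algebra k W := ((algebraMap K W).comp (algebraMap k K)).toAlgebra
  have : IsScalarTower k K W := IsScalarTower.of_algebraMap_eq fun _ ↦ rfl
  obtain ⟨Ch⟩ := exists_charts (RR D κ) (S.Yext κ) (vpt S i hx hF κ) (ρ D κ) (ρ_compat D κ)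
    (ρ_open D κ) (ρ_affine D κ) (ρ_cover D κ) (ρ_isPullback D κ) (isDomain_RR κ hD)
    (vpt_injective S i hx hF κ hi)
  let e := pointFunctorIso (S.Yext κ) (fun t ↦ specOverMap ((vpt S i hx hF κ).app t) ≫ ρ D κ t)
    (push_compat (RR D κ) (S.Yext κ) (vpt S i hx hF κ) (ρ D κ) (ρ_compat D κ))
  obtain ⟨P, q, hP, hq, -⟩ := exists_nori (schemeStack_isCofibered (C D κ)) Ch
    ((S.isConnectedDiagram_Yext κ).of_iso e.symm)
    (fun Γ hΓ ↦ (isConstOn_Yext S κ hΓ).of_iso e.symm)
  exact ⟨P, q, hP, hq⟩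

theorem nonempty_isoClasses (G : BasedCategory.{0, 1} (Alg κ)) (q : schemeStack (C D κ) ⟶ G)
    (hG : IsProfiniteGerbe G) : Nonempty (IsoClasses G) := by
  let k := ZMod p
  let _ : Algebra k κ := ZMod.algebra κ p
  have hk : ∀ r : k, r ^ p = r := ZMod.pow_card
  let K := AlgebraicClosure k
  have : CharP K p := charP_of_injective_algebraMap (algebraMap k K).injective p
  obtain ⟨W, _, _, _, S, i, hi, hF, hx⟩ := exists_curveFrame K hD k hk
  let _ : Algebra k W := ((algebraMap K W).comp (algebraMap k K)).toAlgebra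
  have : IsScalarTower k K W := IsScalarTower.of_algebraMap_eq fun _ ↦ rfl
  exact nonempty_of_virtual q hG (RR D κ) (S.Yext κ) (vpt S i hx hF κ) (ρ D κ) (ρ_compat D κ)
    (S.isConnectedDiagram_Yext κ) (fun Γ hΓ ↦ hΓ.hasFiniteCoprods)
    (fun Γ hΓ ↦ isConstOn_Yext S κ hΓ.isFiniteStack)

end Pool.Agent.H27.HC
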