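import Pool.Agent.H27.HC.Fix
import Pool.Agent.H27.VPoint

/-!
# Endomorphisms which fix a virtual point, and the section map
-/

open CategoryTheory Limits Bicategory AlgebraicGeometry

namespace Pool.Agent.H27.HC

variable {κ : Type} [Field κ] {T : Type} [Category.{0} T]

/-- The morphism of stacks attached to an endomorphism of a scheme. -/
noncomputable def endo {X : Over (Spec (CommRingCat.of κ))} (Φ : X ⟶ X) :
    BasedFunctor (schemeStack X) (schemeStack X) where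
  obj := fun (a : Pt X) ↦ (⟨a.alg, a.pt ≫ Φ⟩ : Pt X)
  map := fun {a b : Pt X} (f : PtHom a b) ↦ (⟨f.1, by
    change specOverMap f.1 ≫ a.pt ≫ Φ = b.pt ≫ Φ
    rw [← Category.assoc, f.2]⟩ :
    PtHom (⟨a.alg, a.pt ≫ Φ⟩ : Pt X) (⟨b.alg, b.pt ≫ Φ⟩ : Pt X))
  map_id _ := rfl
  map_comp _ _ := rfl
  w := rfl

lemma const_transport {𝒞 𝒟 ℰ : Type*} [Category 𝒞] [Category 𝒟] [Category ℰ] (H : 𝒟 ⥤ 𝒞)
    (E : 𝒞 ⥤ ℰ) (R : 𝒟 ⥤ ℰ) (u : ∀ x : 𝒟, E.obj (H.obj x) ⟶ R.obj x)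
    (hu : ∀ {x y : 𝒟} (f : x ⟶ y), E.map (H.map f) ≫ u y = u x ≫ R.map f) (x : T ⥤ 𝒟) (x₀ : 𝒞)
    (Θ : ∀ t, x₀ ⟶ H.obj (x.obj t))
    (hΘ : ∀ (t t' : T) (τ : t ⟶ t'), Θ t ≫ H.map (x.map τ) = Θ t') (t t' : T) (τ : t ⟶ t') :
    (E.map (Θ t) ≫ u (x.obj t)) ≫ R.map (x.map τ) = E.map (Θ t') ≫ u (x.obj t') := by
  rw [Category.assoc, ← hu, ← Category.assoc, ← Functor.map_comp, hΘ]

/-- Families of objects of a profinite gerbe over a virtual point are constant. -/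
theorem isConstOn_profinite {G : BasedCategory.{0, 1} (Alg κ)} (hG : IsProfiniteGerbe G)
    (x : T ⥤ G.obj) (hx : IsConnectedDiagram (x ⋙ G.p))
    (hx' : ∀ Γ : BasedCategory.{0, 1} (Alg κ), IsFiniteGerbe Γ → IsConstOn (x ⋙ G.p) Γ) :
    ∃ (o : G.obj) (_ : G.p.obj o = CommAlgCat.of κ κ) (Θ : ∀ t, o ⟶ x.obj t),
      ∀ (t t' : T) (τ : t ⟶ t'), Θ t ≫ x.map τ = Θ t' := by
  obtain ⟨J, _, _, F, hF, ⟨e⟩⟩ := hG
  let x' : T ⥤ LimObj F := x ⋙ e.hom.toFunctor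
  have hx'' : x' ⋙ (PLim F).p = x ⋙ G.p := by
    change (x ⋙ e.hom.toFunctor) ⋙ (PLim F).p = x ⋙ G.p
    rw [Functor.assoc, e.hom.w]
  obtain ⟨x₀, hx₀, Θ, hΘ⟩ := exists_limObj_arrow F hx (fun j ↦ (hF j).isFiniteStack.isStack)
    (fun j ↦ (hF j).isFiniteStack.hasFiniteCoprods.hasCoprods) (fun j ↦ hx' _ (hF j)) x'
    (eqToIso hx'')
  let u := BasedNatTrans.toNatTrans e.unit.inv
  refine ⟨e.inv.toFunctor.obj x₀, (BasedFunctor.w_obj e.inv x₀).trans hx₀,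
    fun t ↦ e.inv.toFunctor.map (Θ t) ≫ u.app (x.obj t), ?_⟩
  exact const_transport e.hom.toFunctor e.inv.toFunctor (𝟭 G.obj) (fun z ↦ u.app z)
    (fun f ↦ u.naturality f) x x₀ Θ hΘ

/-- Two rational objects of a profinite gerbe are isomorphic if their images in all finite gerbes
are. -/
theorem nonempty_iso_profinite {G : BasedCategory.{0, 1} (Alg κ)} (hG : IsProfiniteGerbe G)
    {x y : G.obj} (hx : G.p.obj x = CommAlgCat.of κ κ) (hy : G.p.obj y = CommAlgCat.of κ κ)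
    (h : ∀ (Γ : BasedCategory.{0, 1} (Alg κ)) (_ : IsFiniteGerbe Γ) (π : BasedFunctor G Γ),
      Nonempty (π.toFunctor.obj x ⟶ π.toFunctor.obj y)) : Nonempty (x ≅ y) := by
  obtain ⟨J, _, _, F, hF, ⟨e⟩⟩ := hG
  obtain ⟨f⟩ := nonempty_hom_of_stages F hF (x := e.hom.toFunctor.obj x)
    (y := e.hom.toFunctor.obj y) ((BasedFunctor.w_obj e.hom x).trans hx)
    ((BasedFunctor.w_obj e.hom y).trans hy)
    (fun j ↦ h _ (hF j) (BasedFunctor.comp e.hom (proj F j)))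
  let f' : e.inv.toFunctor.obj (e.hom.toFunctor.obj x) ≅
      e.inv.toFunctor.obj (e.hom.toFunctor.obj y) := e.inv.toFunctor.mapIso f
  let U : (𝟙 G : G ⟶ G) ≅ e.hom ≫ e.inv := e.unit
  let u : ∀ z : G.obj, z ≅ e.inv.toFunctor.obj (e.hom.toFunctor.obj z) := fun z ↦
    { hom := (BasedNatTrans.toNatTrans U.hom).app z
      inv := (BasedNatTrans.toNatTrans U.inv).app z
      hom_inv_id := congrArg (fun g : BasedNatTrans _ _ ↦ g.toNatTrans.app z) U.hom_inv_id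
      inv_hom_id := congrArg (fun g : BasedNatTrans _ _ ↦ g.toNatTrans.app z) U.inv_hom_id }
  exact ⟨u x ≪≫ f' ≪≫ (u y).symm⟩

/-- If an endomorphism `Φ` of `X` fixes a virtual point and the section map of `X` is bijective,
then `Φ` fixes a rational point. -/
theorem exists_fixed_point {X : Over (Spec (CommRingCat.of κ))} {G : BasedCategory.{0, 1} (Alg κ)}
    {q : schemeStack X ⟶ G} (hN : IsNoriFundamentalGerbe X G q) (Φ : X ⟶ X)
    (v : T ⥤ (schemeStack X).obj) (hv : IsConnectedDiagram (v ⋙ (schemeStack X).p))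
    (hv' : ∀ Γ : BasedCategory.{0, 1} (Alg κ), IsFiniteGerbe Γ →
      IsConstOn (v ⋙ (schemeStack X).p) Γ)
    (w : v ⟶ v ⋙ (endo Φ).toFunctor) (hb : Function.Bijective (sigma X G q)) :
    ∃ a : specOver (CommAlgCat.of κ κ) ⟶ X, a ≫ Φ = a := by
  have hG := hN.isProfiniteGerbe
  have hvp : (v ⋙ q.toFunctor) ⋙ G.p = v ⋙ (schemeStack X).p := by
    rw [Functor.assoc, q.w]
  obtain ⟨o, ho, Θ, hΘ⟩ := isConstOn_profinite hG (v ⋙ q.toFunctor) (by rwa [hvp])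
    (fun Γ hΓ ↦ by rw [hvp]; exact hv' Γ hΓ)
  obtain ⟨a, ha⟩ := hb.2 (Quotient.mk _ ⟨o, ho⟩)
  obtain ⟨g⟩ := Quotient.exact ha
  let qa : G.obj := q.toFunctor.obj (⟨_, a⟩ : Pt X)
  let qb : G.obj := q.toFunctor.obj (⟨_, a ≫ Φ⟩ : Pt X)
  have hqa : G.p.obj qa = CommAlgCat.of κ κ := BasedFunctor.w_obj q _
  have hqb : G.p.obj qb = CommAlgCat.of κ κ := BasedFunctor.w_obj q _
  let g₁ : qa ⟶ o := g.hom.1
  let g₂ : o ⟶ qa := g.inv.1
  have key : ∀ (Γ : BasedCategory.{0, 1} (Alg κ)) (_ : IsFiniteGerbe Γ) (π : BasedFunctor G Γ),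
      Nonempty (π.toFunctor.obj qb ⟶ π.toFunctor.obj qa) := by
    intro Γ hΓ π
    have heq := hN.universal Γ hΓ.isFiniteStack
    let s : schemeStack X ⟶ Γ := BasedFunctor.comp (endo Φ) (BasedFunctor.comp q π)
    let ψ : G ⟶ Γ := (precomp Γ q).objPreimage s
    let β : q ≫ ψ ≅ s := (precomp Γ q).objObjPreimageIso s
    let b := BasedNatTrans.toNatTrans β.hom
    let b' := BasedNatTrans.toNatTrans β.inv
    let ψ' : G.obj ⥤ Γ.obj := BasedFunctor.toFunctor ψ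
    let s' : (schemeStack X).obj ⥤ Γ.obj := BasedFunctor.toFunctor s
    have hy : IsConnectedDiagram ((v ⋙ s') ⋙ Γ.p) := by
      have : (v ⋙ s') ⋙ Γ.p = v ⋙ (schemeStack X).p := by
        rw [Functor.assoc]
        exact congrArg (fun z ↦ v ⋙ z) s.w
      rwa [this]
    obtain ⟨χ, -, -⟩ := hy.hom_descent (y := v ⋙ s') hΓ.isFiniteStack.isStack
      hΓ.isFiniteStack.hasFiniteCoprods.hasCoprods (ξ := ψ'.obj o) (ξ' := π.toFunctor.obj o)
      ((BasedFunctor.w_obj ψ o).trans ho) ((BasedFunctor.w_obj π o).trans ho)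
      (fun t ↦ ψ'.map (Θ t) ≫ b.app (v.obj t))
      (fun t ↦ π.toFunctor.map (Θ t ≫ q.toFunctor.map (w.app t)))
      (const_transport q.toFunctor ψ' s' (fun z ↦ b.app z) (fun f ↦ b.naturality f) v o Θ hΘ)
      (by
        intro t t' τ
        have h₁ : w.app t ≫ (endo Φ).toFunctor.map (v.map τ) = v.map τ ≫ w.app t' :=
          (w.naturality τ).symm
        have h₂ : (Θ t ≫ q.toFunctor.map (w.app t)) ≫
            q.toFunctor.map ((endo Φ).toFunctor.map (v.map τ)) =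
            Θ t' ≫ q.toFunctor.map (w.app t') := by
          rw [Category.assoc, ← Functor.map_comp, h₁, Functor.map_comp, ← Category.assoc]
          congr 1
          exact hΘ t t' τ
        exact (π.toFunctor.map_comp _ _).symm.trans (congrArg π.toFunctor.map h₂))
    exact ⟨b'.app (⟨_, a⟩ : Pt X) ≫ ψ'.map g₁ ≫ χ ≫ π.toFunctor.map g₂⟩
  obtain ⟨h⟩ := nonempty_iso_profinite hG hqb hqa key
  refine ⟨a, hb.1 (Quotient.sound ?_)⟩
  refine ⟨{ hom := ⟨h.hom, ?_⟩, inv := ⟨h.inv, ?_⟩, hom_inv_id := ?_, inv_hom_id := ?_ }⟩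
  · exact IsHomLift.of_commsq _ _ _ hqb hqa (map_unique_of_eq hqb _ _)
  · exact IsHomLift.of_commsq _ _ _ hqa hqb (map_unique_of_eq hqa _ _)
  · exact Subtype.ext h.hom_inv_id
  · exact Subtype.ext h.inv_hom_id

end Pool.Agent.H27.HC
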