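import Pool.Agent.H27.HC.NoPoint
import Pool.Agent.H27.HC.Exist
import Pool.Agent.H27.HC.FixPt

/-!
# The section map of the curve is not bijective
-/

open CategoryTheory Limits AlgebraicGeometry
open scoped TensorProduct

namespace Pool.Agent.H27.HC

section

variable {D : Dat} {p : ℕ} [hp : Fact p.Prime] {k K W : Type} [Field k] [Field K] [Field W]
  [Algebra K W] (S : FrobFrame p k K W)
  (i : R01 D K →ₐ[K] W) (hx : i (x01 D K) = S.x) [Algebra k K] [CharP K p]
  (hF : ∀ z, S.F (i z) = i (R01map D (frobenius K p) z)) [Algebra k W] [IsScalarTower k K W]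
  (κ : Type) [Field κ] [Algebra k κ] [CharP κ p]

/-- The points of the curve with values in the rings of the virtual point. -/
noncomputable def pts (t : WalkingCospan) : specOver ((S.Yext κ).obj t) ⟶ C D κ :=
  specOverMap ((vpt S i hx hF κ).app t) ≫ ρ D κ t

theorem pts_compat (t t' : WalkingCospan) (τ : t ⟶ t') :
    specOverMap ((S.Yext κ).map τ) ≫ pts S i hx hF κ t = pts S i hx hF κ t' :=
  push_compat (RR D κ) (S.Yext κ) (vpt S i hx hF κ) (ρ D κ) (ρ_compat D κ) t t' τ

theorem frY_pts (t : WalkingCospan) :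
    specOverMap ((frY S κ).app t) ≫ pts S i hx hF κ t = pts S i hx hF κ t ≫ frC p D κ := by
  unfold pts
  rw [Category.assoc, ρ_frC, ← Category.assoc, ← specOverMap_comp, ← Category.assoc,
    ← specOverMap_comp, frR_vpt]

/-- The virtual point, as a family of objects of the stack of the curve. -/
noncomputable def vfun : WalkingCospan ⥤ (schemeStack (C D κ)).obj :=
  pointFunctor (S.Yext κ) (pts S i hx hF κ) (pts_compat S i hx hF κ)

/-- The relative Frobenius fixes the virtual point. -/
noncomputable def wfr : vfun S i hx hF κ ⟶ vfun S i hx hF κ ⋙ (endo (frC p D κ)).toFunctor where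
  app t := (⟨(frY S κ).app t, frY_pts S i hx hF κ t⟩ :
    PtHom (⟨_, pts S i hx hF κ t⟩ : Pt (C D κ)) (⟨_, pts S i hx hF κ t ≫ frC p D κ⟩ : Pt (C D κ)))
  naturality := fun _ _ τ ↦ Subtype.ext ((frY S κ).naturality τ)

end

/-- The section map is not bijective. -/
theorem not_bijective {D : Dat} {p : ℕ} [hp : Fact p.Prime] (hD : Good D p) (κ : Type) [Field κ]
    [CharP κ p] (G : BasedCategory.{0, 1} (Alg κ)) (q : schemeStack (C D κ) ⟶ G)
    (hN : IsNoriFundamentalGerbe (C D κ) G q) : ¬ Function.Bijective (sigma (C D κ) G q) := by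
  intro hb
  let k := ZMod p
  let _ : Algebra k κ := ZMod.algebra κ p
  have hk : ∀ r : k, r ^ p = r := ZMod.pow_card
  let K := AlgebraicClosure k
  have : CharP K p := charP_of_injective_algebraMap (algebraMap k K).injective p
  obtain ⟨W, _, _, _, S, i, hi, hF, hx⟩ := exists_curveFrame K hD k hk
  let _ : Algebra k W := ((algebraMap K W).comp (algebraMap k K)).toAlgebra
  have : IsScalarTower k K W := IsScalarTower.of_algebraMap_eq fun _ ↦ rfl
  let e := pointFunctorIso (S.Yext κ) (pts S i hx hF κ) (pts_compat S i hx hF κ)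
  obtain ⟨a, ha⟩ := exists_fixed_point hN (frC p D κ) (vfun S i hx hF κ)
    ((S.isConnectedDiagram_Yext κ).of_iso e.symm)
    (fun Γ hΓ ↦ (isConstOn_Yext S κ hΓ.isFiniteStack).of_iso e.symm) (wfr S i hx hF κ) hb
  exact no_fixed_point hD κ a ha

end Pool.Agent.H27.HC
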