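import Pool.Agent.H27.Rational
import Pool.Agent.H27.NoriPts

/-!
# Endomorphisms which fix a virtual point

Let `X` be a scheme over `κ` with a virtual point and let `Φ` be an endomorphism of `X` which fixes
the virtual point.  If the section map of `X` is bijective, then `Φ` fixes a rational point of `X`.
-/

open CategoryTheory Limits Bicategory AlgebraicGeometry

namespace Pool.Agent.H27.HC

variable {κ : Type} [Field κ] {T : Type} [Category.{0} T]

section PLim

variable {J : Type} [SmallCategory J]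
  (F : LocallyDiscrete J ⥤ᵖ BasedCategory.{0, 1} (Alg κ))

/-- A family of objects of `PLim F` over a virtual point is constant. -/
theorem exists_limObj_arrow {Y : T ⥤ Alg κ} (hY : IsConnectedDiagram Y)
    (hF : ∀ j, IsStack (F.obj ⟨j⟩)) (hFc : ∀ j, HasCoprods (F.obj ⟨j⟩))
    (hFY : ∀ j, IsConstOn Y (F.obj ⟨j⟩))
    (x : T ⥤ LimObj F) (e : x ⋙ (PLim F).p ≅ Y) :
    ∃ (x₀ : LimObj F) (_ : x₀.base = CommAlgCat.of κ κ) (Θ : ∀ t, x₀ ⟶ x.obj t),
      ∀ (t t' : T) (τ : t ⟶ t'), Θ t ≫ x.map τ = Θ t' := by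
  have hY' : ∀ j, IsConnectedDiagram (compAt F x j ⋙ (F.obj ⟨j⟩).p) := fun j ↦
    hY.of_iso ((compAtIso F x j) ≪≫ e).symm
  choose ξ hξ θ hθ using fun j ↦ hFY j (compAt F x j) ((compAtIso F x j) ≪≫ e)
  -- the transition maps
  have key : ∀ (i j : J) (f : i ⟶ j), ∃! χ : (trans F f).obj (ξ i) ⟶ ξ j,
      ∀ t, χ ≫ θ j t = (trans F f).map (θ i t) ≫ (x.obj t).tr f := by
    intro i j f
    refine (hY' j).hom_descent (hF j) (hFc j) ?_ (hξ j) _ (θ j) ?_ (hθ j)
    · rw [BasedFunctor.w_obj, hξ]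
    · intro t t' τ
      have h₁ := (x.map τ).comm f
      have h₂ : θ i t ≫ (x.map τ).hom i = θ i t' := hθ i t t' τ
      change (_ ≫ _) ≫ (x.map τ).hom j = _
      rw [Category.assoc, h₁, ← Category.assoc, ← Functor.map_comp, h₂]
  choose tr htr htr' using key
  have tr_lift : ∀ {i j : J} (f : i ⟶ j),
      (stage F j).p.IsHomLift (𝟙 (CommAlgCat.of κ κ)) (tr i j f) := by
    intro i j f
    have h₁ : (F.obj ⟨j⟩).p.obj ((trans F f).obj (ξ i)) = CommAlgCat.of κ κ := by
      rw [BasedFunctor.w_obj, hξ]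
    exact IsHomLift.of_commsq _ _ _ h₁ (hξ j) (map_unique_of_eq h₁ _ _)
  have tr_id : ∀ i : J, tr i i (𝟙 i) = transId F i (ξ i) := by
    intro i
    symm
    apply htr'
    intro t
    dsimp only
    rw [(x.obj t).tr_id i]
    exact ((F.mapId ⟨i⟩).hom.toNatTrans.naturality (θ i t)).symm
  have tr_comp : ∀ {i j k : J} (f : i ⟶ j) (g : j ⟶ k),
      tr i k (f ≫ g) = transComp F f g (ξ i) ≫ (trans F g).map (tr i j f) ≫ tr j k g := by
    intro i j k f g
    symm
    apply htr'
    intro t
    have h₁ := (x.obj t).tr_comp f g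
    have h₂ := (F.mapComp f.toLoc g.toLoc).hom.toNatTrans.naturality (θ i t)
    have h₃ := htr i j f t
    have h₄ := htr j k g t
    have h₅ : (trans F g).map (tr i j f) ≫ (trans F g).map (θ j t) =
        (trans F g).map ((trans F f).map (θ i t)) ≫ (trans F g).map ((x.obj t).tr f) := by
      rw [← Functor.map_comp, ← Functor.map_comp]
      exact congrArg _ h₃
    exact tr_comp_aux h₁ h₂ h₄ h₅
  let x₀ : LimObj F := { base := CommAlgCat.of κ κ, obj := ξ, obj_base := hξ,
                         tr := fun {i j} f ↦ tr i j f, tr_lift := tr_lift,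
                         tr_id := tr_id, tr_comp := tr_comp }
  refine ⟨x₀, rfl, fun t ↦
    { base := structMap _
      hom := fun j ↦ θ j t
      lift := fun j ↦ IsHomLift.of_commsq _ _ _ (hξ j) ((x.obj t).obj_base j)
        (map_unique_of_eq (hξ j) _ _)
      comm := fun {i j} f ↦ htr i j f t }, fun t t' τ ↦ ?_⟩
  apply LimHom.ext'
  · exact structMap_unique _ _
  · intro j
    exact hθ j t t' τ

/-- The projection from the limit to a stage. -/
def proj (j : J) : BasedFunctor (PLim F) (F.obj ⟨j⟩) where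
  obj := fun (x : LimObj F) ↦ x.obj j
  map := fun {x y} (a : LimHom F x y) ↦ a.hom j
  map_id _ := rfl
  map_comp _ _ := rfl
  w := by
    refine CategoryTheory.Functor.ext (fun x ↦ LimObj.obj_base x j) ?_
    intro x y a
    have h := LimHom.lift a j
    exact IsHomLift.fac' (F.obj ⟨j⟩).p (LimHom.base a) (LimHom.hom a j)

end PLim

/-- The groupoid of rational objects of a finite stack has finite sets of arrows. -/
theorem finite_hom {Γ : BasedCategory.{0, 1} (Alg κ)} (hΓ : IsFiniteStack Γ) {x y : Γ.obj}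
    (hx : Γ.p.obj x = CommAlgCat.of κ κ) (hy : Γ.p.obj y = CommAlgCat.of κ κ) :
    Finite (x ⟶ y) := by
  have hc := hΓ.isStack.toIsCofiberedInGroupoids
  obtain ⟨z, i, j, hz, hfin⟩ := hΓ.hasFiniteCoprods x y
  have h1 : Module.Finite κ (Γ.p.obj x) := by
    rw [hx]
    exact inferInstanceAs (Module.Finite κ κ)
  have h2 : Module.Finite κ (Γ.p.obj y) := by
    rw [hy]
    exact inferInstanceAs (Module.Finite κ κ)
  have h3 : Module.Finite κ (tens (Γ.p.obj x) (Γ.p.obj y)) :=
    inferInstanceAs (Module.Finite κ (TensorProduct κ (Γ.p.obj x) (Γ.p.obj y)))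
  have h4 : Module.Finite κ (Γ.p.obj z) := by
    have h5 : (algebraMap κ (tens (Γ.p.obj x) (Γ.p.obj y))).Finite :=
      RingHom.finite_algebraMap.2 h3
    have h6 := hfin.comp h5
    have h7 : ((isCoprod_tens _ _).desc (Γ.p.map i) (Γ.p.map j)).hom.toRingHom.comp
        (algebraMap κ (tens (Γ.p.obj x) (Γ.p.obj y))) = algebraMap κ (Γ.p.obj z) :=
      ((isCoprod_tens _ _).desc (Γ.p.map i) (Γ.p.map j)).hom.comp_algebraMap
    rw [h7] at h6
    exact RingHom.finite_algebraMap.1 h6
  let f : (x ⟶ y) → ((Γ.p.obj z) →ₐ[κ] κ) := fun α ↦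
    (Γ.p.map (hz.desc α (𝟙 y)) ≫ eqToHom hy).hom
  have hf : Function.Injective f := by
    intro α β hαβ
    have h5 : Γ.p.map (hz.desc α (𝟙 y)) ≫ eqToHom hy = Γ.p.map (hz.desc β (𝟙 y)) ≫ eqToHom hy :=
      CommAlgCat.hom_ext hαβ
    rw [cancel_mono] at h5
    have h6 : hz.desc α (𝟙 y) = hz.desc β (𝟙 y) := hc.hom_ext j h5 (by
      rw [hz.right_desc, hz.right_desc])
    have h7 := congr(i ≫ $h6)
    rwa [hz.left_desc, hz.left_desc] at h7
  exact Finite.of_injective f hf

section PLim

variable {J : Type} [SmallCategory J] [IsCofiltered J]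
  (F : LocallyDiscrete J ⥤ᵖ BasedCategory.{0, 1} (Alg κ))

lemma isIso_of_rational {Γ : BasedCategory.{0, 1} (Alg κ)} (hc : IsCofiberedInGroupoids Γ)
    {x y : Γ.obj} (hx : Γ.p.obj x = CommAlgCat.of κ κ) (hy : Γ.p.obj y = CommAlgCat.of κ κ)
    (f : x ⟶ y) : IsIso f := by
  have : IsIso (Γ.p.map f) := isIso_of_eq_of_eq hx ⟨eqToIso hy⟩ _
  exact hc.isIso_of_isIso f

/-- Compactness: two rational objects of a limit of finite gerbes are isomorphic if their images in
all the stages are. -/
theorem nonempty_hom_of_stages (hF : ∀ j : J, IsFiniteGerbe (F.obj ⟨j⟩)) {x y : LimObj F}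
    (hx : x.base = CommAlgCat.of κ κ) (hy : y.base = CommAlgCat.of κ κ)
    (h : ∀ j, Nonempty (x.obj j ⟶ y.obj j)) : Nonempty (x ≅ y) := by
  have hxj : ∀ j, (F.obj ⟨j⟩).p.obj (x.obj j) = CommAlgCat.of κ κ := fun j ↦
    (x.obj_base j).trans hx
  have hyj : ∀ j, (F.obj ⟨j⟩).p.obj (y.obj j) = CommAlgCat.of κ κ := fun j ↦
    (y.obj_base j).trans hy
  have hiso : ∀ {i j : J} (f : i ⟶ j), IsIso (x.tr f) := by
    intro i j f
    refine isIso_of_rational (hF j).isFiniteStack.isStack.toIsCofiberedInGroupoids ?_ (hxj j) _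
    rw [BasedFunctor.w_obj, hxj]
  let tm : ∀ {i j : J} (f : i ⟶ j), (x.obj i ⟶ y.obj i) → (x.obj j ⟶ y.obj j) := fun f a ↦
    (asIso (x.tr f)).inv ≫ (trans F f).map a ≫ y.tr f
  have htm : ∀ {i j : J} (f : i ⟶ j) (a : x.obj i ⟶ y.obj i),
      x.tr f ≫ tm f a = (trans F f).map a ≫ y.tr f := by
    intro i j f a
    exact (asIso (x.tr f)).hom_inv_id_assoc _
  let S : J ⥤ Type :=
    { obj := fun j ↦ (x.obj j ⟶ y.obj j)
      map := fun f ↦ TypeCat.ofHom (tm f)
      map_id := by
        intro i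
        ext a
        change tm (𝟙 i) a = a
        have h₀ := htm (𝟙 i) a
        have : IsIso (x.tr (𝟙 i)) := hiso _
        rw [← cancel_epi (x.tr (𝟙 i))]
        refine h₀.trans ?_
        rw [x.tr_id, y.tr_id]
        exact (F.mapId ⟨i⟩).hom.toNatTrans.naturality a
      map_comp := by
        intro i j k f g
        ext a
        change tm (f ≫ g) a = tm g (tm f a)
        have : IsIso (x.tr (f ≫ g)) := hiso _
        rw [← cancel_epi (x.tr (f ≫ g))]
        refine (htm (f ≫ g) a).trans ?_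
        have h₁ := y.tr_comp f g
        have h₂ := (F.mapComp f.toLoc g.toLoc).hom.toNatTrans.naturality a
        have h₃ := htm f a
        have h₄ := htm g (tm f a)
        have h₅ : (trans F g).map (x.tr f) ≫ (trans F g).map (tm f a) =
            (trans F g).map ((trans F f).map a) ≫ (trans F g).map (y.tr f) := by
          rw [← Functor.map_comp, ← Functor.map_comp]
          exact congrArg _ h₃
        have h₆ : x.tr (f ≫ g) ≫ tm g (tm f a) =
            (trans F (f ≫ g)).map a ≫ y.tr (f ≫ g) := by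
          rw [x.tr_comp f g]
          exact tr_comp_aux h₁ h₂ h₄ h₅
        exact h₆.symm }
  have : ∀ j, Finite (S.obj j) := fun j ↦ finite_hom (hF j).isFiniteStack (hxj j) (hyj j)
  have : ∀ j, Nonempty (S.obj j) := h
  obtain ⟨s, hs⟩ := nonempty_sections_of_finite_cofiltered_system S
  have hs' : ∀ {i j : J} (f : i ⟶ j), x.tr f ≫ s j = (trans F f).map (s i) ≫ y.tr f := by
    intro i j f
    have h₁ : tm f (s i) = s j := hs f
    rw [← h₁]
    exact htm f (s i)
  have hsi : ∀ j, IsIso (s j : x.obj j ⟶ y.obj j) := fun j ↦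
    isIso_of_rational (hF j).isFiniteStack.isStack.toIsCofiberedInGroupoids (hxj j) (hyj j) _
  let r : ∀ j, y.obj j ⟶ x.obj j := fun j ↦ (asIso (s j : x.obj j ⟶ y.obj j)).inv
  have hsr : ∀ j, (s j : x.obj j ⟶ y.obj j) ≫ r j = 𝟙 _ := fun j ↦ (asIso (s j)).hom_inv_id
  have hrs : ∀ j, r j ≫ (s j : x.obj j ⟶ y.obj j) = 𝟙 _ := fun j ↦ (asIso (s j)).inv_hom_id
  have hr' : ∀ {i j : J} (f : i ⟶ j), y.tr f ≫ r j = (trans F f).map (r i) ≫ x.tr f := by
    intro i j f
    have h₁ : (trans F f).map (r i) ≫ (trans F f).map (s i) = 𝟙 _ := by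
      rw [← Functor.map_comp, hrs, CategoryTheory.Functor.map_id]
    rw [← cancel_mono (s j : x.obj j ⟶ y.obj j), Category.assoc, hrs, Category.comp_id,
      Category.assoc, hs' f, ← Category.assoc, h₁, Category.id_comp]
  exact ⟨{ hom :=
            { base := eqToHom (hx.trans hy.symm)
              hom := s
              lift := fun j ↦ IsHomLift.of_commsq _ _ _ (x.obj_base j) (y.obj_base j)
                (map_unique_of_eq (hxj j) _ _)
              comm := hs' }
           inv :=
            { base := eqToHom (hy.trans hx.symm)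
              hom := r
              lift := fun j ↦ IsHomLift.of_commsq _ _ _ (y.obj_base j) (x.obj_base j)
                (map_unique_of_eq (hyj j) _ _)
              comm := hr' }
           hom_inv_id := LimHom.ext' (map_unique_of_eq hx _ _) hsr
           inv_hom_id := LimHom.ext' (map_unique_of_eq hy _ _) hrs }⟩

end PLim

end Pool.Agent.H27.HC
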