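import Pool.Agent.H27.HC.Frob
import Pool.Agent.H27.FixedRing
import Pool.Agent.H27.Orbit
import Pool.Agent.H27.Cof
import Pool.Agent.H27.H1I

/-!
# Invariants of Frobenius on rings of integral elements
-/

open CategoryTheory
open scoped TensorProduct

namespace Pool.Agent.H27.HC

open H1 (IC)

section

variable {K W : Type} [Field K] [Field W] [Algebra K W] (F : W →+* W) (p : ℕ)

lemma map_adjoin (hF : ∀ c : K, F (algebraMap K W c) = algebraMap K W (c ^ p)) {S : Set W}
    (hS : ∀ s ∈ S, F s = s) {w : W} (hw : w ∈ Algebra.adjoin K S) : F w ∈ Algebra.adjoin K S := by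
  induction hw using Algebra.adjoin_induction with
  | mem x hx =>
    rw [hS x hx]
    exact Algebra.subset_adjoin hx
  | algebraMap r =>
    rw [hF]
    exact Subalgebra.algebraMap_mem _ _
  | add x y _ _ hx hy =>
    rw [map_add]
    exact add_mem hx hy
  | mul x y _ _ hx hy =>
    rw [map_mul]
    exact mul_mem hx hy

lemma map_IC (hF : ∀ c : K, F (algebraMap K W c) = algebraMap K W (c ^ p)) {S : Set W}
    (hS : ∀ s ∈ S, F s = s) {w : W} (hw : w ∈ IC K S) : F w ∈ IC K S := by
  rw [mem_IC_iff] at hw ⊢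
  obtain ⟨q, hq, hqw⟩ := hw
  let F' : Algebra.adjoin K S →+* Algebra.adjoin K S :=
    (F.comp (Algebra.adjoin K S).val.toRingHom).codRestrict (Algebra.adjoin K S)
      (fun x ↦ map_adjoin F p hF hS x.2)
  refine ⟨q.map F', hq.map _, ?_⟩
  rw [Polynomial.eval₂_map]
  have h₁ : (algebraMap (Algebra.adjoin K S) W).comp F' =
      F.comp (algebraMap (Algebra.adjoin K S) W) := by
    ext x
    rfl
  rw [h₁, ← Polynomial.hom_eval₂, hqw, map_zero]

variable (k : Type) [Field k] [Algebra k K] [Algebra k W] [IsScalarTower k K W]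

/-- The invariants of `F` in the integral closure of `K[S]`. -/
def OF (hk : ∀ r : k, r ^ p = r) (hF : ∀ c : K, F (algebraMap K W c) = algebraMap K W (c ^ p))
    (S : Set W) : Subalgebra k W where
  carrier := {w | w ∈ IC K S ∧ F w = w}
  mul_mem' := by
    rintro a b ⟨ha, ha'⟩ ⟨hb, hb'⟩
    exact ⟨mul_mem ha hb, by rw [map_mul, ha', hb']⟩
  add_mem' := by
    rintro a b ⟨ha, ha'⟩ ⟨hb, hb'⟩
    exact ⟨add_mem ha hb, by rw [map_add, ha', hb']⟩
  algebraMap_mem' := by
    intro r
    rw [IsScalarTower.algebraMap_apply k K W]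
    refine ⟨Subalgebra.algebraMap_mem _ _, ?_⟩
    rw [hF, ← map_pow, hk]

lemma mem_OF_iff {hk : ∀ r : k, r ^ p = r}
    {hF : ∀ c : K, F (algebraMap K W c) = algebraMap K W (c ^ p)} {S : Set W} {w : W} :
    w ∈ OF F p k hk hF S ↔ w ∈ IC K S ∧ F w = w := Iff.rfl

lemma bijective_fixed [hp : Fact p.Prime] [CharP K p] [IsAlgClosed K]
    (hF : ∀ c : K, F (algebraMap K W c) = algebraMap K W (c ^ p)) {S : Set W}
    (hS : ∀ s ∈ S, F s = s) (hfin : ∀ w : W, w ∈ finOrbit F) (A O : Subalgebra k W)
    (hA : ∀ w, w ∈ A ↔ w ∈ IC K S ∧ F w = w) (hO : ∀ w, w ∈ O ↔ w ∈ IC K S)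
    (f : A ⊗[k] K →ₐ[k] O)
    (hf : ∀ a c, (f (a ⊗ₜ c)).1 = a.1 * algebraMap K W c) :
    Function.Bijective f := by
  classical
  have hFsmul : ∀ (c : K) (w : W), F.toAddMonoidHom (c • w) = c ^ p • F.toAddMonoidHom w := by
    intro c w
    change F (c • w) = c ^ p • F w
    rw [Algebra.smul_def, Algebra.smul_def, map_mul, hF]
  constructor
  · rw [injective_iff_map_eq_zero]
    intro z hz
    let b := Module.Basis.ofVectorSpace k A
    have hli : LinearIndependent K (fun i ↦ ((b i : A) : W)) := by
      refine linearIndependent_fixed (k := k) p F.toAddMonoidHom hFsmul _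
        (fun i ↦ ((hA _).1 (b i).2).2) ?_
      exact b.linearIndependent.map' A.val.toLinearMap
        (LinearMap.ker_eq_bot.2 Subtype.val_injective)
    apply (TensorProduct.equivFinsuppOfBasisLeft b).injective
    rw [map_zero]
    have h₁ : ∑ i ∈ (TensorProduct.equivFinsuppOfBasisLeft b z).support,
        (TensorProduct.equivFinsuppOfBasisLeft b z i) • ((b i : A) : W) = 0 := by
      have h₂ := TensorProduct.eq_repr_basis_left b z
      obtain ⟨g, hg⟩ := h₂
      have h₃ : TensorProduct.equivFinsuppOfBasisLeft b z = g := by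
        rw [← hg]
        have := TensorProduct.equivFinsuppOfBasisLeft_symm_apply b g
        rw [← this]
        exact (TensorProduct.equivFinsuppOfBasisLeft b).apply_symm_apply g
      rw [h₃]
      have h₄ := congrArg (fun u : O ↦ (u : W)) hz
      rw [← hg] at h₄
      rw [Finsupp.sum, map_sum] at h₄
      simp only [AddSubmonoidClass.coe_finsetSum, hf] at h₄
      refine Eq.trans ?_ h₄
      apply Finset.sum_congr rfl
      intro i _
      rw [Algebra.smul_def, mul_comm]
    ext i
    by_cases hi : i ∈ (TensorProduct.equivFinsuppOfBasisLeft b z).support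
    · exact linearIndependent_iff'.1 hli _ _ h₁ i hi
    · exact Finsupp.notMem_support_iff.1 hi
  · intro w
    let F' : IC K S →+ IC K S :=
      { toFun := fun u ↦ ⟨F u, map_IC F p hF hS u.2⟩
        map_zero' := by
          apply Subtype.ext
          exact map_zero F
        map_add' := by
          intro a b
          apply Subtype.ext
          exact map_add F _ _ }
    have hF' : ∀ (c : K) (u : IC K S), F' (c • u) = c ^ p • F' u := by
      intro c u
      apply Subtype.ext
      exact hFsmul c u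
    obtain ⟨N, hN, hw⟩ := hfin w
    let w' : IC K S := ⟨w.1, (hO _).1 w.2⟩
    have hiter : ∀ (n : ℕ), ((F'^[n] w' : IC K S) : W) = F^[n] w := by
      intro n
      induction n with
      | zero => rfl
      | succ n ih =>
        rw [Function.iterate_succ_apply', Function.iterate_succ_apply', ← ih]
        rfl
    have hw' : F'^[N] w' = w' := by
      apply Subtype.ext
      rw [hiter, hw]
    have h₁ := mem_span_fixed p F' hF' N hN hw'
    have h₂ : ∀ u ∈ Submodule.span K {u | F' u = u}, ∃ z, (f z).1 = u.1 := by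
      intro u hu
      induction hu using Submodule.span_induction with
      | mem x hx =>
        refine ⟨⟨(x : W), (hA _).2 ⟨x.2, congrArg Subtype.val hx⟩⟩ ⊗ₜ 1, ?_⟩
        rw [hf, map_one, mul_one]
      | zero =>
        refine ⟨0, ?_⟩
        rw [map_zero]
        rfl
      | add x y _ _ hx hy =>
        obtain ⟨a, ha⟩ := hx
        obtain ⟨b, hb⟩ := hy
        refine ⟨a + b, ?_⟩
        rw [map_add]
        change (f a).1 + (f b).1 = _
        rw [ha, hb]
        rfl
      | smul c x _ hx =>
        obtain ⟨a, ha⟩ := hx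
        refine ⟨a * (1 ⊗ₜ c), ?_⟩
        rw [map_mul]
        change (f a).1 * (f (1 ⊗ₜ c)).1 = c • (x : W)
        rw [ha, hf, Algebra.smul_def, mul_comm]
        change (1 : W) * _ * _ = _
        rw [one_mul]
    obtain ⟨z, hz⟩ := h₂ w' h₁
    exact ⟨z, Subtype.ext hz⟩

end

end Pool.Agent.H27.HC
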