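import Mathlib

/-!
# Descent along the Frobenius of an algebraic closure of a finite field

Let `k` be the field with `p` elements and let `W` be a vector space over an algebraic closure
`K` of `k`, with a semilinear map `F` such that every element has a finite orbit.  Then the fixed
points of `F` form a `k`-structure on `W`.
-/

open scoped TensorProduct

namespace Pool.Agent.H27.HC

section

variable {k K W : Type} [Field k] [Field K] [AddCommGroup W] [Module K W] (p : ℕ)
  [hp : Fact p.Prime]

omit [AddCommGroup W] [Module K W] in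
variable (k) in
lemma exists_of_pow_eq_self [Algebra k K] [CharP K p] {c : K} (h : c ^ p = c) :
    ∃ r : k, algebraMap k K r = c := by
  have h₁ : c ∈ (⊥ : Subfield K) := (Subfield.mem_bot_iff_pow_eq_self K p).2 h
  exact (bot_le : (⊥ : Subfield K) ≤ (algebraMap k K).fieldRange) h₁

/-- Fixed vectors which are linearly independent over the prime field are linearly independent. -/
lemma linearIndependent_fixed [Module k W] [Algebra k K] [IsScalarTower k K W] [CharP K p]
    (F : W →+ W)
    (hF : ∀ (c : K) (w : W), F (c • w) = c ^ p • F w) {ι : Type} (w : ι → W)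
    (hw : ∀ i, F (w i) = w i) (hli : LinearIndependent k w) : LinearIndependent K w := by
  classical
  have key : ∀ s : Finset ι, ∀ g : ι → K, ∑ i ∈ s, g i • w i = 0 → ∀ i ∈ s, g i = 0 := by
    intro s
    induction s using Finset.induction_on with
    | empty => simp
    | insert a s has ih =>
      intro g hg
      rw [Finset.sum_insert has] at hg
      by_cases hga : g a = 0
      · rw [hga, zero_smul, zero_add] at hg
        intro i hi
        rcases Finset.mem_insert.1 hi with rfl | hi
        · exact hga
        · exact ih g hg i hi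
      · exfalso
        let h : ι → K := fun i ↦ (g a)⁻¹ * g i
        have h₁ : w a + ∑ i ∈ s, h i • w i = 0 := by
          have := congrArg (fun v ↦ (g a)⁻¹ • v) hg
          simp only [smul_add, smul_zero, Finset.smul_sum, smul_smul, inv_mul_cancel₀ hga,
            one_smul] at this
          exact this
        have h₂ : w a + ∑ i ∈ s, (h i) ^ p • w i = 0 := by
          have := congrArg F h₁
          rw [map_add, map_zero, map_sum, hw] at this
          simpa only [hF, hw] using this
        have h₃ : ∑ i ∈ s, ((h i) ^ p - h i) • w i = 0 := by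
          simp only [sub_smul, Finset.sum_sub_distrib]
          rw [sub_eq_zero]
          exact add_left_cancel (h₂.trans h₁.symm)
        have h₄ := ih _ h₃
        have h₅ : ∀ i, ∃ r : k, i ∈ s → algebraMap k K r = h i := by
          intro i
          by_cases hi : i ∈ s
          · obtain ⟨r, hr⟩ := exists_of_pow_eq_self k p (sub_eq_zero.1 (h₄ i hi))
            exact ⟨r, fun _ ↦ hr⟩
          · exact ⟨0, fun h ↦ absurd h hi⟩
        choose c hc using h₅
        have h₆ : ∀ i ∈ s, h i • w i = c i • w i := by
          intro i hi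
          rw [← hc i hi, algebraMap_smul]
        have h₇ : ∑ i ∈ insert a s, (if i = a then (1 : k) else c i) • w i = 0 := by
          rw [Finset.sum_insert has]
          simp only [if_true, one_smul]
          rw [← h₁]
          congr 1
          apply Finset.sum_congr rfl
          intro i hi
          rw [h₆ i hi, if_neg]
          rintro rfl
          exact has hi
        have h₈ := linearIndependent_iff'.1 hli _ _ h₇ a (Finset.mem_insert_self _ _)
        simp at h₈
  exact linearIndependent_iff'.2 key

open Polynomial in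
lemma span_frob_eq_top [CharP K p] [IsAlgClosed K] (N : ℕ) :
    Submodule.span K (Set.range (fun c : {c : K // c ^ p ^ N = c} ↦ fun i : Fin N ↦
      (c : K) ^ p ^ (i : ℕ))) = ⊤ := by
  classical
  by_contra hne
  obtain ⟨f, hf, hle⟩ := Submodule.exists_le_ker_of_lt_top _ (lt_top_iff_ne_top.2 hne)
  rcases Nat.eq_zero_or_pos N with rfl | hN
  · apply hf
    ext x
    exact x.elim0
  let P : K[X] := ∑ i : Fin N, C (f (Pi.single i 1)) * X ^ p ^ (i : ℕ)
  have hP : ∀ c : K, c ^ p ^ N = c → P.eval c = 0 := by
    intro c hc
    have h₁ : f (fun i : Fin N ↦ c ^ p ^ (i : ℕ)) = 0 :=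
      hle (Submodule.subset_span ⟨⟨c, hc⟩, rfl⟩)
    rw [LinearMap.pi_apply_eq_sum_univ f] at h₁
    simp only [P, eval_finsetSum, eval_mul, eval_C, eval_pow, eval_X]
    rw [← h₁]
    apply Finset.sum_congr rfl
    intro i _
    rw [smul_eq_mul, mul_comm]
    congr 2
    ext j
    simp [Pi.single_apply, eq_comm]
  have hdeg : P.natDegree < p ^ N := by
    refine lt_of_le_of_lt (natDegree_sum_le_of_forall_le (n := p ^ (N - 1)) _ _ ?_)
      (Nat.pow_lt_pow_right hp.out.one_lt (by omega))
    intro i _
    refine (natDegree_C_mul_X_pow_le _ _).trans ?_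
    exact Nat.pow_le_pow_right hp.out.pos (by omega)
  have hcard : (X ^ p ^ N - X : K[X]).roots.toFinset.card = p ^ N := by
    have h1 : (X ^ p ^ N - X : K[X]).Separable :=
      galois_poly_separable p _ (dvd_pow_self p hN.ne')
    rw [Multiset.toFinset_card_of_nodup (nodup_roots h1), IsAlgClosed.card_roots_eq_natDegree]
    exact FiniteField.X_pow_card_pow_sub_X_natDegree_eq K hN.ne' hp.out.one_lt
  have hP0 : P = 0 := by
    refine eq_zero_of_natDegree_lt_card_of_eval_eq_zero' P
      (X ^ p ^ N - X : K[X]).roots.toFinset ?_ (by rw [hcard]; exact hdeg)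
    intro c hc
    apply hP
    rw [Multiset.mem_toFinset, mem_roots'] at hc
    have := hc.2
    simp only [IsRoot.def, eval_sub, eval_pow, eval_X] at this
    exact sub_eq_zero.1 this
  apply hf
  ext x
  simp only [LinearMap.coe_comp, Function.comp_apply, LinearMap.coe_single, LinearMap.zero_comp,
    LinearMap.zero_apply]
  have h2 : P.coeff (p ^ (x : ℕ)) = f (Pi.single x 1) := by
    simp only [P, finsetSum_coeff, coeff_C_mul, coeff_X_pow]
    rw [Finset.sum_eq_single x]
    · simp
    · intro b _ hb
      rw [if_neg, mul_zero]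
      intro h
      apply hb
      have := Nat.pow_right_injective hp.out.two_le h
      exact (Fin.ext this).symm
    · simp
  rw [← h2, hP0]
  simp

/-- Vectors with a finite orbit are combinations of fixed vectors. -/
lemma mem_span_fixed [CharP K p] [IsAlgClosed K] (F : W →+ W)
    (hF : ∀ (c : K) (w : W), F (c • w) = c ^ p • F w) (N : ℕ) (hN : 0 < N) {v : W}
    (hv : F^[N] v = v) : v ∈ Submodule.span K {w | F w = w} := by
  classical
  have hFi : ∀ (i : ℕ) (c : K) (w : W), F^[i] (c • w) = c ^ p ^ i • F^[i] w := by
    intro i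
    induction i with
    | zero => intro c w; simp
    | succ i ih =>
      intro c w
      rw [Function.iterate_succ_apply', ih, hF, Function.iterate_succ_apply', ← pow_mul, pow_succ]
  let L : (Fin N → K) →ₗ[K] W := Fintype.linearCombination K (fun i : Fin N ↦ F^[(i : ℕ)] v)
  have hL : ∀ g : Fin N → K, L g = ∑ i : Fin N, g i • F^[(i : ℕ)] v := fun g ↦ rfl
  have h₁ : L (Pi.single ⟨0, hN⟩ 1) = v := by
    rw [hL, Finset.sum_eq_single ⟨0, hN⟩]
    · simp
    · intro b _ hb
      simp [Pi.single_apply, hb]
    · simp
  have h₂ : ∀ c : {c : K // c ^ p ^ N = c}, F (L (fun i ↦ (c : K) ^ p ^ (i : ℕ))) =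
      L (fun i ↦ (c : K) ^ p ^ (i : ℕ)) := by
    intro c
    have h₃ : L (fun i ↦ (c : K) ^ p ^ (i : ℕ)) = ∑ i ∈ Finset.range N, F^[i] ((c : K) • v) := by
      rw [hL, Finset.sum_range]
      apply Finset.sum_congr rfl
      intro i _
      rw [hFi]
    rw [h₃, map_sum]
    have h₄ : ∀ i, F (F^[i] ((c : K) • v)) = F^[i + 1] ((c : K) • v) := fun i ↦
      (Function.iterate_succ_apply' F i _).symm
    simp only [h₄]
    have h₅ := Finset.sum_range_succ (fun i ↦ F^[i] ((c : K) • v)) N
    rw [Finset.sum_range_succ'] at h₅
    have h₆ : F^[N] ((c : K) • v) = F^[0] ((c : K) • v) := by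
      rw [hFi, c.2, hv]
      rfl
    rw [h₆] at h₅
    exact add_right_cancel h₅
  rw [← h₁]
  have h₇ : (Pi.single ⟨0, hN⟩ 1 : Fin N → K) ∈ Submodule.span K (Set.range
      (fun c : {c : K // c ^ p ^ N = c} ↦ fun i : Fin N ↦ (c : K) ^ p ^ (i : ℕ))) := by
    rw [span_frob_eq_top]
    trivial
  have h₈ := Submodule.mem_map_of_mem (f := L) h₇
  rw [Submodule.map_span] at h₈
  refine Submodule.span_mono ?_ h₈
  rintro _ ⟨_, ⟨c, rfl⟩, rfl⟩
  exact h₂ c

end

end Pool.Agent.H27.HC
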