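import Pool.Agent.H27.Genus

/-!
# Sections of the structure sheaf over the image of an affine chart, Čech cohomology
-/

open CategoryTheory AlgebraicGeometry Limits

namespace Pool.Agent.H27.HC

/-- Sections over the image of an open immersion `Spec R ⟶ X`. -/
noncomputable def sec {X : Scheme.{0}} {R : Type} [CommRing R] (f : Spec (CommRingCat.of R) ⟶ X)
    (U : X.Opens) (h : ⊤ ≤ f ⁻¹ᵁ U) : Γ(X, U) →+* R :=
  (f.appLE U ⊤ h ≫ (Scheme.ΓSpecIso (CommRingCat.of R)).hom).hom

theorem sec_bijective {X : Scheme.{0}} {R : Type} [CommRing R] (f : Spec (CommRingCat.of R) ⟶ X)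
    [IsOpenImmersion f] (U : X.Opens) (h : f.opensRange = U) (h' : ⊤ ≤ f ⁻¹ᵁ U) :
    Function.Bijective (sec f U h') := by
  have h1 : IsIso (f.app U) := f.isIso_app U h.symm.le
  have h2 : f ⁻¹ᵁ U = ⊤ := top_le_iff.1 h'
  have h3 : IsIso (f.appLE U ⊤ h') := by
    rw [Scheme.Hom.appLE]
    have : IsIso ((Spec (CommRingCat.of R)).presheaf.map (homOfLE h').op) := by
      have : IsIso (homOfLE h') := ⟨eqToHom h2, rfl, rfl⟩
      infer_instance
    infer_instance
  exact (ConcreteCategory.isIso_iff_bijective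
    (f.appLE U ⊤ h' ≫ (Scheme.ΓSpecIso (CommRingCat.of R)).hom)).1 inferInstance

/-- Compatibility with restriction. -/
theorem sec_restrict {X : Scheme.{0}} {R S : Type} [CommRing R] [CommRing S] (φ : R →+* S)
    (f : Spec (CommRingCat.of R) ⟶ X) (U V : X.Opens) (hVU : V ≤ U) (hU : ⊤ ≤ f ⁻¹ᵁ U)
    (g : Spec (CommRingCat.of S) ⟶ X) (hV : ⊤ ≤ g ⁻¹ᵁ V)
    (hg : Spec.map (CommRingCat.ofHom φ) ≫ f = g) (s : Γ(X, U)) :
    sec g V hV ((X.presheaf.map (homOfLE hVU).op).hom s) = φ (sec f U hU s) := by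
  subst hg
  have h1 : f.appLE U ⊤ hU ≫ (Scheme.ΓSpecIso (CommRingCat.of R)).hom ≫ CommRingCat.ofHom φ =
      X.presheaf.map (homOfLE hVU).op ≫ (Spec.map (CommRingCat.ofHom φ) ≫ f).appLE V ⊤ hV ≫
        (Scheme.ΓSpecIso (CommRingCat.of S)).hom := by
    rw [← Scheme.ΓSpecIso_naturality, ← Category.assoc, ← Category.assoc]
    congr 1
    rw [Scheme.Hom.map_appLE]
    have e : (Spec.map (CommRingCat.ofHom φ)).appTop =
        (Spec.map (CommRingCat.ofHom φ)).appLE ⊤ ⊤ le_rfl := Scheme.Hom.app_eq_appLE _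
    rw [e]
    exact Scheme.Hom.appLE_comp_appLE _ _ _ _ _ _ _
  exact congr(($h1.symm).hom s)

theorem restrict_structHom {K : Type} [CommRing K] (X : Over (Spec (CommRingCat.of K)))
    (U V : X.left.Opens) (hVU : V ≤ U) (c : K) :
    (X.left.presheaf.map (homOfLE hVU).op).hom (structHom X U c) = structHom X V c := by
  have h : ((Scheme.ΓSpecIso (CommRingCat.of K)).inv ≫ X.hom.appLE ⊤ U le_top) ≫
      X.left.presheaf.map (homOfLE hVU).op =
        (Scheme.ΓSpecIso (CommRingCat.of K)).inv ≫ X.hom.appLE ⊤ V le_top := by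
    rw [Category.assoc]
    exact congrArg (fun z ↦ (Scheme.ΓSpecIso (CommRingCat.of K)).inv ≫ z)
      (Scheme.Hom.appLE_map X.hom le_top (homOfLE hVU).op)
  exact congr(($h).hom c)

theorem sec_structHom {K R : Type} [CommRing K] [CommRing R] [Algebra K R]
    (X : Over (Spec (CommRingCat.of K)))
    (f : Spec (CommRingCat.of R) ⟶ X.left)
    (hf : f ≫ X.hom = Spec.map (CommRingCat.ofHom (algebraMap K R)))
    (U : X.left.Opens) (h : ⊤ ≤ f ⁻¹ᵁ U) (c : K) :
    sec f U h (structHom X U c) = algebraMap K R c := by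
  have h1 : ((Scheme.ΓSpecIso (CommRingCat.of K)).inv ≫ X.hom.appLE ⊤ U le_top) ≫
      (f.appLE U ⊤ h ≫ (Scheme.ΓSpecIso (CommRingCat.of R)).hom) =
        CommRingCat.ofHom (algebraMap K R) := by
    have e1 : X.hom.appLE ⊤ U le_top ≫ f.appLE U ⊤ h = (f ≫ X.hom).appLE ⊤ ⊤ le_top :=
      Scheme.Hom.appLE_comp_appLE _ _ _ _ _ _ _
    have e2 : (f ≫ X.hom).appLE ⊤ ⊤ le_top = (f ≫ X.hom).appTop :=
      (Scheme.Hom.app_eq_appLE _).symm
    rw [Category.assoc, ← Category.assoc (X.hom.appLE ⊤ U le_top), e1, e2, hf,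
      Scheme.ΓSpecIso_naturality, Iso.inv_hom_id_assoc]
  exact congr(($h1).hom c)

/-- The `K`-algebra structure of the sections of a `K`-scheme over an open subset. -/
@[reducible]
noncomputable def secAlgebra {K : Type} [CommRing K] (X : Over (Spec (CommRingCat.of K)))
    (U : X.left.Opens) : Algebra K Γ(X.left, U) := (structHom X U).toAlgebra

attribute [local instance] secAlgebra

/-- Restriction of sections as a `K`-linear map. -/
noncomputable def resLin {K : Type} [CommRing K] (X : Over (Spec (CommRingCat.of K)))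
    (U V : X.left.Opens) (hVU : V ≤ U) : Γ(X.left, U) →ₗ[K] Γ(X.left, V) where
  toFun s := (X.left.presheaf.map (homOfLE hVU).op).hom s
  map_add' := map_add _
  map_smul' c s := by
    rw [Algebra.smul_def, Algebra.smul_def, map_mul]
    exact congrArg (· * _) (restrict_structHom X U V hVU c)

/-- The Čech cohomology group `H¹({U, V}, 𝒪_X) = 𝒪_X(U ∩ V) / (𝒪_X(U)| + 𝒪_X(V)|)` of a
`K`-scheme `X`. -/
abbrev CechH1 {K : Type} [CommRing K] (X : Over (Spec (CommRingCat.of K)))
    (U V : X.left.Opens) : Type :=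
  Γ(X.left, U ⊓ V) ⧸ (LinearMap.range (resLin X U (U ⊓ V) inf_le_left) ⊔
    LinearMap.range (resLin X V (U ⊓ V) inf_le_right))

/-- The genus in terms of the dimension of the Čech cohomology. -/
theorem hasGenus_of_finrank {K : Type} [Field K] (X : Over (Spec (CommRingCat.of K))) (g : ℕ)
    (U V : X.left.Opens) (hU : IsAffineOpen U) (hV : IsAffineOpen V) (hUV : U ⊔ V = ⊤)
    (hfin : Module.Finite K (CechH1 X U V)) (hg : Module.finrank K (CechH1 X U V) = g) :
    HasGenus X g := by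
  let b := Module.finBasisOfFinrankEq K (CechH1 X U V) hg
  choose e he using fun i ↦ Submodule.mkQ_surjective _ (b i)
  have key : ∀ (s : Γ(X.left, U ⊓ V)) (c : Fin g → K),
      (∃ (x : Γ(X.left, U)) (y : Γ(X.left, V)), s = ∑ i, structHom X (U ⊓ V) (c i) * e i +
        resHom X inf_le_left x + resHom X inf_le_right y) ↔
      Submodule.mkQ (LinearMap.range (resLin X U (U ⊓ V) inf_le_left) ⊔
        LinearMap.range (resLin X V (U ⊓ V) inf_le_right)) s = ∑ i, c i • b i := by
    intro s c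
    have h₁ : ∑ i, c i • b i = Submodule.mkQ (LinearMap.range (resLin X U (U ⊓ V) inf_le_left) ⊔
        LinearMap.range (resLin X V (U ⊓ V) inf_le_right))
        (∑ i, structHom X (U ⊓ V) (c i) * e i) := by
      rw [map_sum]
      refine Finset.sum_congr rfl fun i _ ↦ ?_
      rw [← he i, ← map_smul, Algebra.smul_def]
      rfl
    rw [h₁, ← sub_eq_zero, ← map_sub, ← LinearMap.mem_ker, Submodule.ker_mkQ, Submodule.mem_sup]
    constructor
    · rintro ⟨x, y, h⟩
      refine ⟨_, ⟨x, rfl⟩, _, ⟨y, rfl⟩, ?_⟩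
      rw [h, add_assoc, add_sub_cancel_left]
      rfl
    · rintro ⟨_, ⟨x, rfl⟩, _, ⟨y, rfl⟩, h⟩
      refine ⟨x, y, ?_⟩
      rw [add_assoc, add_comm, ← sub_eq_iff_eq_add]
      exact h.symm
  refine ⟨U, V, hU, hV, hUV, e, fun s ↦ ?_⟩
  refine ⟨fun i ↦ b.repr (Submodule.mkQ _ s) i, (key s _).2 (b.sum_repr _).symm, ?_⟩
  intro c hc
  have h₂ := (key s c).1 hc
  funext i
  rw [h₂, b.repr_sum_self]

end Pool.Agent.H27.HC
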