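import Pool.Agent.H27.HC.Ring

/-!
# Hyperelliptic curves: functoriality in the base ring and universal properties
-/

open Polynomial LaurentPolynomial QuadraticAlgebra

namespace Pool.Agent.H27.HC

section map

variable (D : Dat) {K L M : Type} [CommRing K] [CommRing L] [CommRing M] (f : K →+* L) (g : L →+* M)

/-- Functoriality of quadratic algebras with respect to ring homomorphisms. -/
def quadMapRingHom {A B : Type} [CommRing A] [CommRing B]
    (φ : A →+* B) {a b : A} {a' b' : B} (ha : φ a = a') (hb : φ b = b') :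
    QuadraticAlgebra A a b →+* QuadraticAlgebra B a' b' where
  toFun z := ⟨φ z.re, φ z.im⟩
  map_one' := by apply QuadraticAlgebra.ext <;> simp
  map_mul' z w := by subst ha hb; apply QuadraticAlgebra.ext <;> simp
  map_zero' := by apply QuadraticAlgebra.ext <;> simp
  map_add' z w := by apply QuadraticAlgebra.ext <;> simp

/-- `R0 D K → R0 D L` induced by a ring homomorphism `K → L` -/
noncomputable def R0map : R0 D K →+* R0 D L :=
  quadMapRingHom (Polynomial.mapRingHom f) (map_a0 D K f) (map_b0 D K f)

/-- `R1 D K → R1 D L` induced by a ring homomorphism `K → L` -/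
noncomputable def R1map : R1 D K →+* R1 D L :=
  quadMapRingHom (Polynomial.mapRingHom f) (map_a1 D K f) (map_b1 D K f)

theorem laurentMap_toLaurent (p : K[X]) :
    AddMonoidAlgebra.mapRingHom ℤ f (toLaurent p) = toLaurent (p.map f) := by
  ext n
  rw [AddMonoidAlgebra.coeff_mapRingHom]
  rcases le_or_gt 0 n with hn | hn
  · obtain ⟨m, rfl⟩ := Int.eq_ofNat_of_zero_le hn
    rw [coeff_toLaurent_nat, coeff_toLaurent_nat, coeff_map]
  · rw [coeff_toLaurent_neg _ _ hn, coeff_toLaurent_neg _ _ hn, map_zero]

/-- `R01 D K → R01 D L` induced by a ring homomorphism `K → L` -/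
noncomputable def R01map : R01 D K →+* R01 D L :=
  quadMapRingHom (AddMonoidAlgebra.mapRingHom ℤ f)
    (by rw [laurentMap_toLaurent, map_a0]) (by rw [laurentMap_toLaurent, map_b0])

@[simp] theorem R0map_x0 : R0map D f (x0 D K) = x0 D L := by
  apply QuadraticAlgebra.ext <;> simp [R0map, quadMapRingHom, x0]

@[simp] theorem R0map_y0 : R0map D f (y0 D K) = y0 D L := by
  apply QuadraticAlgebra.ext <;> simp [R0map, quadMapRingHom, y0]

@[simp] theorem R1map_u1 : R1map D f (u1 D K) = u1 D L := by
  apply QuadraticAlgebra.ext <;> simp [R1map, quadMapRingHom, u1]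

@[simp] theorem R1map_v1 : R1map D f (v1 D K) = v1 D L := by
  apply QuadraticAlgebra.ext <;> simp [R1map, quadMapRingHom, v1]

theorem R01map_i0 (z : R0 D K) : R01map D f (i0 D K z) = i0 D L (R0map D f z) := by
  apply QuadraticAlgebra.ext
  · exact laurentMap_toLaurent f z.re
  · exact laurentMap_toLaurent f z.im

theorem laurentMap_invert (p : K[T;T⁻¹]) :
    AddMonoidAlgebra.mapRingHom ℤ f (invert p) =
      invert (AddMonoidAlgebra.mapRingHom ℤ f p) := by
  ext n
  rw [AddMonoidAlgebra.coeff_mapRingHom, invert_apply, invert_apply,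
    AddMonoidAlgebra.coeff_mapRingHom]

theorem laurentMap_T (n : ℤ) : AddMonoidAlgebra.mapRingHom ℤ f (T n) = T n := by
  ext m
  rw [AddMonoidAlgebra.coeff_mapRingHom, LaurentPolynomial.T_apply, LaurentPolynomial.T_apply]
  split_ifs <;> simp

theorem R01map_i1 (z : R1 D K) : R01map D f (i1 D K z) = i1 D L (R1map D f z) := by
  apply QuadraticAlgebra.ext
  · change AddMonoidAlgebra.mapRingHom ℤ f (invert (toLaurent z.re)) = _
    rw [laurentMap_invert, laurentMap_toLaurent]
    rfl
  · change AddMonoidAlgebra.mapRingHom ℤ f (T (-D.m) * invert (toLaurent z.im)) = _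
    rw [map_mul, laurentMap_invert, laurentMap_toLaurent, laurentMap_T]
    rfl

@[simp] theorem R01map_x01 : R01map D f (x01 D K) = x01 D L := by
  rw [← i0_x0, R01map_i0, R0map_x0, i0_x0]

@[simp] theorem R01map_u01 : R01map D f (u01 D K) = u01 D L := by
  rw [← i1_u1, R01map_i1, R1map_u1, i1_u1]

@[simp] theorem R01map_y01 : R01map D f (y01 D K) = y01 D L := by
  rw [← i0_y0, R01map_i0, R0map_y0, i0_y0]

@[simp] theorem R0map_algebraMap (c : K) :
    R0map D f (algebraMap K (R0 D K) c) = algebraMap L (R0 D L) (f c) := by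
  apply QuadraticAlgebra.ext
  · change (algebraMap K K[X] c).map f = algebraMap L L[X] (f c)
    simp
  · change (0 : K[X]).map f = 0
    simp

@[simp] theorem R1map_algebraMap (c : K) :
    R1map D f (algebraMap K (R1 D K) c) = algebraMap L (R1 D L) (f c) := by
  apply QuadraticAlgebra.ext
  · change (algebraMap K K[X] c).map f = algebraMap L L[X] (f c)
    simp
  · change (0 : K[X]).map f = 0
    simp

@[simp] theorem R01map_algebraMap (c : K) :
    R01map D f (algebraMap K (R01 D K) c) = algebraMap L (R01 D L) (f c) := by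
  rw [← AlgHom.commutes (i0 D K), R01map_i0, R0map_algebraMap, AlgHom.commutes]

theorem R0map_comp (z : R0 D K) : R0map D (g.comp f) z = R0map D g (R0map D f z) := by
  apply QuadraticAlgebra.ext
  · exact (Polynomial.map_map f g z.re).symm
  · exact (Polynomial.map_map f g z.im).symm

theorem R1map_comp (z : R1 D K) : R1map D (g.comp f) z = R1map D g (R1map D f z) := by
  apply QuadraticAlgebra.ext
  · exact (Polynomial.map_map f g z.re).symm
  · exact (Polynomial.map_map f g z.im).symm

theorem laurentMap_comp (p : K[T;T⁻¹]) : AddMonoidAlgebra.mapRingHom ℤ (g.comp f) p =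
    AddMonoidAlgebra.mapRingHom ℤ g (AddMonoidAlgebra.mapRingHom ℤ f p) := by
  ext n
  simp only [AddMonoidAlgebra.coeff_mapRingHom, RingHom.comp_apply]

theorem R01map_comp (z : R01 D K) : R01map D (g.comp f) z = R01map D g (R01map D f z) := by
  apply QuadraticAlgebra.ext
  · exact laurentMap_comp f g z.re
  · exact laurentMap_comp f g z.im

theorem R0map_id (z : R0 D K) : R0map D (RingHom.id K) z = z := by
  apply QuadraticAlgebra.ext
  · exact Polynomial.map_id
  · exact Polynomial.map_id

theorem R1map_id (z : R1 D K) : R1map D (RingHom.id K) z = z := by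
  apply QuadraticAlgebra.ext
  · exact Polynomial.map_id
  · exact Polynomial.map_id

theorem R01map_id (z : R01 D K) : R01map D (RingHom.id K) z = z := by
  have h : ∀ p : K[T;T⁻¹], AddMonoidAlgebra.mapRingHom ℤ (RingHom.id K) p = p := by
    intro p
    ext n
    rw [AddMonoidAlgebra.coeff_mapRingHom]
    rfl
  apply QuadraticAlgebra.ext
  · exact h z.re
  · exact h z.im

theorem R0map_injective (hf : Function.Injective f) : Function.Injective (R0map D f) := by
  intro a b hab
  rw [QuadraticAlgebra.ext_iff] at hab ⊢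
  exact ⟨Polynomial.map_injective f hf hab.1, Polynomial.map_injective f hf hab.2⟩

theorem R1map_injective (hf : Function.Injective f) : Function.Injective (R1map D f) := by
  intro a b hab
  rw [QuadraticAlgebra.ext_iff] at hab ⊢
  exact ⟨Polynomial.map_injective f hf hab.1, Polynomial.map_injective f hf hab.2⟩

theorem R01map_injective (hf : Function.Injective f) : Function.Injective (R01map D f) := by
  have h : ∀ p q : K[T;T⁻¹], AddMonoidAlgebra.mapRingHom ℤ f p =
      AddMonoidAlgebra.mapRingHom ℤ f q → p = q := by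
    intro p q hpq
    ext n
    apply hf
    rw [← AddMonoidAlgebra.coeff_mapRingHom, hpq, AddMonoidAlgebra.coeff_mapRingHom]
  intro a b hab
  rw [QuadraticAlgebra.ext_iff] at hab ⊢
  exact ⟨h _ _ hab.1, h _ _ hab.2⟩

theorem map0_eq [Algebra K L] (z : R0 D K) : map0 D K L z = R0map D (algebraMap K L) z := rfl
theorem map1_eq [Algebra K L] (z : R1 D K) : map1 D K L z = R1map D (algebraMap K L) z := rfl
theorem map01_eq [Algebra K L] (z : R01 D K) : map01 D K L z = R01map D (algebraMap K L) z := rfl

end map

/-! ### Universal properties with explicit equations -/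

section univ

variable (D : Dat) {K : Type} [CommRing K] {B : Type} [CommRing B] [Algebra K B]

/-- A homomorphism out of `R01`. -/
theorem exists_lift01 (x y : B) (hx : IsUnit x)
    (h : y * y = aeval x (a0 D K) + aeval x (b0 D K) * y) :
    ∃ φ : R01 D K →ₐ[K] B, φ (x01 D K) = x ∧ φ (y01 D K) = y ∧ φ.comp (i0 D K) = lift0 D x y h := by
  let _ := (i0 D K).toRingHom.toAlgebra
  have := isLocalization_i0 D K
  have hu : IsUnit (lift0 D x y h (x0 D K)) := by rwa [lift0_x0]
  let φ : R01 D K →+* B := IsLocalization.Away.lift (g := (lift0 D x y h : R0 D K →+* B)) (x0 D K) hu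
  have hφ : ∀ z, φ (i0 D K z) = lift0 D x y h z := fun z ↦
    IsLocalization.Away.lift_eq (g := (lift0 D x y h : R0 D K →+* B)) (x0 D K) hu z
  refine ⟨{ φ with commutes' := fun r ↦ ?_ }, ?_, ?_, ?_⟩
  · change φ (algebraMap K _ r) = _
    rw [← AlgHom.commutes (i0 D K), hφ, AlgHom.commutes]
  · change φ (x01 D K) = x
    rw [← i0_x0, hφ, lift0_x0]
  · change φ (y01 D K) = y
    rw [← i0_y0, hφ, lift0_y0]
  · exact AlgHom.ext hφ

theorem algHom_ext01 {φ ψ : R01 D K →ₐ[K] B} (hx : φ (x01 D K) = ψ (x01 D K))
    (hy : φ (y01 D K) = ψ (y01 D K)) : φ = ψ := by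
  let _ := (i0 D K).toRingHom.toAlgebra
  have := isLocalization_i0 D K
  have h1 : φ.comp (i0 D K) = ψ.comp (i0 D K) := by
    apply algHom_ext0
    · simpa [i0_x0] using hx
    · simpa [i0_y0] using hy
  have h2 : (φ : R01 D K →+* B) = (ψ : R01 D K →+* B) := by
    refine IsLocalization.ringHom_ext (Submonoid.powers (x0 D K)) ?_
    exact RingHom.ext fun z ↦ congrArg (· z) h1
  exact AlgHom.ext fun z ↦ congrArg (· z) h2

omit [Algebra K B] in
/-- Two ring homomorphisms out of `R01` which agree on `R0` are equal. -/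
theorem ringHom_ext01 {φ ψ : R01 D K →+* B} (h : ∀ z, φ (i0 D K z) = ψ (i0 D K z)) : φ = ψ := by
  let _ := (i0 D K).toRingHom.toAlgebra
  have := isLocalization_i0 D K
  refine IsLocalization.ringHom_ext (Submonoid.powers (x0 D K)) ?_
  exact RingHom.ext h

omit [Algebra K B] in
/-- Two ring homomorphisms out of `R01` which agree on `R1` are equal. -/
theorem ringHom_ext01' {φ ψ : R01 D K →+* B} (h : ∀ z, φ (i1 D K z) = ψ (i1 D K z)) : φ = ψ := by
  let _ := (i1 D K).toRingHom.toAlgebra
  have := isLocalization_i1 D K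
  refine IsLocalization.ringHom_ext (Submonoid.powers (u1 D K)) ?_
  exact RingHom.ext h

end univ

end Pool.Agent.H27.HC
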