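import Pool.Agent.H27.HC.Endo
import Pool.Agent.H27.HC.Proper

/-!
# Rational points of the curve
-/

open CategoryTheory Limits AlgebraicGeometry Polynomial

namespace Pool.Agent.H27.HC

section

variable {p : ℕ} [hp : Fact p.Prime]

lemma eval₂_int_map {B C : Type} [CommRing B] [CommRing C] (φ : B →+* C) (x : B) (q : ℤ[X]) :
    φ (eval₂ (Int.castRingHom B) x q) = eval₂ (Int.castRingHom C) (φ x) q := by
  rw [hom_eval₂]
  congr 1
  exact RingHom.ext_int _ _

lemma eval_map_int {B : Type} [CommRing B] (x : B) (q : ℤ[X]) :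
    (q.map (Int.castRingHom B)).eval x = eval₂ (Int.castRingHom B) x q := eval_map _ _

lemma quad_map {B C : Type} [CommRing B] [CommRing C] (φ : B →+* C) {x y : B} {a b : ℤ[X]}
    (h : y * y = eval₂ (Int.castRingHom B) x a + eval₂ (Int.castRingHom B) x b * y) :
    φ y * φ y = eval₂ (Int.castRingHom C) (φ x) a + eval₂ (Int.castRingHom C) (φ x) b * φ y := by
  rw [← eval₂_int_map, ← eval₂_int_map, ← map_mul, ← map_mul, ← map_add, h]

/-- Solutions fixed by the Frobenius. -/
lemma no_fixed {K : Type} [Field K] [CharP K p] {a b : ℤ[X]}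
    (hn : ∀ x y : ZMod p, y * y ≠ (a.map (Int.castRingHom (ZMod p))).eval x +
      (b.map (Int.castRingHom (ZMod p))).eval x * y) {x y : K} (hx : x ^ p = x) (hy : y ^ p = y)
    (h : y * y = eval₂ (Int.castRingHom K) x a + eval₂ (Int.castRingHom K) x b * y) : False := by
  let _ : Algebra (ZMod p) K := ZMod.algebra K p
  obtain ⟨x', rfl⟩ := exists_of_pow_eq_self (ZMod p) p hx
  obtain ⟨y', rfl⟩ := exists_of_pow_eq_self (ZMod p) p hy
  apply hn x' y'
  apply (algebraMap (ZMod p) K).injective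
  rw [eval_map_int, eval_map_int, map_add, map_mul, map_mul, eval₂_int_map, eval₂_int_map, h]

lemma mem_of_quad {K : Type} [Field K] (V : ValuationSubring K) {a b y : K} (ha : a ∈ V)
    (hb : b ∈ V) (hy : y * y = a + b * y) : y ∈ V := by
  rcases V.mem_or_inv_mem y with h | h
  · exact h
  · rcases eq_or_ne y 0 with rfl | h0
    · exact V.zero_mem
    · have : y = a * y⁻¹ + b := by
        field_simp
        linear_combination hy
      rw [this]
      exact V.add_mem _ _ (V.mul_mem _ _ ha h) hb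

/-- Solutions in a field with a place. -/
lemma no_place {K : Type} [Field K] (V : ValuationSubring K) (r : V →+* ZMod p) {a b : ℤ[X]}
    (hn : ∀ x y : ZMod p, y * y ≠ (a.map (Int.castRingHom (ZMod p))).eval x +
      (b.map (Int.castRingHom (ZMod p))).eval x * y) {x y : K} (hx : x ∈ V)
    (h : y * y = eval₂ (Int.castRingHom K) x a + eval₂ (Int.castRingHom K) x b * y) : False := by
  have h₁ : ∀ q : ℤ[X], eval₂ (Int.castRingHom K) x q =
      ((eval₂ (Int.castRingHom V) (⟨x, hx⟩ : V) q : V) : K) := fun q ↦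
    (eval₂_int_map V.subtype (⟨x, hx⟩ : V) q).symm
  have hy : y ∈ V := mem_of_quad V (by rw [h₁]; exact Subtype.prop _)
    (by rw [h₁]; exact Subtype.prop _) h
  have h₂ : (⟨y, hy⟩ : V) * ⟨y, hy⟩ = eval₂ (Int.castRingHom V) (⟨x, hx⟩ : V) a +
      eval₂ (Int.castRingHom V) (⟨x, hx⟩ : V) b * ⟨y, hy⟩ := by
    apply Subtype.ext
    change y * y = _ + _ * y
    rw [h, h₁, h₁]
  have h₃ := quad_map r h₂
  rw [← eval_map_int, ← eval_map_int] at h₃
  exact hn _ _ h₃

end

section

variable {D : Dat} {p : ℕ} [hp : Fact p.Prime] (hD : Good D p) (K : Type) [Field K] [CharP K p]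

variable (D) in
lemma eq_y0 : y0 D K * y0 D K = eval₂ (Int.castRingHom (R0 D K)) (x0 D K) D.a +
    eval₂ (Int.castRingHom (R0 D K)) (x0 D K) D.b * y0 D K := by
  have e1 : aeval (x0 D K) (a0 D K) = eval₂ (Int.castRingHom (R0 D K)) (x0 D K) D.a :=
    aeval_int _ _
  have e2 : aeval (x0 D K) (b0 D K) = eval₂ (Int.castRingHom (R0 D K)) (x0 D K) D.b :=
    aeval_int _ _
  rw [← e1, ← e2]
  exact y0_mul_y0 D K

variable (D) in
lemma eq_v1 : v1 D K * v1 D K =
    eval₂ (Int.castRingHom (R1 D K)) (u1 D K) (D.a.reflect (2 * D.m)) +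
    eval₂ (Int.castRingHom (R1 D K)) (u1 D K) (D.b.reflect D.m) * v1 D K := by
  have e1 : aeval (u1 D K) (a1 D K) =
      eval₂ (Int.castRingHom (R1 D K)) (u1 D K) (D.a.reflect (2 * D.m)) := aeval_int _ _
  have e2 : aeval (u1 D K) (b1 D K) =
      eval₂ (Int.castRingHom (R1 D K)) (u1 D K) (D.b.reflect D.m) := aeval_int _ _
  rw [← e1, ← e2]
  exact v1_mul_v1 D K

include hD

/-- The relative Frobenius does not fix a rational point. -/
theorem no_fixed_point (a : specOver (CommAlgCat.of K K) ⟶ C D K) : a ≫ frC p D K ≠ a := by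
  intro ha
  have h₁ : a.left ≫ frS p D K = a.left := congrArg CommaMorphism.left ha
  let a' : Spec (CommRingCat.of K) ⟶ CS D K := a.left
  have h₂ : a' ≫ frS p D K = a' := h₁
  rcases factor a' with ⟨φ, hφ⟩ | ⟨φ, hφ⟩
  · rw [hφ, Category.assoc, j0_frS, ← Category.assoc, cancel_mono, ← Spec.map_comp,
      Spec.map_inj] at h₂
    have h₃ : ∀ z, φ (fr0 p D K z) = φ z := fun z ↦ congr(($h₂).hom z)
    have hx := h₃ (x0 D K)
    have hy := h₃ (y0 D K)
    rw [fr0_x0, map_pow] at hx
    rw [fr0_y0, map_pow] at hy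
    exact no_fixed hD.np0 hx hy (quad_map φ (eq_y0 D K))
  · rw [hφ, Category.assoc, j1_frS, ← Category.assoc, cancel_mono, ← Spec.map_comp,
      Spec.map_inj] at h₂
    have h₃ : ∀ z, φ (fr1 p D K z) = φ z := fun z ↦ congr(($h₂).hom z)
    have hx := h₃ (u1 D K)
    have hy := h₃ (v1 D K)
    rw [fr1_u1, map_pow] at hx
    rw [fr1_v1, map_pow] at hy
    exact no_fixed hD.np1 hx hy (quad_map φ (eq_v1 D K))

omit [CharP K p] in
/-- If `K` has a place with values in the field with `p` elements, then the curve has no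
`K`-rational point. -/
theorem isEmpty_points (V : ValuationSubring K) (r : V →+* ZMod p) :
    IsEmpty (specOver (CommAlgCat.of K K) ⟶ C D K) := by
  constructor
  intro a
  let a' : Spec (CommRingCat.of K) ⟶ CS D K := a.left
  have c0 : ∀ φ : R0 D K →+* K, φ (x0 D K) ∈ V → False := fun φ hφ ↦
    no_place V r hD.np0 hφ (quad_map φ (eq_y0 D K))
  have c1 : ∀ φ : R1 D K →+* K, φ (u1 D K) ∈ V → False := fun φ hφ ↦
    no_place V r hD.np1 hφ (quad_map φ (eq_v1 D K))
  rcases factor a' with ⟨φ, -⟩ | ⟨φ, -⟩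
  · rcases V.mem_or_inv_mem (φ (x0 D K)) with h | h
    · exact c0 φ h
    · rcases eq_or_ne (φ (x0 D K)) 0 with h0 | h0
      · exact c0 φ (by rw [h0]; exact V.zero_mem)
      · obtain ⟨φ', rfl⟩ := exists_extend0 φ (IsUnit.mk0 _ h0)
        refine c1 (φ'.comp (i1 D K).toRingHom) ?_
        have e : (φ'.comp (i1 D K).toRingHom) (u1 D K) =
            ((φ'.comp (i0 D K).toRingHom) (x0 D K))⁻¹ := by
          apply eq_inv_of_mul_eq_one_right
          change φ' (i0 D K (x0 D K)) * φ' (i1 D K (u1 D K)) = 1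
          rw [← map_mul, i0_x0, i1_u1, x01_mul_u01, map_one]
        rwa [e]
  · rcases V.mem_or_inv_mem (φ (u1 D K)) with h | h
    · exact c1 φ h
    · rcases eq_or_ne (φ (u1 D K)) 0 with h0 | h0
      · exact c1 φ (by rw [h0]; exact V.zero_mem)
      · obtain ⟨φ', rfl⟩ := exists_extend1 φ (IsUnit.mk0 _ h0)
        refine c0 (φ'.comp (i0 D K).toRingHom) ?_
        have e : (φ'.comp (i0 D K).toRingHom) (x0 D K) =
            ((φ'.comp (i1 D K).toRingHom) (u1 D K))⁻¹ := by
          apply eq_inv_of_mul_eq_one_left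
          change φ' (i0 D K (x0 D K)) * φ' (i1 D K (u1 D K)) = 1
          rw [← map_mul, i0_x0, i1_u1, x01_mul_u01, map_one]
        rwa [e]

end

end Pool.Agent.H27.HC
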