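import Pool.Agent.H27.HC.GenA

/-!
# Fields of rational functions over the field with `p` elements
-/

namespace Pool.Agent.H27.HC

variable (p : ℕ) [hp : Fact p.Prime] (n : ℕ)

/-- The field of rational functions is finitely generated. -/
theorem exists_generators : ∃ s : Finset (FractionRing (MvPolynomial (Fin n) (ZMod p))),
    Subfield.closure (s : Set (FractionRing (MvPolynomial (Fin n) (ZMod p)))) = ⊤ := by
  classical
  let κ := FractionRing (MvPolynomial (Fin n) (ZMod p))
  let f : Fin n → κ := fun i ↦ algebraMap (MvPolynomial (Fin n) (ZMod p)) κ (MvPolynomial.X i)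
  refine ⟨Finset.univ.image f, ?_⟩
  rw [eq_top_iff]
  intro x _
  have h₁ : ∀ q : MvPolynomial (Fin n) (ZMod p), algebraMap _ κ q ∈
      Subfield.closure ((Finset.univ.image f : Finset κ) : Set κ) := by
    intro q
    induction q using MvPolynomial.induction_on with
    | C a =>
      obtain ⟨m, rfl⟩ := ZMod.natCast_zmod_surjective a
      rw [map_natCast, map_natCast]
      exact natCast_mem _ m
    | add q r hq hr =>
      rw [map_add]
      exact add_mem hq hr
    | mul_X q i hq =>
      rw [map_mul]
      refine mul_mem hq (Subfield.subset_closure ?_)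
      simp [f]
  obtain ⟨a, b, -, rfl⟩ := IsFractionRing.div_surjective (A := MvPolynomial (Fin n) (ZMod p)) x
  exact div_mem (h₁ a) (h₁ b)

instance uncountable_laurent : Uncountable (LaurentSeries (ZMod p)) := by
  have h₄ : Function.Injective (fun f : ℕ → ZMod p ↦
      HahnSeries.ofPowerSeries ℤ (ZMod p) (PowerSeries.mk f)) := by
    intro f g hfg
    have := HahnSeries.ofPowerSeries_injective hfg
    funext i
    have h := congrArg (PowerSeries.coeff i) this
    simpa using h
  have h₅ : Uncountable (ℕ → ZMod p) := by
    rw [← not_countable_iff, ← Cardinal.mk_le_aleph0_iff]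
    have h₆ : Cardinal.continuum ≤ Cardinal.mk (ℕ → ZMod p) := by
      have : Cardinal.mk (ℕ → Bool) ≤ Cardinal.mk (ℕ → ZMod p) := by
        have hi : Function.Injective (fun b : Bool ↦ if b then (1 : ZMod p) else 0) := by
          intro a b hab
          cases a <;> cases b <;> simp at hab ⊢
        exact Cardinal.mk_le_of_injective (hi.comp_left (α := ℕ))
      refine le_trans (le_of_eq ?_) this
      simp
    exact not_le.2 (lt_of_lt_of_le Cardinal.aleph0_lt_continuum h₆)
  exact h₄.uncountable

/-- The field of rational functions has a place with values in the prime field. -/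
theorem exists_place_rat :
    ∃ V : ValuationSubring (FractionRing (MvPolynomial (Fin n) (ZMod p))),
      Nonempty (V →+* ZMod p) := by
  let κ := FractionRing (MvPolynomial (Fin n) (ZMod p))
  obtain ⟨g, hg⟩ := exists_algebraicIndependent (ZMod p) (LaurentSeries (ZMod p)) n
  have hinj : Function.Injective (MvPolynomial.aeval g : MvPolynomial (Fin n) (ZMod p) →ₐ[ZMod p]
    LaurentSeries (ZMod p)) := hg
  let f : κ →+* LaurentSeries (ZMod p) :=
    IsFractionRing.lift (A := MvPolynomial (Fin n) (ZMod p))
      (g := (MvPolynomial.aeval g : MvPolynomial (Fin n) (ZMod p) →ₐ[ZMod p]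
        LaurentSeries (ZMod p)).toRingHom) hinj
  obtain ⟨V, ⟨r⟩⟩ := exists_place (PowerSeries (ZMod p)) (LaurentSeries (ZMod p)) (ZMod p)
    PowerSeries.constantCoeff
  refine ⟨V.comap f, ⟨r.comp ?_⟩⟩
  exact
    { toFun := fun x ↦ ⟨f x.1, x.2⟩
      map_one' := Subtype.ext (map_one f)
      map_mul' := fun _ _ ↦ Subtype.ext (map_mul f _ _)
      map_zero' := Subtype.ext (map_zero f)
      map_add' := fun _ _ ↦ Subtype.ext (map_add f _ _) }

end Pool.Agent.H27.HC
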