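import Mathlib

/-!
# Hyperelliptic curves `y² = a(x) + b(x) y` with integral coefficients: the rings

The curve is glued from two affine charts, the spectra of `R0 D K` (coordinates `x, y`) and
`R1 D K` (coordinates `u = 1/x`, `v = y/x^m`), along the spectrum of `R01 D K`.
-/

open Polynomial LaurentPolynomial QuadraticAlgebra TensorProduct

namespace Pool.Agent.H27.HC

/-- The data of the curve `y² = a(x) + b(x) y`. -/
structure Dat where
  m : ℕ
  a : ℤ[X]
  b : ℤ[X]
  ha : a.natDegree ≤ 2 * m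
  hb : b.natDegree ≤ m

/-! ## The polynomials -/

section polys

variable (D : Dat) (K : Type) [CommRing K]

/-- `a(x)` -/
noncomputable def a0 : K[X] := D.a.map (Int.castRingHom K)

/-- `b(x)` -/
noncomputable def b0 : K[X] := D.b.map (Int.castRingHom K)

/-- `u^(2m) a(1/u)` -/
noncomputable def a1 : K[X] := (D.a.reflect (2 * D.m)).map (Int.castRingHom K)

/-- `u^m b(1/u)` -/
noncomputable def b1 : K[X] := (D.b.reflect D.m).map (Int.castRingHom K)

theorem map_int {L : Type} [CommRing L] (φ : K →+* L) (q : ℤ[X]) :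
    (q.map (Int.castRingHom K)).map φ = q.map (Int.castRingHom L) := by
  rw [Polynomial.map_map]
  congr 1
  exact RingHom.ext_int _ _

theorem map_a0 {L : Type} [CommRing L] (φ : K →+* L) : (a0 D K).map φ = a0 D L :=
  map_int K φ _

theorem map_b0 {L : Type} [CommRing L] (φ : K →+* L) : (b0 D K).map φ = b0 D L :=
  map_int K φ _

theorem map_a1 {L : Type} [CommRing L] (φ : K →+* L) : (a1 D K).map φ = a1 D L :=
  map_int K φ _

theorem map_b1 {L : Type} [CommRing L] (φ : K →+* L) : (b1 D K).map φ = b1 D L :=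
  map_int K φ _

end polys

/-! ## Laurent polynomials -/

section laurent

variable {K : Type} [CommRing K]

theorem coeff_toLaurent_nat (p : K[X]) (n : ℕ) : (toLaurent p).coeff n = p.coeff n := by
  rw [coeff_toLaurent]
  exact Finsupp.mapDomain_apply Nat.cast_injective _ _

theorem coeff_toLaurent_neg (p : K[X]) (n : ℤ) (hn : n < 0) : (toLaurent p).coeff n = 0 := by
  rw [coeff_toLaurent]
  apply Finsupp.mapDomain_of_notMem_range
  rintro ⟨m, rfl⟩
  simp only [Nat.castEmbedding_apply] at hn
  omega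

theorem coeff_T_mul (m n : ℤ) (f : K[T;T⁻¹]) : (T m * f).coeff n = f.coeff (n - m) := by
  have := AddMonoidAlgebra.coeff_single_mul_eq_mul_coeff (R := K) (x := f) (m := m) (m₁ := n)
    (r := 1) (n - m) (by intros; omega)
  rwa [one_mul] at this

theorem invert_reflect {N : ℕ} {f : K[X]} (hf : f.natDegree ≤ N) :
    invert (toLaurent (f.reflect N)) = T (-N) * toLaurent f := by
  ext n
  rw [invert_apply, coeff_T_mul]
  rcases le_or_gt n 0 with hn | hn
  · obtain ⟨k, hk⟩ := Int.eq_ofNat_of_zero_le (a := -n) (by omega)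
    have hk' : -n = ((k : ℕ) : ℤ) := hk
    rw [hk', coeff_toLaurent_nat, coeff_reflect]
    rcases le_or_gt k N with h | h
    · have e : n - -(N : ℤ) = ((N - k : ℕ) : ℤ) := by
        push_cast [h]
        omega
      rw [e, coeff_toLaurent_nat, revAt_le h]
    · rw [revAt_eq_self_of_lt h, coeff_toLaurent_neg _ _ (by omega),
        coeff_eq_zero_of_natDegree_lt (by omega)]
  · rw [coeff_toLaurent_neg _ _ (by omega)]
    have e : n - -(N : ℤ) = ((n.toNat + N : ℕ) : ℤ) := by
      push_cast
      omega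
    rw [e, coeff_toLaurent_nat, coeff_eq_zero_of_natDegree_lt]
    omega

theorem reflect_map {A B : Type} [CommRing A] [CommRing B] (φ : A →+* B) (N : ℕ) (f : A[X]) :
    (f.reflect N).map φ = (f.map φ).reflect N := by
  ext n
  rw [coeff_map, coeff_reflect, coeff_reflect, coeff_map]

end laurent

/-! ## The rings -/

section rings

variable (D : Dat) (K : Type) [CommRing K]

theorem invert_a1 : invert (toLaurent (a1 D K)) = T (-D.m) * T (-D.m) * toLaurent (a0 D K) := by
  have h : (a0 D K).natDegree ≤ 2 * D.m := natDegree_map_le.trans D.ha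
  rw [a1, reflect_map, ← a0, invert_reflect h, ← T_add]
  congr 2
  push_cast
  ring

theorem invert_b1 : invert (toLaurent (b1 D K)) = T (-D.m) * toLaurent (b0 D K) := by
  have h : (b0 D K).natDegree ≤ D.m := natDegree_map_le.trans D.hb
  rw [b1, reflect_map, ← b0, invert_reflect h]

/-- `K[x, y] / (y² = a(x) + b(x) y)` -/
abbrev R0 : Type := QuadraticAlgebra K[X] (a0 D K) (b0 D K)

/-- `K[u, v] / (v² = u^(2m) a(1/u) + u^m b(1/u) v)` -/
abbrev R1 : Type := QuadraticAlgebra K[X] (a1 D K) (b1 D K)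

/-- `K[x, 1/x, y] / (y² = a(x) + b(x) y)` -/
abbrev R01 : Type := QuadraticAlgebra K[T;T⁻¹] (toLaurent (a0 D K)) (toLaurent (b0 D K))

/-- `R0 → R01` -/
noncomputable def i0 : R0 D K →ₐ[K] R01 D K where
  toFun z := ⟨toLaurent z.re, toLaurent z.im⟩
  map_one' := by apply QuadraticAlgebra.ext <;> simp
  map_mul' a b := by apply QuadraticAlgebra.ext <;> simp
  map_zero' := by apply QuadraticAlgebra.ext <;> simp
  map_add' a b := by apply QuadraticAlgebra.ext <;> simp
  commutes' r := by
    apply QuadraticAlgebra.ext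
    · change toLaurent (algebraMap K K[X] r) = algebraMap K K[T;T⁻¹] r
      simp
    · change toLaurent (0 : K[X]) = 0
      simp

/-- `R1 → R01`, `u ↦ 1/x`, `v ↦ y/x^m` -/
noncomputable def i1 : R1 D K →ₐ[K] R01 D K where
  toFun z := ⟨invert (toLaurent z.re), T (-D.m) * invert (toLaurent z.im)⟩
  map_one' := by apply QuadraticAlgebra.ext <;> simp
  map_mul' a b := by
    apply QuadraticAlgebra.ext
    · simp only [re_mul, map_add, map_mul, invert_a1]
      ring
    · simp only [im_mul, map_add, map_mul, invert_b1]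
      ring
  map_zero' := by apply QuadraticAlgebra.ext <;> simp
  map_add' a b := by
    apply QuadraticAlgebra.ext
    · simp
    · simp only [im_add, map_add]
      ring
  commutes' r := by
    apply QuadraticAlgebra.ext
    · change invert (toLaurent (algebraMap K K[X] r)) = algebraMap K K[T;T⁻¹] r
      simp
    · change T (-D.m) * invert (toLaurent (0 : K[X])) = 0
      simp

/-- The coordinates. -/
noncomputable def x0 : R0 D K := ⟨X, 0⟩
noncomputable def y0 : R0 D K := ⟨0, 1⟩
noncomputable def u1 : R1 D K := ⟨X, 0⟩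
noncomputable def v1 : R1 D K := ⟨0, 1⟩
noncomputable def x01 : R01 D K := ⟨T 1, 0⟩
noncomputable def u01 : R01 D K := ⟨T (-1), 0⟩
noncomputable def y01 : R01 D K := ⟨0, 1⟩

@[simp] theorem i0_re (z : R0 D K) : (i0 D K z).re = toLaurent z.re := rfl
@[simp] theorem i0_im (z : R0 D K) : (i0 D K z).im = toLaurent z.im := rfl
@[simp] theorem i1_re (z : R1 D K) : (i1 D K z).re = invert (toLaurent z.re) := rfl
@[simp] theorem i1_im (z : R1 D K) : (i1 D K z).im = T (-D.m) * invert (toLaurent z.im) := rfl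

theorem i0_x0 : i0 D K (x0 D K) = x01 D K := by apply QuadraticAlgebra.ext <;> simp [x0, x01]
theorem i0_y0 : i0 D K (y0 D K) = y01 D K := by apply QuadraticAlgebra.ext <;> simp [y0, y01]
theorem i1_u1 : i1 D K (u1 D K) = u01 D K := by apply QuadraticAlgebra.ext <;> simp [u1, u01]

theorem x01_pow (n : ℕ) : x01 D K ^ n = ⟨T n, 0⟩ := by
  have : x01 D K = algebraMap K[T;T⁻¹] _ (T 1) := rfl
  rw [this, ← map_pow, T_pow, QuadraticAlgebra.algebraMap_eq, mul_one]

theorem u01_pow (n : ℕ) : u01 D K ^ n = ⟨T (-n), 0⟩ := by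
  have : u01 D K = algebraMap K[T;T⁻¹] _ (T (-1)) := rfl
  rw [this, ← map_pow, T_pow, QuadraticAlgebra.algebraMap_eq, mul_neg_one]

theorem i1_v1 : i1 D K (v1 D K) = u01 D K ^ D.m * y01 D K := by
  rw [u01_pow]
  apply QuadraticAlgebra.ext <;> simp [v1, y01]

theorem x01_mul_u01 : x01 D K * u01 D K = 1 := by
  have h : (T 1 * T (-1) : K[T;T⁻¹]) = 1 := by rw [← T_add]; rfl
  rw [x01, u01, mk_mul_mk, h]
  simp only [mul_zero, add_zero, zero_mul]
  rfl

theorem i0_injective : Function.Injective (i0 D K) := by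
  intro a b hab
  rw [QuadraticAlgebra.ext_iff] at hab ⊢
  simpa using hab

theorem i1_injective : Function.Injective (i1 D K) := by
  intro a b hab
  rw [QuadraticAlgebra.ext_iff] at hab ⊢
  simp only [i1_re, i1_im] at hab
  obtain ⟨h1, h2⟩ := hab
  have h3 : invert (toLaurent a.im) = invert (toLaurent b.im) := by
    have := congrArg (T D.m * ·) h2
    simpa [← mul_assoc, ← T_add] using this
  exact ⟨by simpa using h1, by simpa using h3⟩

/-! ### Localization -/

theorem isLocalization_i0 :
    letI := (i0 D K).toRingHom.toAlgebra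
    IsLocalization.Away (x0 D K) (R01 D K) := by
  let _ := (i0 D K).toRingHom.toAlgebra
  have hmap : ∀ z, algebraMap (R0 D K) (R01 D K) z = i0 D K z := fun _ ↦ rfl
  refine ⟨?_, ?_, ?_⟩
  · rintro ⟨_, n, rfl⟩
    simp only [map_pow]
    rw [hmap, i0_x0]
    exact (IsUnit.of_mul_eq_one _ (x01_mul_u01 D K)).pow n
  · intro z
    obtain ⟨n, p, hp⟩ := exists_T_pow z.re
    obtain ⟨m, q, hq⟩ := exists_T_pow z.im
    refine ⟨⟨⟨X ^ m * p, X ^ n * q⟩, ⟨x0 D K ^ (n + m), n + m, rfl⟩⟩, ?_⟩
    simp only [map_pow]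
    rw [hmap, hmap, i0_x0, x01_pow]
    apply QuadraticAlgebra.ext
    · simp only [re_mul, i0_re, map_mul, hp, map_pow, toLaurent_X, T_pow, mul_one, mul_zero,
        add_zero, Nat.cast_add, T_add]
      ring
    · simp only [im_mul, i0_im, map_mul, hq, map_pow, toLaurent_X, T_pow, mul_one, mul_zero,
        add_zero, zero_add, Nat.cast_add, T_add]
      ring
  · intro a b hab
    exact ⟨1, by rw [i0_injective D K hab]⟩

theorem isLocalization_i1 :
    letI := (i1 D K).toRingHom.toAlgebra
    IsLocalization.Away (u1 D K) (R01 D K) := by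
  let _ := (i1 D K).toRingHom.toAlgebra
  have hmap : ∀ z, algebraMap (R1 D K) (R01 D K) z = i1 D K z := fun _ ↦ rfl
  refine ⟨?_, ?_, ?_⟩
  · rintro ⟨_, n, rfl⟩
    simp only [map_pow]
    rw [hmap, i1_u1]
    exact (IsUnit.of_mul_eq_one _ ((mul_comm _ _).trans (x01_mul_u01 D K))).pow n
  · intro z
    obtain ⟨n, p, hp⟩ := exists_T_pow (invert z.re)
    obtain ⟨m, q, hq⟩ := exists_T_pow (invert (T D.m * z.im))
    have hp' : invert (toLaurent p) = z.re * T (-n) := by
      rw [hp, map_mul, invert_T]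
      congr 1
      exact involutive_invert _
    have hq' : T (-D.m) * invert (toLaurent q) = z.im * T (-m) := by
      rw [hq, map_mul, invert_T, involutive_invert _]
      have : (T (-D.m) * T D.m : K[T;T⁻¹]) = 1 := by
        rw [← T_add, neg_add_cancel]
        rfl
      linear_combination z.im * T (-m) * this
    refine ⟨⟨⟨X ^ m * p, X ^ n * q⟩, ⟨u1 D K ^ (n + m), n + m, rfl⟩⟩, ?_⟩
    simp only [map_pow]
    rw [hmap, hmap, i1_u1, u01_pow]
    apply QuadraticAlgebra.ext
    · simp only [re_mul, i1_re, map_mul, hp', map_pow, toLaurent_X, invert_T, T_pow, mul_one,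
        mul_zero, add_zero, Nat.cast_add, T_add, neg_add]
      ring
    · simp only [im_mul, i1_im, map_mul, map_pow, toLaurent_X, invert_T, T_pow, mul_one, mul_zero,
        add_zero, zero_add, Nat.cast_add, T_add, neg_add]
      linear_combination -(T (-(n : ℤ))) * hq'
  · intro a b hab
    exact ⟨1, by rw [i1_injective D K hab]⟩

/-! ### Domains -/

theorem isDomain_R01_of (K : Type) [Field K] [IsDomain (R0 D K)] : IsDomain (R01 D K) := by
  let _ := (i0 D K).toRingHom.toAlgebra
  have := isLocalization_i0 D K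
  refine IsLocalization.isDomain_of_le_nonZeroDivisors (R01 D K)
    (M := Submonoid.powers (x0 D K)) ?_
  rintro _ ⟨n, rfl⟩
  refine mem_nonZeroDivisors_of_ne_zero (pow_ne_zero n ?_)
  intro h
  exact X_ne_zero (congrArg QuadraticAlgebra.re h)

theorem isDomain_R1_of (K : Type) [Field K] [IsDomain (R0 D K)] : IsDomain (R1 D K) := by
  have := isDomain_R01_of D K
  exact (i1_injective D K).isDomain (i1 D K).toRingHom

/-! ### Cohomology of the structure sheaf -/

theorem const_of_toLaurent_eq {p q : K[X]} (h : toLaurent p = invert (toLaurent q)) :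
    p = Polynomial.C (p.coeff 0) ∧ q = Polynomial.C (p.coeff 0) := by
  have hn : ∀ n : ℤ, (toLaurent p).coeff n = (toLaurent q).coeff (-n) := fun n ↦ by
    rw [h, invert_apply]
  constructor
  · ext n
    rw [Polynomial.coeff_C]
    split_ifs with h0
    · rw [h0]
    · rw [← coeff_toLaurent_nat, hn, coeff_toLaurent_neg]
      omega
  · ext n
    rw [Polynomial.coeff_C]
    split_ifs with h0
    · rw [h0, ← coeff_toLaurent_nat, ← coeff_toLaurent_nat, hn]
      rfl
    · rw [← coeff_toLaurent_nat, ← neg_neg (n : ℤ), ← hn, coeff_toLaurent_neg]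
      omega

/-- The coefficients which are obstructions to being in `R0 + R1`. -/
noncomputable def obs : R01 D K →ₗ[K] (Fin (D.m - 1) → K) where
  toFun z := fun i ↦ z.im.coeff (-((i : ℕ) + 1 : ℤ))
  map_add' _ _ := rfl
  map_smul' _ _ := rfl

theorem split (f : K[T;T⁻¹]) : ∃ p q : K[X], f = toLaurent p + invert (toLaurent q) := by
  induction f using LaurentPolynomial.induction_on' with
  | add f g hf hg =>
    obtain ⟨p, q, rfl⟩ := hf
    obtain ⟨p', q', rfl⟩ := hg
    exact ⟨p + p', q + q', by simp only [map_add]; ring⟩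
  | C_mul_T n a =>
    rcases le_or_gt 0 n with hn | hn
    · obtain ⟨m, rfl⟩ := Int.eq_ofNat_of_zero_le hn
      exact ⟨Polynomial.C a * X ^ m, 0, by simp⟩
    · obtain ⟨m, hm⟩ := Int.eq_ofNat_of_zero_le (a := -n) (by omega)
      refine ⟨0, Polynomial.C a * X ^ m, ?_⟩
      simp [← hm]

theorem split' {m : ℕ} (f : K[T;T⁻¹]) : ∃ (p q : K[X]) (c : Fin (m - 1) → K),
    f = toLaurent p + T (-m) * invert (toLaurent q) +
      ∑ i, LaurentPolynomial.C (c i) * T (-((i : ℕ) + 1 : ℤ)) := by
  induction f using LaurentPolynomial.induction_on' with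
  | add f g hf hg =>
    obtain ⟨p, q, c, rfl⟩ := hf
    obtain ⟨p', q', c', rfl⟩ := hg
    refine ⟨p + p', q + q', c + c', ?_⟩
    simp only [map_add, Pi.add_apply, add_mul, Finset.sum_add_distrib]
    ring
  | C_mul_T n a =>
    rcases le_or_gt 0 n with hn | hn
    · obtain ⟨k, rfl⟩ := Int.eq_ofNat_of_zero_le hn
      exact ⟨Polynomial.C a * X ^ k, 0, 0, by simp⟩
    · obtain ⟨k, hk⟩ := Int.eq_ofNat_of_zero_le (a := -n - 1) (by omega)
      rcases lt_or_ge k (m - 1) with h | h
      · refine ⟨0, 0, Pi.single ⟨k, h⟩ a, ?_⟩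
        rw [Finset.sum_eq_single (⟨k, h⟩ : Fin (m - 1))]
        · rw [Pi.single_eq_same, map_zero, map_zero, mul_zero, zero_add, zero_add]
          congr 2
          change n = -((k : ℤ) + 1)
          omega
        · intro i _ hi
          rw [Pi.single_eq_of_ne hi, map_zero, zero_mul]
        · intro hi
          exact absurd (Finset.mem_univ _) hi
      · rcases Nat.eq_zero_or_pos m with rfl | hm
        · obtain ⟨l, hl⟩ := Int.eq_ofNat_of_zero_le (a := -n) (by omega)
          refine ⟨0, Polynomial.C a * X ^ l, 0, ?_⟩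
          have h3 : n = -(l : ℤ) := by omega
          simp [h3]
        · obtain ⟨l, hl⟩ := Int.eq_ofNat_of_zero_le (a := -n - m) (by omega)
          refine ⟨0, Polynomial.C a * X ^ l, 0, ?_⟩
          have h3 : n = -(m : ℤ) + -(l : ℤ) := by omega
          rw [h3, T_add]
          simp only [map_mul, Polynomial.toLaurent_C, Polynomial.toLaurent_X_pow, invert_C,
            invert_T, map_zero, Pi.zero_apply, zero_mul, Finset.sum_const_zero, add_zero, zero_add]
          ring

theorem coeff_sum_C_T {m : ℕ} (c : Fin (m - 1) → K) (j : Fin (m - 1)) :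
    (∑ i, LaurentPolynomial.C (c i) * T (-((i : ℕ) + 1 : ℤ)) : K[T;T⁻¹]).coeff
      (-((j : ℕ) + 1 : ℤ)) = c j := by
  rw [AddMonoidAlgebra.coeff_sum, Finsupp.finsetSum_apply, Finset.sum_eq_single j]
  · rw [mul_comm, coeff_T_mul, sub_self, LaurentPolynomial.C_apply, if_pos rfl]
  · intro i _ hi
    rw [mul_comm, coeff_T_mul, LaurentPolynomial.C_apply, if_neg]
    intro h
    apply hi
    apply Fin.ext
    omega
  · intro hj
    exact absurd (Finset.mem_univ _) hj

theorem ker_obs : LinearMap.ker (obs D K) =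
    LinearMap.range (i0 D K).toLinearMap ⊔ LinearMap.range (i1 D K).toLinearMap := by
  apply le_antisymm
  · intro z hz
    obtain ⟨p, q, hpq⟩ := split K z.re
    obtain ⟨p', q', c, hz'⟩ := split' K (m := D.m) z.im
    have h3 : obs D K z = 0 := hz
    have h1 : ∀ j : Fin (D.m - 1), c j = 0 := by
      intro j
      have h2 : z.im.coeff (-((j : ℕ) + 1 : ℤ)) = 0 := congrFun h3 j
      rw [hz', AddMonoidAlgebra.coeff_add, Finsupp.add_apply, coeff_sum_C_T,
        AddMonoidAlgebra.coeff_add, Finsupp.add_apply, coeff_T_mul, invert_apply,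
        coeff_toLaurent_neg _ _ (by omega), coeff_toLaurent_neg _ _ (by omega), zero_add,
        zero_add] at h2
      exact h2
    have h4 : (∑ i, LaurentPolynomial.C (c i) * T (-((i : ℕ) + 1 : ℤ)) : K[T;T⁻¹]) = 0 :=
      Finset.sum_eq_zero fun i _ ↦ by rw [h1, map_zero, zero_mul]
    rw [h4, add_zero] at hz'
    refine Submodule.mem_sup.2 ⟨_, ⟨⟨p, p'⟩, rfl⟩, _, ⟨⟨q, q'⟩, rfl⟩, ?_⟩
    apply QuadraticAlgebra.ext
    · exact hpq.symm
    · exact hz'.symm
  · apply sup_le
    · rintro _ ⟨z, rfl⟩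
      rw [LinearMap.mem_ker]
      funext j
      change (toLaurent z.im).coeff (-((j : ℕ) + 1 : ℤ)) = 0
      rw [coeff_toLaurent_neg _ _ (by omega)]
    · rintro _ ⟨z, rfl⟩
      rw [LinearMap.mem_ker]
      funext j
      change (T (-D.m) * invert (toLaurent z.im)).coeff (-((j : ℕ) + 1 : ℤ)) = 0
      rw [coeff_T_mul, invert_apply, coeff_toLaurent_neg _ _ (by omega)]

theorem obs_surjective : Function.Surjective (obs D K) := by
  intro c
  refine ⟨⟨0, ∑ i, LaurentPolynomial.C (c i) * T (-((i : ℕ) + 1 : ℤ))⟩, ?_⟩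
  funext j
  exact coeff_sum_C_T K c j

/-! ### Universal properties -/

section univ

variable {K} {B : Type} [CommRing B] [Algebra K B]

/-- Homomorphisms out of the quadratic algebra over `K[X]`. -/
noncomputable def liftQ {a b : K[X]} (x y : B)
    (h : y * y = aeval x a + aeval x b * y) : QuadraticAlgebra K[X] a b →ₐ[K] B where
  toFun z := aeval x z.re + aeval x z.im * y
  map_one' := by simp
  map_mul' z w := by
    simp only [re_mul, im_mul, map_add, map_mul]
    linear_combination -(aeval x z.im * aeval x w.im) * h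
  map_zero' := by simp
  map_add' z w := by
    simp only [re_add, im_add, map_add]
    ring
  commutes' r := by
    change aeval x (algebraMap K K[X] r) + aeval x (0 : K[X]) * y = _
    simp

theorem liftQ_apply {a b : K[X]} (x y : B)
    (h : y * y = aeval x a + aeval x b * y) (z : QuadraticAlgebra K[X] a b) :
    liftQ x y h z = aeval x z.re + aeval x z.im * y := rfl

@[simp] theorem liftQ_x {a b : K[X]} (x y : B) (h : y * y = aeval x a + aeval x b * y) :
    liftQ x y h ⟨X, 0⟩ = x := by
  simp [liftQ_apply]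

@[simp] theorem liftQ_y {a b : K[X]} (x y : B) (h : y * y = aeval x a + aeval x b * y) :
    liftQ x y h ⟨0, 1⟩ = y := by
  simp [liftQ_apply]

theorem algHom_extQ {a b : K[X]} {φ ψ : QuadraticAlgebra K[X] a b →ₐ[K] B}
    (hx : φ ⟨X, 0⟩ = ψ ⟨X, 0⟩) (hy : φ ⟨0, 1⟩ = ψ ⟨0, 1⟩) : φ = ψ := by
  have hz : ∀ z : QuadraticAlgebra K[X] a b,
      z = algebraMap K[X] _ z.re + algebraMap K[X] _ z.im * ⟨0, 1⟩ := by
    intro z
    apply QuadraticAlgebra.ext <;> simp
  have h : φ.comp (IsScalarTower.toAlgHom K K[X] (QuadraticAlgebra K[X] a b)) =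
      ψ.comp (IsScalarTower.toAlgHom K K[X] (QuadraticAlgebra K[X] a b)) := by
    apply Polynomial.algHom_ext
    exact hx
  have h' : ∀ p : K[X], φ (algebraMap K[X] _ p) = ψ (algebraMap K[X] _ p) := fun p ↦
    congrArg (· p) h
  ext z
  rw [hz z, map_add, map_mul, map_add, map_mul, h', h', hy]

/-- A `B`-valued point of `Spec R0` -/
noncomputable def lift0 (x y : B)
    (h : y * y = aeval x (a0 D K) + aeval x (b0 D K) * y) : R0 D K →ₐ[K] B :=
  liftQ x y h

/-- A `B`-valued point of `Spec R1` -/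
noncomputable def lift1 (u v : B)
    (h : v * v = aeval u (a1 D K) + aeval u (b1 D K) * v) : R1 D K →ₐ[K] B :=
  liftQ u v h

@[simp] theorem lift0_x0 (x y : B) (h : y * y = aeval x (a0 D K) + aeval x (b0 D K) * y) :
    lift0 D x y h (x0 D K) = x := liftQ_x x y h

@[simp] theorem lift0_y0 (x y : B) (h : y * y = aeval x (a0 D K) + aeval x (b0 D K) * y) :
    lift0 D x y h (y0 D K) = y := liftQ_y x y h

@[simp] theorem lift1_u1 (u v : B) (h : v * v = aeval u (a1 D K) + aeval u (b1 D K) * v) :
    lift1 D u v h (u1 D K) = u := liftQ_x u v h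

@[simp] theorem lift1_v1 (u v : B) (h : v * v = aeval u (a1 D K) + aeval u (b1 D K) * v) :
    lift1 D u v h (v1 D K) = v := liftQ_y u v h

theorem algHom_ext0 {φ ψ : R0 D K →ₐ[K] B} (hx : φ (x0 D K) = ψ (x0 D K))
    (hy : φ (y0 D K) = ψ (y0 D K)) : φ = ψ := algHom_extQ hx hy

theorem algHom_ext1 {φ ψ : R1 D K →ₐ[K] B} (hx : φ (u1 D K) = ψ (u1 D K))
    (hy : φ (v1 D K) = ψ (v1 D K)) : φ = ψ := algHom_extQ hx hy

variable (K) in
theorem aeval_x0 (p : K[X]) : aeval (x0 D K) p = algebraMap K[X] (R0 D K) p := by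
  have : x0 D K = algebraMap K[X] (R0 D K) X := rfl
  rw [this, aeval_algebraMap_apply, aeval_X_left_apply]

variable (K) in
theorem aeval_u1 (p : K[X]) : aeval (u1 D K) p = algebraMap K[X] (R1 D K) p := by
  have : u1 D K = algebraMap K[X] (R1 D K) X := rfl
  rw [this, aeval_algebraMap_apply, aeval_X_left_apply]

variable (K) in
theorem y0_mul_y0 : y0 D K * y0 D K =
    aeval (x0 D K) (a0 D K) + aeval (x0 D K) (b0 D K) * y0 D K := by
  rw [aeval_x0, aeval_x0]
  apply QuadraticAlgebra.ext <;> simp [y0]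

variable (K) in
theorem v1_mul_v1 : v1 D K * v1 D K =
    aeval (u1 D K) (a1 D K) + aeval (u1 D K) (b1 D K) * v1 D K := by
  rw [aeval_u1, aeval_u1]
  apply QuadraticAlgebra.ext <;> simp [v1]

end univ

/-! ### Base change -/

section baseChange

variable (L : Type) [CommRing L] [Algebra K L]

/-- Functoriality of quadratic algebras. -/
def quadMap {K A B : Type} [CommRing K] [CommRing A] [CommRing B] [Algebra K A] [Algebra K B]
    (φ : A →ₐ[K] B) {a b : A} {a' b' : B} (ha : φ a = a') (hb : φ b = b') :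
    QuadraticAlgebra A a b →ₐ[K] QuadraticAlgebra B a' b' where
  toFun z := ⟨φ z.re, φ z.im⟩
  map_one' := by apply QuadraticAlgebra.ext <;> simp
  map_mul' z w := by subst ha hb; apply QuadraticAlgebra.ext <;> simp
  map_zero' := by apply QuadraticAlgebra.ext <;> simp
  map_add' z w := by apply QuadraticAlgebra.ext <;> simp
  commutes' r := by
    apply QuadraticAlgebra.ext
    · exact φ.commutes r
    · exact map_zero φ

theorem isBaseChange_quadMap {K L A B : Type} [CommRing K] [CommRing L] [CommRing A] [CommRing B]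
    [Algebra K L] [Algebra K A] [Algebra K B] [Algebra L B] [IsScalarTower K L B]
    (φ : A →ₐ[K] B) {a b : A} {a' b' : B} (ha : φ a = a') (hb : φ b = b')
    (h : IsBaseChange L φ.toLinearMap) : IsBaseChange L (quadMap φ ha hb).toLinearMap := by
  let eM : QuadraticAlgebra A a b ≃ₗ[K] A × A :=
    { QuadraticAlgebra.equivProd a b with
      map_add' := fun _ _ ↦ rfl
      map_smul' := fun _ _ ↦ rfl }
  let eN : QuadraticAlgebra B a' b' ≃ₗ[L] B × B :=
    { QuadraticAlgebra.equivProd a' b' with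
      map_add' := fun _ _ ↦ rfl
      map_smul' := fun _ _ ↦ rfl }
  exact (IsBaseChange.iff_of_equiv_comm eM eN (f' := φ.toLinearMap.prodMap φ.toLinearMap) rfl).2
    (IsBaseChange.prodMap _ _ h h)

theorem isBaseChange_poly :
    IsBaseChange L (Polynomial.mapAlgHom (Algebra.ofId K L)).toLinearMap := by
  refine .of_equiv (polyEquivTensor' K L).symm.toLinearEquiv fun p ↦ ?_
  refine (polyEquivTensor_symm_apply_tmul_eq_smul ..).trans ?_
  rw [one_smul]
  rfl

theorem isBaseChange_laurent :
    IsBaseChange L (AddMonoidAlgebra.mapAlgHom ℤ (Algebra.ofId K L)).toLinearMap := by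
  refine .of_equiv (AddMonoidAlgebra.scalarTensorEquiv K L).toLinearEquiv fun p ↦ ?_
  refine (AddMonoidAlgebra.scalarTensorEquiv_tmul ..).trans ?_
  rw [one_smul]
  rfl

theorem mapAlgHom_toLaurent (p : K[X]) :
    AddMonoidAlgebra.mapAlgHom ℤ (Algebra.ofId K L) (toLaurent p) =
      toLaurent (p.map (algebraMap K L)) := by
  ext n
  rw [AddMonoidAlgebra.coeff_mapAlgHom]
  rcases le_or_gt 0 n with hn | hn
  · obtain ⟨m, rfl⟩ := Int.eq_ofNat_of_zero_le hn
    rw [coeff_toLaurent_nat, coeff_toLaurent_nat, coeff_map]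
    rfl
  · rw [coeff_toLaurent_neg _ _ hn, coeff_toLaurent_neg _ _ hn, map_zero]

/-- `R0 K → R0 L` -/
noncomputable def map0 : R0 D K →ₐ[K] R0 D L :=
  quadMap (Polynomial.mapAlgHom (Algebra.ofId K L)) (map_a0 D K (algebraMap K L))
    (map_b0 D K (algebraMap K L))

/-- `R1 K → R1 L` -/
noncomputable def map1 : R1 D K →ₐ[K] R1 D L :=
  quadMap (Polynomial.mapAlgHom (Algebra.ofId K L)) (map_a1 D K (algebraMap K L))
    (map_b1 D K (algebraMap K L))

/-- `R01 K → R01 L` -/
noncomputable def map01 : R01 D K →ₐ[K] R01 D L :=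
  quadMap (AddMonoidAlgebra.mapAlgHom ℤ (Algebra.ofId K L))
    (by rw [mapAlgHom_toLaurent, map_a0]) (by rw [mapAlgHom_toLaurent, map_b0])

theorem isBaseChange_map0 : IsBaseChange L (map0 D K L).toLinearMap :=
  isBaseChange_quadMap _ _ _ (isBaseChange_poly K L)

theorem isBaseChange_map1 : IsBaseChange L (map1 D K L).toLinearMap :=
  isBaseChange_quadMap _ _ _ (isBaseChange_poly K L)

theorem isBaseChange_map01 : IsBaseChange L (map01 D K L).toLinearMap :=
  isBaseChange_quadMap _ _ _ (isBaseChange_laurent K L)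

@[simp] theorem map0_x0 : map0 D K L (x0 D K) = x0 D L := by
  apply QuadraticAlgebra.ext <;> simp [map0, quadMap, x0]

@[simp] theorem map0_y0 : map0 D K L (y0 D K) = y0 D L := by
  apply QuadraticAlgebra.ext <;> simp [map0, quadMap, y0]

@[simp] theorem map1_u1 : map1 D K L (u1 D K) = u1 D L := by
  apply QuadraticAlgebra.ext <;> simp [map1, quadMap, u1]

@[simp] theorem map1_v1 : map1 D K L (v1 D K) = v1 D L := by
  apply QuadraticAlgebra.ext <;> simp [map1, quadMap, v1]

theorem map01_i0 (z : R0 D K) : map01 D K L (i0 D K z) = i0 D L (map0 D K L z) := by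
  apply QuadraticAlgebra.ext
  · exact mapAlgHom_toLaurent K L z.re
  · exact mapAlgHom_toLaurent K L z.im

theorem mapAlgHom_invert (f : K[T;T⁻¹]) :
    AddMonoidAlgebra.mapAlgHom ℤ (Algebra.ofId K L) (invert f) =
      invert (AddMonoidAlgebra.mapAlgHom ℤ (Algebra.ofId K L) f) := by
  ext n
  rw [AddMonoidAlgebra.coeff_mapAlgHom, invert_apply, invert_apply,
    AddMonoidAlgebra.coeff_mapAlgHom]

theorem map01_i1 (z : R1 D K) : map01 D K L (i1 D K z) = i1 D L (map1 D K L z) := by
  apply QuadraticAlgebra.ext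
  · change AddMonoidAlgebra.mapAlgHom ℤ (Algebra.ofId K L) (invert (toLaurent z.re)) = _
    rw [mapAlgHom_invert, mapAlgHom_toLaurent]
    rfl
  · change AddMonoidAlgebra.mapAlgHom ℤ (Algebra.ofId K L)
      (T (-D.m) * invert (toLaurent z.im)) = _
    rw [map_mul, mapAlgHom_invert, mapAlgHom_toLaurent]
    congr 1
    ext n
    rw [AddMonoidAlgebra.coeff_mapAlgHom, LaurentPolynomial.T_apply, LaurentPolynomial.T_apply]
    split_ifs <;> simp

end baseChange

end rings

end Pool.Agent.H27.HC
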