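import Pool.Agent.H27.HC.Ring

/-!
# Hyperelliptic curves: the scheme
-/

open CategoryTheory AlgebraicGeometry Limits

namespace Pool.Agent.H27.HC

section

variable (D : Dat) (K : Type) [CommRing K]

/-- `Spec (R0 D K)` -/
noncomputable abbrev S0 : Scheme.{0} := Spec (CommRingCat.of (R0 D K))

/-- `Spec (R1 D K)` -/
noncomputable abbrev S1 : Scheme.{0} := Spec (CommRingCat.of (R1 D K))

/-- `Spec (R01 D K)` -/
noncomputable abbrev S01 : Scheme.{0} := Spec (CommRingCat.of (R01 D K))

/-- The gluing map `S01 ⟶ S0` -/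
noncomputable def s0 : S01 D K ⟶ S0 D K := Spec.map (CommRingCat.ofHom (i0 D K).toRingHom)

/-- The gluing map `S01 ⟶ S1` -/
noncomputable def s1 : S01 D K ⟶ S1 D K := Spec.map (CommRingCat.ofHom (i1 D K).toRingHom)

instance : IsOpenImmersion (s0 D K) := by
  let _ := (i0 D K).toRingHom.toAlgebra
  have := isLocalization_i0 D K
  exact IsOpenImmersion.of_isLocalization (x0 D K)

instance : IsOpenImmersion (s1 D K) := by
  let _ := (i1 D K).toRingHom.toAlgebra
  have := isLocalization_i1 D K
  exact IsOpenImmersion.of_isLocalization (u1 D K)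

/-- The curve, as a scheme. -/
noncomputable def CS : Scheme.{0} := pushout (s0 D K) (s1 D K)

noncomputable def j0 : S0 D K ⟶ CS D K := pushout.inl _ _
noncomputable def j1 : S1 D K ⟶ CS D K := pushout.inr _ _
noncomputable def j01 : S01 D K ⟶ CS D K := s0 D K ≫ j0 D K

instance : IsOpenImmersion (j0 D K) := by
  unfold j0 pushout.inl
  exact Scheme.IsLocallyDirected.instIsOpenImmersionι ..

instance : IsOpenImmersion (j1 D K) := by
  unfold j1 pushout.inr
  exact Scheme.IsLocallyDirected.instIsOpenImmersionι ..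

instance : IsOpenImmersion (j01 D K) := by
  unfold j01
  infer_instance

theorem s0_j0 : s0 D K ≫ j0 D K = s1 D K ≫ j1 D K := pushout.condition

theorem exists_of_point (x : CS D K) : (∃ y, j0 D K y = x) ∨ (∃ y, j1 D K y = x) := by
  obtain ⟨i, y, rfl⟩ := Scheme.IsLocallyDirected.ι_jointly_surjective (span (s0 D K) (s1 D K)) x
  rcases i with _ | _ | _
  · left
    refine ⟨s0 D K y, ?_⟩
    have h := colimit.w (span (s0 D K) (s1 D K)) WalkingSpan.Hom.fst
    rw [← h]
    rfl
  · left
    exact ⟨y, rfl⟩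
  · right
    exact ⟨y, rfl⟩

theorem exists_of_j0_eq_j1 {a : S0 D K} {b : S1 D K} (h : j0 D K a = j1 D K b) :
    ∃ c : S01 D K, s0 D K c = a ∧ s1 D K c = b := by
  obtain ⟨k, fi, fj, c, h1, h2⟩ :=
    (Scheme.IsLocallyDirected.ι_eq_ι_iff (span (s0 D K) (s1 D K)) (i := WalkingSpan.left)
      (j := WalkingSpan.right) (xi := a) (xj := b)).1 h
  rcases fi with _ | _
  · rcases fj
  · rcases fj
    exact ⟨c, h1, h2⟩

theorem isPullback : IsPullback (s0 D K) (s1 D K) (j0 D K) (j1 D K) := by
  have h1 : IsOpenImmersion (pullback.lift (s0 D K) (s1 D K) (s0_j0 D K)) := by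
    have : IsOpenImmersion (pullback.lift (s0 D K) (s1 D K) (s0_j0 D K) ≫
        pullback.fst (j0 D K) (j1 D K)) := by
      rw [pullback.lift_fst]
      infer_instance
    exact IsOpenImmersion.of_comp _ (pullback.fst (j0 D K) (j1 D K))
  have h2 : Function.Surjective (pullback.lift (s0 D K) (s1 D K) (s0_j0 D K)) := by
    intro z
    obtain ⟨c, h3, h4⟩ := exists_of_j0_eq_j1 D K (a := pullback.fst (j0 D K) (j1 D K) z)
      (b := pullback.snd (j0 D K) (j1 D K) z) (by
        rw [← Scheme.Hom.comp_apply, ← Scheme.Hom.comp_apply, pullback.condition])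
    refine ⟨c, ?_⟩
    apply (pullback.fst (j0 D K) (j1 D K)).isOpenEmbedding.injective
    rw [← Scheme.Hom.comp_apply, pullback.lift_fst, h3]
  have h3 : Epi (pullback.lift (s0 D K) (s1 D K) (s0_j0 D K)).base := by
    rw [TopCat.epi_iff_surjective]
    exact h2
  have h4 : IsIso (pullback.lift (s0 D K) (s1 D K) (s0_j0 D K)) := IsOpenImmersion.isIso _
  exact IsPullback.of_iso_pullback ⟨s0_j0 D K⟩ (asIso (pullback.lift (s0 D K) (s1 D K) (s0_j0 D K)))
    (pullback.lift_fst _ _ _) (pullback.lift_snd _ _ _)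

/-- The structure map. -/
noncomputable def str : CS D K ⟶ Spec (CommRingCat.of K) :=
  pushout.desc (Spec.map (CommRingCat.ofHom (algebraMap K (R0 D K))))
    (Spec.map (CommRingCat.ofHom (algebraMap K (R1 D K)))) (by
      unfold s0 s1
      rw [← Spec.map_comp, ← Spec.map_comp]
      congr 1
      apply CommRingCat.hom_ext
      apply RingHom.ext
      intro r
      change i0 D K (algebraMap K _ r) = i1 D K (algebraMap K _ r)
      rw [AlgHom.commutes, AlgHom.commutes])

@[reassoc]
theorem j0_str : j0 D K ≫ str D K = Spec.map (CommRingCat.ofHom (algebraMap K (R0 D K))) :=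
  pushout.inl_desc _ _ _

@[reassoc]
theorem j1_str : j1 D K ≫ str D K = Spec.map (CommRingCat.ofHom (algebraMap K (R1 D K))) :=
  pushout.inr_desc _ _ _

/-- The curve. -/
noncomputable def C : Over (Spec (CommRingCat.of K)) := Over.mk (str D K)

/-- The affine open cover of the curve. -/
noncomputable def cover : (CS D K).OpenCover where
  I₀ := Bool
  X b := match b with
    | false => S0 D K
    | true => S1 D K
  f b := match b with
    | false => j0 D K
    | true => j1 D K
  mem₀ := by
    rw [Scheme.presieve₀_mem_precoverage_iff]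
    refine ⟨fun x ↦ ?_, ?_⟩
    · rcases exists_of_point D K x with ⟨y, hy⟩ | ⟨y, hy⟩
      · exact ⟨false, y, hy⟩
      · exact ⟨true, y, hy⟩
    · rintro (_ | _)
      · exact inferInstanceAs (IsOpenImmersion (j0 D K))
      · exact inferInstanceAs (IsOpenImmersion (j1 D K))

end

end Pool.Agent.H27.HC
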