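import Pool.Agent.H27.HC.Proper
import Pool.Agent.H27.HC.GenS

/-!
# Hyperelliptic curves: sections of the structure sheaf over the two charts, Čech cohomology
-/

open CategoryTheory AlgebraicGeometry Limits

namespace Pool.Agent.H27.HC

/-! ### The charts -/

section

variable (D : Dat) (K : Type) [CommRing K]

/-- The first chart as an open subset. -/
noncomputable def U0 : (CS D K).Opens := (j0 D K).opensRange

/-- The second chart as an open subset. -/
noncomputable def U1 : (CS D K).Opens := (j1 D K).opensRange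

theorem isAffineOpen_U0 : IsAffineOpen (U0 D K) := isAffineOpen_opensRange _

theorem isAffineOpen_U1 : IsAffineOpen (U1 D K) := isAffineOpen_opensRange _

theorem U0_sup_U1 : U0 D K ⊔ U1 D K = ⊤ := by
  ext x
  simp only [TopologicalSpace.Opens.coe_sup, TopologicalSpace.Opens.coe_top, Set.mem_univ, iff_true]
  exact exists_of_point D K x

theorem opensRange_j01 : (j01 D K).opensRange = U0 D K ⊓ U1 D K := by
  ext x
  constructor
  · rintro ⟨c, rfl⟩
    refine ⟨⟨s0 D K c, ?_⟩, ⟨s1 D K c, ?_⟩⟩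
    · rw [← Scheme.Hom.comp_apply]
      rfl
    · rw [← Scheme.Hom.comp_apply, ← s0_j0]
      rfl
  · rintro ⟨⟨a, ha⟩, ⟨b, hb⟩⟩
    obtain ⟨c, rfl, -⟩ := exists_of_j0_eq_j1 D K (ha.trans hb.symm)
    refine ⟨c, ?_⟩
    rw [← ha, ← Scheme.Hom.comp_apply]
    rfl

theorem top_le_U0 : ⊤ ≤ j0 D K ⁻¹ᵁ U0 D K := fun x _ ↦ ⟨x, rfl⟩

theorem top_le_U1 : ⊤ ≤ j1 D K ⁻¹ᵁ U1 D K := fun x _ ↦ ⟨x, rfl⟩

theorem top_le_U01 : ⊤ ≤ j01 D K ⁻¹ᵁ (U0 D K ⊓ U1 D K) := by
  rw [← opensRange_j01]
  exact fun x _ ↦ ⟨x, rfl⟩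

theorem isAffineOpen_U01 : IsAffineOpen (U0 D K ⊓ U1 D K) := by
  rw [← opensRange_j01]
  exact isAffineOpen_opensRange _

/-- Sections over the first chart. -/
noncomputable def sec0 : Γ(CS D K, U0 D K) ≃+* R0 D K :=
  RingEquiv.ofBijective _ (sec_bijective (j0 D K) (U0 D K) rfl (top_le_U0 D K))

/-- Sections over the second chart. -/
noncomputable def sec1 : Γ(CS D K, U1 D K) ≃+* R1 D K :=
  RingEquiv.ofBijective _ (sec_bijective (j1 D K) (U1 D K) rfl (top_le_U1 D K))

/-- Sections over the intersection of the two charts. -/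
noncomputable def sec01 : Γ(CS D K, U0 D K ⊓ U1 D K) ≃+* R01 D K :=
  RingEquiv.ofBijective _ (sec_bijective (j01 D K) (U0 D K ⊓ U1 D K) (opensRange_j01 D K) (top_le_U01 D K))

theorem sec01_restrict0 (s : Γ(CS D K, U0 D K)) :
    sec01 D K (((CS D K).presheaf.map (homOfLE inf_le_left).op).hom s) = i0 D K (sec0 D K s) :=
  sec_restrict (i0 D K).toRingHom (j0 D K) (U0 D K) (U0 D K ⊓ U1 D K) inf_le_left (top_le_U0 D K) (j01 D K)
    (top_le_U01 D K) rfl s

theorem sec01_restrict1 (s : Γ(CS D K, U1 D K)) :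
    sec01 D K (((CS D K).presheaf.map (homOfLE inf_le_right).op).hom s) = i1 D K (sec1 D K s) :=
  sec_restrict (i1 D K).toRingHom (j1 D K) (U1 D K) (U0 D K ⊓ U1 D K) inf_le_right (top_le_U1 D K) (j01 D K)
    (top_le_U01 D K) (s0_j0 D K).symm s

theorem sec01_structHom (c : K) :
    sec01 D K (structHom (C D K) (U0 D K ⊓ U1 D K) c) = algebraMap K (R01 D K) c := by
  refine sec_structHom (C D K) (j01 D K) ?_ (U0 D K ⊓ U1 D K) (top_le_U01 D K) c
  change (s0 D K ≫ j0 D K) ≫ str D K = _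
  rw [Category.assoc, j0_str, s0, ← Spec.map_comp]
  congr 1
  apply CommRingCat.hom_ext
  apply RingHom.ext
  intro r
  exact AlgHom.commutes (i0 D K) r

end

section

variable (D : Dat) (K : Type) [Field K]

attribute [local instance] secAlgebra

/-- The first chart as an open subset of `C D K`. -/
noncomputable abbrev U0' : (C D K).left.Opens := U0 D K

/-- The second chart as an open subset of `C D K`. -/
noncomputable abbrev U1' : (C D K).left.Opens := U1 D K

/-- The obstruction map on sections. -/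
noncomputable def obsSec : Γ((C D K).left, U0' D K ⊓ U1' D K) →ₗ[K] (Fin (D.m - 1) → K) where
  toFun s := obs D K (sec01 D K s)
  map_add' a b := (congrArg (obs D K) (map_add (sec01 D K) a b)).trans (map_add (obs D K) _ _)
  map_smul' c s := by
    have h : sec01 D K (c • s) = c • sec01 D K s :=
      (map_mul (sec01 D K) _ _).trans ((congrArg (· * sec01 D K s) (sec01_structHom D K c)).trans
        (Algebra.smul_def (A := R01 D K) _ _).symm)
    exact (congrArg (obs D K) h).trans (map_smul (obs D K) _ _)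

theorem obsSec_surjective : Function.Surjective (obsSec D K) := by
  intro z
  obtain ⟨w, hw⟩ := obs_surjective D K z
  obtain ⟨s, hs⟩ := (sec01 D K).surjective w
  refine ⟨s, ?_⟩
  change obs D K (sec01 D K s) = z
  rw [hs, hw]

theorem ker_obsSec : LinearMap.ker (obsSec D K) =
    LinearMap.range (resLin (C D K) (U0' D K) (U0' D K ⊓ U1' D K) inf_le_left) ⊔
      LinearMap.range (resLin (C D K) (U1' D K) (U0' D K ⊓ U1' D K) inf_le_right) := by
  have key (s : Γ((C D K).left, U0' D K ⊓ U1' D K)) : s ∈ LinearMap.ker (obsSec D K) ↔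
      sec01 D K s ∈ LinearMap.ker (obs D K) := Iff.rfl
  ext s
  rw [key, ker_obs, Submodule.mem_sup, Submodule.mem_sup]
  constructor
  · rintro ⟨_, ⟨a, rfl⟩, _, ⟨b, rfl⟩, hab⟩
    obtain ⟨a, rfl⟩ := (sec0 D K).surjective a
    obtain ⟨b, rfl⟩ := (sec1 D K).surjective b
    refine ⟨_, ⟨a, rfl⟩, _, ⟨b, rfl⟩, ?_⟩
    apply (sec01 D K).injective
    exact (map_add (sec01 D K) _ _).trans
      ((congrArg₂ (· + ·) (sec01_restrict0 D K a) (sec01_restrict1 D K b)).trans hab)
  · rintro ⟨_, ⟨a, rfl⟩, _, ⟨b, rfl⟩, rfl⟩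
    refine ⟨_, ⟨sec0 D K a, rfl⟩, _, ⟨sec1 D K b, rfl⟩, ?_⟩
    exact ((map_add (sec01 D K) _ _).trans
      (congrArg₂ (· + ·) (sec01_restrict0 D K a) (sec01_restrict1 D K b))).symm

/-- The curve has genus `m - 1`. -/
theorem hasGenus_C : HasGenus (C D K) (D.m - 1) := by
  have e : CechH1 (C D K) (U0' D K) (U1' D K) ≃ₗ[K] (Fin (D.m - 1) → K) :=
    (Submodule.quotEquivOfEq _ _ (ker_obsSec D K).symm).trans
      ((obsSec D K).quotKerEquivOfSurjective (obsSec_surjective D K))
  exact hasGenus_of_finrank (C D K) (D.m - 1) (U0' D K) (U1' D K) (isAffineOpen_U0 D K) (isAffineOpen_U1 D K)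
    (U0_sup_U1 D K) (Module.Finite.equiv e.symm) (by rw [e.finrank_eq]; simp)

end

end Pool.Agent.H27.HC
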