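import Pool.Agent.H27.HC.Scheme
import Pool.Agent.H27.HC.Good

/-!
# Hyperelliptic curves: smoothness
-/

open CategoryTheory AlgebraicGeometry Limits Polynomial QuadraticAlgebra

namespace Pool.Agent.H27.HC

section

variable (K : Type) [CommRing K]

theorem stdSmooth_polynomial [Nontrivial K] : Algebra.IsStandardSmoothOfRelativeDimension 1 K K[X] := by
  let b : Module.Basis Unit K[X] (Ω[K[X]⁄K]) :=
    (Module.Basis.singleton Unit K[X]).map (KaehlerDifferential.polynomialEquiv K).symm
  have : Algebra.IsStandardSmooth K K[X] := by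
    rw [Algebra.IsStandardSmooth.iff_exists_basis_kaehlerDifferential]
    refine ⟨inferInstance, Unit, b, ?_⟩
    rintro _ ⟨i, rfl⟩
    refine ⟨X, ?_⟩
    simp [b]
  rw [Algebra.IsStandardSmoothOfRelativeDimension.iff_of_isStandardSmooth]
  rw [(KaehlerDifferential.polynomialEquiv K).rank_eq]
  simp

variable {K}

theorem stdSmooth_of_equiv [Nontrivial K] {S : Type} [CommRing S] [Algebra K S] (F : K[X][X]) (hF : F.Monic)
    (e : AdjoinRoot F ≃ₐ[K] S) (d : S) (hd : e (AdjoinRoot.mk F (derivative F)) = d) :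
    Algebra.IsStandardSmoothOfRelativeDimension 1 K (Localization.Away d) := by
  let P : StandardEtalePair K[X] := ⟨F, hF, derivative F, 1, 0, 1, by simp⟩
  have h1 : Algebra.Etale K[X] (Localization.Away (AdjoinRoot.mk F (derivative F))) :=
    Algebra.Etale.of_equiv P.equivAwayAdjoinRoot
  rw [Algebra.Etale.iff_isStandardSmoothOfRelativeDimension_zero] at h1
  have h2 := stdSmooth_polynomial K
  have h3 : Algebra.IsStandardSmoothOfRelativeDimension (0 + 1) K
      (Localization.Away (AdjoinRoot.mk F (derivative F))) :=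
    Algebra.IsStandardSmoothOfRelativeDimension.trans 1 0 K K[X] _
  rw [zero_add] at h3
  exact Algebra.IsStandardSmoothOfRelativeDimension.of_algEquiv 1
    (IsLocalization.algEquivOfAlgEquiv (M := Submonoid.powers (AdjoinRoot.mk F (derivative F)))
      (T := Submonoid.powers d) (Localization.Away (AdjoinRoot.mk F (derivative F)))
      (Localization.Away d) e (by
        rw [Submonoid.map_powers]
        exact congrArg _ hd))

/-! ### The two projections -/

variable (c : K) (a b : K[X])

/-- The equation, as a polynomial in `y` over `K[x]`. -/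
noncomputable def eqY : K[X][X] := X ^ 2 - (Polynomial.C b * X + Polynomial.C a)

/-- The equation times a constant, as a polynomial in `x` over `K[y]`. -/
noncomputable def eqX : K[X][X] := Polynomial.C (Polynomial.C c) *
  (a.map Polynomial.C + (b.map Polynomial.C * Polynomial.C X - Polynomial.C (X ^ 2)))

theorem eqY_monic : (eqY a b).Monic := by
  apply monic_X_pow_sub
  compute_degree!

theorem eqX_monic [Nontrivial K] (hca : c * a.leadingCoeff = 1)
    (hb : b.natDegree < a.natDegree) : (eqX c a b).Monic := by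
  have hu : IsUnit a.leadingCoeff := IsUnit.of_mul_eq_one c ((mul_comm _ _).trans hca)
  have ha0 : a ≠ 0 := by
    rintro rfl
    rw [leadingCoeff_zero, mul_zero] at hca
    exact zero_ne_one hca
  have e0 : (a.map Polynomial.C : K[X][X]).leadingCoeff = Polynomial.C a.leadingCoeff :=
    leadingCoeff_map_of_leadingCoeff_ne_zero _ (by
      intro h
      exact hu.ne_zero (Polynomial.C_injective (h.trans Polynomial.C_0.symm)))
  have e1 : (a.map Polynomial.C : K[X][X]).degree = (a.natDegree : ℕ) := by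
    rw [degree_map_eq_of_injective Polynomial.C_injective, degree_eq_natDegree ha0]
  have e2 : (b.map Polynomial.C * Polynomial.C X - Polynomial.C (X ^ 2) : K[X][X]).degree <
      (a.map Polynomial.C : K[X][X]).degree := by
    rw [e1]
    refine lt_of_le_of_lt (degree_sub_le _ _) (max_lt ?_ ?_)
    · refine lt_of_le_of_lt (degree_mul_le _ _) ?_
      have e2 : (b.map Polynomial.C : K[X][X]).degree ≤ (b.natDegree : ℕ) :=
        (degree_map_le).trans degree_le_natDegree
      have e3 : (Polynomial.C (X : K[X])).degree ≤ (0 : ℕ) := degree_C_le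
      refine lt_of_le_of_lt (add_le_add e2 e3) ?_
      norm_cast
    · refine lt_of_le_of_lt degree_C_le ?_
      norm_cast
      omega
  have e3 : (a.map Polynomial.C + (b.map Polynomial.C * Polynomial.C X -
      Polynomial.C (X ^ 2)) : K[X][X]).leadingCoeff = Polynomial.C a.leadingCoeff := by
    rw [leadingCoeff_add_of_degree_lt' e2, e0]
  unfold eqX
  have hc : IsUnit (Polynomial.C c : K[X]) := (IsUnit.of_mul_eq_one _ hca).map Polynomial.C
  rw [Monic, leadingCoeff_C_mul_of_isUnit hc, e3, ← Polynomial.C_mul, hca, Polynomial.C_1]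

theorem root_eqY : AdjoinRoot.root (eqY a b) * AdjoinRoot.root (eqY a b) =
    AdjoinRoot.of (eqY a b) a + AdjoinRoot.of (eqY a b) b * AdjoinRoot.root (eqY a b) := by
  have h1 : AdjoinRoot.mk (eqY a b) (X ^ 2 - (Polynomial.C b * X + Polynomial.C a)) = 0 :=
    AdjoinRoot.mk_self
  rw [map_sub, map_add, map_mul, map_pow, AdjoinRoot.mk_X, AdjoinRoot.mk_C, AdjoinRoot.mk_C] at h1
  linear_combination h1

theorem aeval_of {F : K[X][X]} (p : K[X]) : aeval (AdjoinRoot.of F X) p = AdjoinRoot.of F p := by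
  have : AdjoinRoot.of F X = algebraMap K[X] (AdjoinRoot F) X := rfl
  rw [this, aeval_algebraMap_apply, aeval_X_left_apply]
  rfl

theorem algHom_extA {F : K[X][X]} {B : Type} [CommRing B] [Algebra K B]
    {φ ψ : AdjoinRoot F →ₐ[K] B} (h1 : φ (AdjoinRoot.of F X) = ψ (AdjoinRoot.of F X))
    (h2 : φ (AdjoinRoot.root F) = ψ (AdjoinRoot.root F)) : φ = ψ := by
  have h3 : φ.comp (IsScalarTower.toAlgHom K K[X] (AdjoinRoot F)) =
      ψ.comp (IsScalarTower.toAlgHom K K[X] (AdjoinRoot F)) := by
    apply Polynomial.algHom_ext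
    exact h1
  have h4 : ∀ p : K[X], φ (AdjoinRoot.of F p) = ψ (AdjoinRoot.of F p) := fun p ↦
    congrArg (· p) h3
  have h5 : (φ : AdjoinRoot F →+* B).comp (AdjoinRoot.mk F) =
      (ψ : AdjoinRoot F →+* B).comp (AdjoinRoot.mk F) := by
    apply Polynomial.ringHom_ext
    · intro p
      exact h4 p
    · exact h2
  refine AlgHom.ext fun z ↦ ?_
  obtain ⟨p, rfl⟩ := AdjoinRoot.mk_surjective z
  exact congrArg (· p) h5

/-- `y`-projection -/
noncomputable def equivY : AdjoinRoot (eqY a b) ≃ₐ[K] QuadraticAlgebra K[X] a b := by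
  refine AlgEquiv.ofAlgHom (AdjoinRoot.liftAlgHom (eqY a b)
      (IsScalarTower.toAlgHom K K[X] (QuadraticAlgebra K[X] a b)) ⟨0, 1⟩ ?_)
    (liftQ (AdjoinRoot.of _ X) (AdjoinRoot.root _) ?_) ?_ ?_
  · rw [eqY, eval₂_sub, eval₂_add, eval₂_mul, eval₂_X_pow, eval₂_C, eval₂_C, eval₂_X]
    apply QuadraticAlgebra.ext <;> simp [pow_two]
  · rw [root_eqY, aeval_of, aeval_of]
  · apply algHom_extQ
    · rw [AlgHom.comp_apply, liftQ_x, AdjoinRoot.liftAlgHom_of]
      rfl
    · rw [AlgHom.comp_apply, liftQ_y, AdjoinRoot.liftAlgHom_root]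
      rfl
  · apply algHom_extA
    · rw [AlgHom.comp_apply, AdjoinRoot.liftAlgHom_of]
      exact liftQ_x _ _ _
    · rw [AlgHom.comp_apply, AdjoinRoot.liftAlgHom_root]
      exact liftQ_y _ _ _

theorem equivY_mk (p : K[X][X]) : equivY a b (AdjoinRoot.mk _ p) =
    eval₂ (algebraMap K[X] (QuadraticAlgebra K[X] a b)) ⟨0, 1⟩ p := rfl

theorem eval₂_map_C {B : Type} [CommRing B] [Algebra K B] (φ : K[X] →ₐ[K] B) (x : B) (p : K[X]) :
    eval₂ (φ : K[X] →+* B) x (p.map Polynomial.C) = aeval x p := by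
  rw [eval₂_map, aeval_def]
  congr 1
  ext c
  exact φ.commutes c

theorem mk_map_C {F : K[X][X]} (p : K[X]) :
    AdjoinRoot.mk F (p.map Polynomial.C) = aeval (AdjoinRoot.root F) p := by
  have := eval₂_map_C (IsScalarTower.toAlgHom K K[X] (AdjoinRoot F)) (AdjoinRoot.root F) p
  rw [← this]
  have h2 := AdjoinRoot.aeval_eq (f := F) (p.map Polynomial.C)
  rw [← h2, aeval_def]
  rfl

variable (hc : IsUnit c)

include hc in
theorem root_eqX : AdjoinRoot.of (eqX c a b) X * AdjoinRoot.of (eqX c a b) X =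
    aeval (AdjoinRoot.root (eqX c a b)) a +
      aeval (AdjoinRoot.root (eqX c a b)) b * AdjoinRoot.of (eqX c a b) X := by
  have h1 : AdjoinRoot.mk (eqX c a b) (Polynomial.C (Polynomial.C c) * (a.map Polynomial.C +
      (b.map Polynomial.C * Polynomial.C X - Polynomial.C (X ^ 2)))) = 0 :=
    AdjoinRoot.mk_self
  rw [map_mul] at h1
  have h2 : IsUnit (AdjoinRoot.mk (eqX c a b) (Polynomial.C (Polynomial.C c))) :=
    ((hc.map Polynomial.C).map Polynomial.C).map (AdjoinRoot.mk (eqX c a b))
  have h3 := (h2.mul_right_eq_zero).1 h1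
  rw [map_add, map_sub, map_mul, mk_map_C, mk_map_C, AdjoinRoot.mk_C, AdjoinRoot.mk_C,
    map_pow] at h3
  linear_combination -h3

/-- `x`-projection -/
noncomputable def equivX : AdjoinRoot (eqX c a b) ≃ₐ[K] QuadraticAlgebra K[X] a b := by
  refine AlgEquiv.ofAlgHom (AdjoinRoot.liftAlgHom (eqX c a b)
      (aeval (⟨0, 1⟩ : QuadraticAlgebra K[X] a b)) ⟨X, 0⟩ ?_)
    (liftQ (AdjoinRoot.root _) (AdjoinRoot.of _ X) (root_eqX c a b hc)) ?_ ?_
  · have hp : ∀ p : K[X], aeval (⟨X, 0⟩ : QuadraticAlgebra K[X] a b) p = ⟨p, 0⟩ := by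
      intro p
      have : (⟨X, 0⟩ : QuadraticAlgebra K[X] a b) = algebraMap K[X] _ X := rfl
      rw [this, aeval_algebraMap_apply, aeval_X_left_apply]
      rfl
    rw [eqX, eval₂_mul, eval₂_add, eval₂_sub, eval₂_mul, eval₂_map_C, eval₂_map_C, eval₂_C,
      eval₂_C, eval₂_C, hp, hp]
    have h0 : ((⟨a, 0⟩ : QuadraticAlgebra K[X] a b) + (⟨b, 0⟩ *
        (aeval (⟨0, 1⟩ : QuadraticAlgebra K[X] a b) : K[X] →ₐ[K] _) X -
        (aeval (⟨0, 1⟩ : QuadraticAlgebra K[X] a b) : K[X] →ₐ[K] _) (X ^ 2))) = 0 := by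
      apply QuadraticAlgebra.ext <;> simp [pow_two]
    exact (congrArg _ h0).trans (mul_zero _)
  · apply algHom_extQ
    · rw [AlgHom.comp_apply, liftQ_x, AdjoinRoot.liftAlgHom_root]
      rfl
    · rw [AlgHom.comp_apply, liftQ_y, AdjoinRoot.liftAlgHom_of, aeval_X]
      rfl
  · apply algHom_extA
    · rw [AlgHom.comp_apply, AdjoinRoot.liftAlgHom_of, aeval_X]
      exact liftQ_y _ _ _
    · rw [AlgHom.comp_apply, AdjoinRoot.liftAlgHom_root]
      exact liftQ_x _ _ _

theorem equivX_mk (p : K[X][X]) : equivX c a b hc (AdjoinRoot.mk _ p) =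
    eval₂ ((aeval (⟨0, 1⟩ : QuadraticAlgebra K[X] a b) : K[X] →ₐ[K] _) : K[X] →+* _)
      ⟨X, 0⟩ p := rfl

theorem equivY_derivative :
    equivY a b (AdjoinRoot.mk _ (derivative (eqY a b))) = ⟨-b, 2⟩ := by
  rw [equivY_mk, eqY]
  simp only [derivative_sub, derivative_add, derivative_mul, derivative_X_pow, derivative_C,
    derivative_X, eval₂_sub, eval₂_add, eval₂_mul, eval₂_X_pow, eval₂_C, eval₂_X, eval₂_zero,
    eval₂_one]
  apply QuadraticAlgebra.ext <;> simp

theorem equivX_derivative :
    equivX c a b hc (AdjoinRoot.mk _ (derivative (eqX c a b))) =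
      algebraMap K _ c * ⟨derivative a, derivative b⟩ := by
  have hp : ∀ p : K[X], aeval (⟨X, 0⟩ : QuadraticAlgebra K[X] a b) p = ⟨p, 0⟩ := by
    intro p
    have : (⟨X, 0⟩ : QuadraticAlgebra K[X] a b) = algebraMap K[X] _ X := rfl
    rw [this, aeval_algebraMap_apply, aeval_X_left_apply]
    rfl
  rw [equivX_mk, eqX, derivative_C_mul, derivative_add, derivative_sub,
    derivative_mul (f := b.map Polynomial.C),
    derivative_C, derivative_C, derivative_map, derivative_map, mul_zero, add_zero, sub_zero,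
    eval₂_mul, eval₂_C, eval₂_add, eval₂_mul, eval₂_map_C, eval₂_map_C, hp, hp, eval₂_C]
  simp only [RingHom.coe_coe, aeval_X, aeval_C]
  congr 1
  apply QuadraticAlgebra.ext <;> simp

theorem locally_stdSmooth [Nontrivial K] (hca : c * a.leadingCoeff = 1)
    (hb : b.natDegree < a.natDegree)
    (hcop : IsCoprime (⟨-b, 2⟩ : QuadraticAlgebra K[X] a b) ⟨derivative a, derivative b⟩) :
    RingHom.Locally (RingHom.IsStandardSmoothOfRelativeDimension 1)
      (algebraMap K (QuadraticAlgebra K[X] a b)) := by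
  have hc : IsUnit c := IsUnit.of_mul_eq_one _ hca
  refine ⟨{⟨-b, 2⟩, algebraMap K _ c * ⟨derivative a, derivative b⟩}, ?_, ?_⟩
  · have h1 : IsCoprime (⟨-b, 2⟩ : QuadraticAlgebra K[X] a b)
        (algebraMap K _ c * ⟨derivative a, derivative b⟩) :=
      (isCoprime_mul_unit_left_right (hc.map (algebraMap K _)) _ _).2 hcop
    rw [Ideal.span_insert]
    exact (Ideal.isCoprime_span_singleton_iff _ _).2 h1 |>.sup_eq
  · intro t ht
    rcases ht with rfl | rfl
    · rw [← IsScalarTower.algebraMap_eq,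
        RingHom.isStandardSmoothOfRelativeDimension_algebraMap]
      exact stdSmooth_of_equiv (eqY a b) (eqY_monic a b) (equivY a b) _ (equivY_derivative a b)
    · rw [← IsScalarTower.algebraMap_eq,
        RingHom.isStandardSmoothOfRelativeDimension_algebraMap]
      exact stdSmooth_of_equiv (eqX c a b) (eqX_monic c a b hca hb) (equivX c a b hc) _
        (equivX_derivative c a b hc)

end

section

theorem smooth_isZariskiLocalAtSource :
    IsZariskiLocalAtSource (@SmoothOfRelativeDimension 1 : MorphismProperty Scheme.{0}) :=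
  HasRingHomProperty.instIsZariskiLocalAtSource

variable {D : Dat} {p : ℕ} (hD : Good D p) (K : Type) [Field K] [CharP K p]

include hD

theorem smooth_str : SmoothOfRelativeDimension 1 (str D K) := by
  have := smooth_isZariskiLocalAtSource
  rw [IsZariskiLocalAtSource.iff_of_openCover (P := @SmoothOfRelativeDimension 1) (cover D K)]
  have hpos := hD.pos
  have h0 : a0 D K ≠ 0 := by
    intro h
    have := natDegree_a0 hD K
    rw [h, natDegree_zero] at this
    omega
  have h1 : a1 D K ≠ 0 := by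
    intro h
    have := natDegree_a1 hD K
    rw [h, natDegree_zero] at this
    omega
  rintro (_ | _)
  · change SmoothOfRelativeDimension 1 (j0 D K ≫ str D K)
    rw [j0_str, HasRingHomProperty.Spec_iff (P := @SmoothOfRelativeDimension 1)]
    refine locally_stdSmooth (a0 D K).leadingCoeff⁻¹ _ _
      (inv_mul_cancel₀ (leadingCoeff_ne_zero.2 h0)) ?_ (hD.sm0 K)
    rw [natDegree_a0 hD K]
    have := natDegree_b0_le (D := D) K
    omega
  · change SmoothOfRelativeDimension 1 (j1 D K ≫ str D K)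
    rw [j1_str, HasRingHomProperty.Spec_iff (P := @SmoothOfRelativeDimension 1)]
    refine locally_stdSmooth (a1 D K).leadingCoeff⁻¹ _ _
      (inv_mul_cancel₀ (leadingCoeff_ne_zero.2 h1)) ?_ (hD.sm1 K)
    rw [natDegree_a1 hD K]
    have := natDegree_b1_le (D := D) K
    omega

theorem smooth_C : SmoothOfRelativeDimension 1 (C D K).hom := smooth_str hD K

end

end Pool.Agent.H27.HC
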